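import Pool.Agent.H.MP_2e716c_an.Final

/-!
# Reparametrisation by arclength
-/

open Set MeasureTheory Filter Topology
open scoped Manifold ContDiff

namespace Pool.Agent.MP2e716c

noncomputable section

/-- A positive `C²` function on `ℝ`, bounded below, which agrees with `‖deriv g‖` on `[0, ℓ]`.
Proof. `q r = ‖deriv g r‖² ` is `C²` and positive on `[0, ℓ]`, hence on an open neighbourhood; take a
smooth `χ : ℝ → [0, 1]`, `χ = 1` on `[0, ℓ]`, with compact support in that neighbourhood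
(`exists_contMDiff_zero_iff_one_iff_of_isClosed`, `exists_contDiff_tsupport_subset` or `ContDiffBump`), and
`s = √(χ q + (1 - χ))`: the radicand is `C²`, positive and bounded below by a positive constant
(compactness on the support, `1` outside). -/
theorem exists_speed {g : ℝ → ℂ} (hg : ContDiff ℝ 3 g) {ℓ : ℝ} (hℓ : 0 < ℓ)
    (h : ∀ r ∈ Icc 0 ℓ, deriv g r ≠ 0) :
    ∃ s : ℝ → ℝ, ContDiff ℝ 2 s ∧ (∃ m > 0, ∀ r, m ≤ s r) ∧ ∀ r ∈ Icc 0 ℓ, s r = ‖deriv g r‖ := by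
  have hg1 : ContDiff ℝ 2 (deriv g) := by
    have h1 : ContDiff ℝ (2 + 1) g := hg
    exact (contDiff_succ_iff_deriv.1 h1).2.2
  have hq : ContDiff ℝ 2 fun r => ‖deriv g r‖ ^ 2 := hg1.norm_sq ℝ
  obtain ⟨r₀, hr₀, hmin⟩ := isCompact_Icc.exists_isMinOn (nonempty_Icc.2 hℓ.le)
    hq.continuous.continuousOn
  have hδ : 0 < ‖deriv g r₀‖ ^ 2 := pow_pos (norm_pos_iff.2 (h r₀ hr₀)) 2
  obtain ⟨δ, hδe⟩ : ∃ δ : ℝ, δ = ‖deriv g r₀‖ ^ 2 := ⟨_, rfl⟩
  rw [← hδe] at hδ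
  have hs : IsClosed {r : ℝ | ‖deriv g r‖ ^ 2 ≤ δ / 2} := isClosed_le hq.continuous continuous_const
  have hd : Disjoint {r : ℝ | ‖deriv g r‖ ^ 2 ≤ δ / 2} (Icc 0 ℓ) := by
    rw [Set.disjoint_left]
    intro r hr hr'
    have h1 : δ ≤ ‖deriv g r‖ ^ 2 := by
      rw [hδe]
      exact hmin hr'
    have h2 : ‖deriv g r‖ ^ 2 ≤ δ / 2 := hr
    linarith
  obtain ⟨f, hf0, hf1, hf⟩ := exists_contMDiffMap_zero_one_of_isClosed (n := 2) 𝓘(ℝ, ℝ) hs
    isClosed_Icc hd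
  have hfc : ContDiff ℝ 2 (f : ℝ → ℝ) := f.contMDiff.contDiff
  obtain ⟨m, hm⟩ : ∃ m : ℝ, m = min (δ / 2) 1 := ⟨_, rfl⟩
  have hm0 : 0 < m := by
    rw [hm]
    exact lt_min (by linarith) one_pos
  have hρ : ∀ r, m ≤ f r * ‖deriv g r‖ ^ 2 + (1 - f r) := by
    intro r
    by_cases hr : ‖deriv g r‖ ^ 2 ≤ δ / 2
    · have h1 : f r = 0 := hf0 hr
      rw [h1, hm]
      have := min_le_right (δ / 2) 1
      linarith
    · have h1 := (hf r).1
      have h2 := (hf r).2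
      have h3 : m ≤ ‖deriv g r‖ ^ 2 := by
        rw [hm]
        exact (min_le_left _ _).trans (not_le.1 hr).le
      have h4 : m ≤ 1 := by
        rw [hm]
        exact min_le_right _ _
      nlinarith
  refine ⟨fun r => Real.sqrt (f r * ‖deriv g r‖ ^ 2 + (1 - f r)), ?_, ⟨Real.sqrt m,
    Real.sqrt_pos.2 hm0, fun r => Real.sqrt_le_sqrt (hρ r)⟩, ?_⟩
  · apply ContDiff.sqrt
    · exact (hfc.mul hq).add (contDiff_const.sub hfc)
    · intro r
      exact (hm0.trans_le (hρ r)).ne'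
  · intro r hr
    have h1 : f r = 1 := hf1 hr
    show Real.sqrt (f r * ‖deriv g r‖ ^ 2 + (1 - f r)) = ‖deriv g r‖
    rw [h1, one_mul, sub_self, add_zero, Real.sqrt_sq (norm_nonneg _)]

end

end Pool.Agent.MP2e716c
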