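import Pool.Agent.H.MP_2e716c_an.Gen.Arc

/-!
# Arclength parametrisation
-/

open Set MeasureTheory Filter Topology

namespace Pool.Agent.MP2e716c

noncomputable section

/-- Arclength parametrisation of a regular `C³` arc.
Proof. `σ r = ∫ t in 0..r, s t` with `s` from `exists_speed`: `C³`, derivative `s ≥ m > 0`, so a strictly
increasing bijection of `ℝ` with `C³` inverse `ρ` (`StrictMono.orderIso..`, `ContDiffAt.to_localInverse` /
`OpenPartialHomeomorph.contDiffAt_symm_deriv`); `c = g ∘ ρ`.  Then `c (σ r) = g r`,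
`deriv c (σ r) * deriv σ r = deriv g r`.  Curvature: `c' = (g' ∘ ρ) ρ'`, `c'' = (g'' ∘ ρ) ρ'² + (g' ∘ ρ) ρ''`, so
`ip c'' (I c') = ρ'³ ip (g'' ∘ ρ) (I g' ∘ ρ)` as `ip g' (I g') = 0`; `a = ρ'(σ r)³ > 0`. -/
theorem exists_arclength {g : ℝ → ℂ} (hg : ContDiff ℝ 3 g) {ℓ : ℝ} (hℓ : 0 < ℓ)
    (h : ∀ r ∈ Icc 0 ℓ, deriv g r ≠ 0) :
    ∃ (σ : ℝ → ℝ) (c : ℝ → ℂ), ContDiff ℝ 3 σ ∧ ContDiff ℝ 3 c ∧ (∀ r, 0 < deriv σ r) ∧ σ 0 = 0 ∧
      (∀ r, c (σ r) = g r) ∧ (∀ r ∈ Icc 0 ℓ, deriv σ r = ‖deriv g r‖) ∧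
      (∀ s ∈ Icc 0 (σ ℓ), ‖deriv c s‖ = 1) ∧
      ∀ r ∈ Icc 0 ℓ, ∃ a > 0, ip (deriv (deriv c) (σ r)) (Complex.I * deriv c (σ r)) =
        a * ip (deriv (deriv g) r) (Complex.I * deriv g r) := by
  classical
  obtain ⟨s, hs2, ⟨m, hm0, hm⟩, hsg⟩ := exists_speed hg hℓ h
  have hsc : Continuous s := hs2.continuous
  have hspos : ∀ r, 0 < s r := fun r => lt_of_lt_of_le hm0 (hm r)
  have hsne : ∀ r, s r ≠ 0 := fun r => (hspos r).ne'
  obtain ⟨σ, hσdef⟩ : ∃ σ : ℝ → ℝ, σ = fun r => ∫ t in (0 : ℝ)..r, s t := ⟨_, rfl⟩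
  have hσd : ∀ r, HasDerivAt σ (s r) r := by
    intro r
    rw [hσdef]
    exact intervalIntegral.integral_hasDerivAt_right (hsc.intervalIntegrable _ _)
      (hsc.stronglyMeasurableAtFilter _ _) hsc.continuousAt
  have hσderiv : deriv σ = s := funext fun r => (hσd r).deriv
  have hσ0 : σ 0 = 0 := by rw [hσdef]; simp
  have hσ3 : ContDiff ℝ 3 σ := by
    have h3 : (3 : WithTop ℕ∞) = 2 + 1 := by norm_num
    rw [h3, contDiff_succ_iff_deriv]
    refine ⟨fun r => (hσd r).differentiableAt, fun hh => ?_, ?_⟩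
    · exact absurd hh (by decide)
    · rw [hσderiv]; exact hs2
  have hσmono : StrictMono σ := strictMono_of_deriv_pos fun r => by
    rw [hσderiv]; exact hspos r
  have hdiff : Differentiable ℝ σ := fun r => (hσd r).differentiableAt
  -- growth
  have hgrow : ∀ a b : ℝ, a ≤ b → m * (b - a) ≤ σ b - σ a := by
    intro a b hab
    exact Convex.mul_sub_le_image_sub_of_le_deriv (D := univ) convex_univ hdiff.continuous.continuousOn
      hdiff.differentiableOn (fun x _ => by rw [hσderiv]; exact hm x) a (mem_univ _) b (mem_univ _) hab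
  have htop : Tendsto σ atTop atTop := by
    refine tendsto_atTop_mono' atTop (f₁ := fun r => m * r) ?_ (tendsto_id.const_mul_atTop hm0)
    filter_upwards [eventually_ge_atTop (0 : ℝ)] with r hr
    have := hgrow 0 r hr
    rw [hσ0] at this
    linarith
  have hbot : Tendsto σ atBot atBot := by
    refine tendsto_atBot_mono' atBot (f₁ := fun r => m * r) ?_ (tendsto_id.const_mul_atBot hm0)
    filter_upwards [eventually_le_atBot (0 : ℝ)] with r hr
    have := hgrow r 0 hr
    rw [hσ0] at this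
    linarith
  have hsurj : Function.Surjective σ := hdiff.continuous.surjective htop hbot
  obtain ⟨e, he⟩ : ∃ e : ℝ ≃ₜ ℝ, ∀ r, e r = σ r :=
    ⟨(hσmono.orderIsoOfSurjective σ hsurj).toHomeomorph, fun r => rfl⟩
  have heσ : (e : ℝ → ℝ) = σ := funext he
  obtain ⟨ρ, hρdef⟩ : ∃ ρ : ℝ → ℝ, ρ = e.symm := ⟨_, rfl⟩
  have hρσ : ∀ r, ρ (σ r) = r := by
    intro r
    rw [hρdef, ← he r]
    exact e.symm_apply_apply r
  have hσρ : ∀ x, σ (ρ x) = x := by
    intro x
    rw [hρdef, ← he]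
    exact e.apply_symm_apply x
  have hρ3 : ContDiff ℝ 3 ρ := by
    rw [hρdef]
    exact e.contDiff_symm_deriv (f' := s) hsne (fun x => by rw [heσ]; exact hσd x) (by rw [heσ]; exact hσ3)
  have hρcont : Continuous ρ := hρ3.continuous
  have hρd : ∀ x, HasDerivAt ρ (s (ρ x))⁻¹ x := by
    intro x
    exact HasDerivAt.of_local_left_inverse (f := σ) (f' := s (ρ x)) hρcont.continuousAt (hσd (ρ x))
      (hsne _) (Eventually.of_forall hσρ)
  have hgd : ∀ r, HasDerivAt g (deriv g r) r := fun r =>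
    ((hg.differentiable (by norm_num)) r).hasDerivAt
  have hg2 : ContDiff ℝ 2 (deriv g) := by
    have h3 : (3 : WithTop ℕ∞) = 2 + 1 := by norm_num
    rw [h3, contDiff_succ_iff_deriv] at hg
    exact hg.2.2
  have hgdd : ∀ r, HasDerivAt (deriv g) (deriv (deriv g) r) r := fun r =>
    ((hg2.differentiable (by norm_num)) r).hasDerivAt
  have hcd : ∀ x, HasDerivAt (fun x => g (ρ x)) ((s (ρ x))⁻¹ • deriv g (ρ x)) x := fun x =>
    HasDerivAt.scomp x (hgd (ρ x)) (hρd x)
  have hcderiv : deriv (fun x => g (ρ x)) = fun x => (s (ρ x))⁻¹ • deriv g (ρ x) :=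
    funext fun x => (hcd x).deriv
  have hρmono : Monotone ρ := by
    intro x y hxy
    by_contra hlt
    push Not at hlt
    have := hσmono hlt
    rw [hσρ, hσρ] at this
    linarith
  refine ⟨σ, fun x => g (ρ x), hσ3, hg.comp hρ3, fun r => by rw [hσderiv]; exact hspos r, hσ0, ?_, ?_, ?_, ?_⟩
  · intro r
    simp only [hρσ]
  · intro r hr
    rw [hσderiv]
    exact hsg r hr
  · intro x hx
    have h0 : ρ 0 = 0 := by
      have := hρσ 0
      rwa [hσ0] at this
    have hmem : ρ x ∈ Icc 0 ℓ := by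
      constructor
      · have := hρmono hx.1
        rwa [h0] at this
      · have := hρmono hx.2
        rwa [hρσ] at this
    rw [hcderiv]
    simp only
    rw [norm_smul, norm_inv, ← hsg _ hmem, Real.norm_of_nonneg (hspos _).le]
    exact inv_mul_cancel₀ (hsne _)
  · intro r hr
    obtain ⟨u, hu⟩ : ∃ u : ℝ → ℝ, u = fun x => (s (ρ x))⁻¹ := ⟨_, rfl⟩
    have hud : DifferentiableAt ℝ u (σ r) := by
      rw [hu]
      refine DifferentiableAt.inv ?_ (hsne _)
      exact DifferentiableAt.comp _ ((hs2.differentiable (by norm_num)) _)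
        ((hρ3.differentiable (by norm_num)) _)
    have hdd : HasDerivAt (fun x => u x • deriv g (ρ x))
        (u (σ r) • (u (σ r) • deriv (deriv g) (ρ (σ r))) + deriv u (σ r) • deriv g (ρ (σ r))) (σ r) := by
      have h1 : HasDerivAt (fun x => deriv g (ρ x)) (u (σ r) • deriv (deriv g) (ρ (σ r))) (σ r) := by
        have := HasDerivAt.scomp (σ r) (hgdd (ρ (σ r))) (hρd (σ r))
        rw [hu]
        exact this
      exact hud.hasDerivAt.smul h1
    have hc1 : deriv (fun x => g (ρ x)) (σ r) = u (σ r) • deriv g r := by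
      rw [hcderiv, hu]
      simp only [hρσ]
    have hc2 : deriv (deriv (fun x => g (ρ x))) (σ r) =
        u (σ r) • (u (σ r) • deriv (deriv g) r) + deriv u (σ r) • deriv g r := by
      have hEq : deriv (fun x => g (ρ x)) = fun x => u x • deriv g (ρ x) := by
        rw [hcderiv, hu]
      rw [hEq, hdd.deriv, hρσ]
    have hupos : 0 < u (σ r) := by
      rw [hu]
      exact inv_pos.2 (hspos _)
    refine ⟨u (σ r) ^ 3, by positivity, ?_⟩
    rw [hc1, hc2]
    simp only [ip, Complex.real_smul, Complex.add_re, Complex.add_im, Complex.mul_re, Complex.mul_im,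
      Complex.I_re, Complex.I_im, Complex.ofReal_re, Complex.ofReal_im]
    ring

end

end Pool.Agent.MP2e716c
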