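import Pool.Agent.H.MP_2e716c_an.Gen.Image2

/-!
# The displaced polygon
-/

open Set MeasureTheory Filter Topology

namespace Pool.Agent.MP2e716c

noncomputable section

namespace Table

variable {n : ℕ} [NeZero n]

/-- Displacement by hat functions maps sides to segments.
`γ k r = v_k + r u_k`, `r = len k * t`: the image is `(1 - t) (v_k + δ_k) + t (v_(k+1) + δ_(k+1))`
(`straight_eq`, `corner_next`, `IsHat`). -/
theorem shift_side {P : Table n} (hP : P.Straight) {h : Fin n → ℂ → ℝ} (hh : P.IsHat h)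
    (δ : Fin n → ℂ) (k : Fin n) {r : ℝ} (hr : r ∈ Icc 0 (P.len k)) :
    shift h δ (P.γ k r) = (P.γ k 0 + δ k) +
      ((r / P.len k : ℝ) : ℂ) * ((P.γ (k + 1) 0 + δ (k + 1)) - (P.γ k 0 + δ k)) := by
  have hl : (P.len k : ℂ) ≠ 0 := by
    rw [Complex.ofReal_ne_zero]
    exact (P.len_pos k).ne'
  have h1 : ∑ i, (h i (P.γ k r) : ℂ) * δ i =
      ((1 - r / P.len k : ℝ) : ℂ) * δ k + ((r / P.len k : ℝ) : ℂ) * δ (k + 1) := by
    have h2 : ∀ i, (h i (P.γ k r) : ℂ) * δ i =
        (if k = i then ((1 - r / P.len k : ℝ) : ℂ) * δ i else 0) +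
          (if k + 1 = i then ((r / P.len k : ℝ) : ℂ) * δ i else 0) := by
      intro i
      rw [hh i k r hr]
      split_ifs <;> push_cast <;> ring
    rw [Finset.sum_congr rfl fun i _ => h2 i, Finset.sum_add_distrib]
    simp
  unfold shift
  rw [h1, straight_eq hP k r, corner_next hP k]
  push_cast
  field_simp
  ring

end Table

namespace SemiDisp

variable {n : ℕ} [NeZero n]

/-- The displaced polygon.
Proof. For small `δ` (`shift_small`, `shift_pdiff`) `Φ = shift h δ` is a `PDiff`.  `exists_image` for `T.P` with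
`c k r = (v_k + δ_k) + r u'_k`, `len' k = ‖(v_(k+1) + δ_(k+1)) - (v_k + δ_k)‖ > 0` (injectivity of `Φ`: two different corners,
`v_(k+1) ≠ v_k` as `len k > 0`), `u'_k` the unit vector, `σ k r = r len' k / len k`. -/
theorem exists_polygon (T : SemiDisp n) {h : Fin n → ℂ → ℝ} (hh : T.P.IsHat h) {F : PDiff}
    {δ : Fin n → ℂ} (hF : ⇑F.Φ = shift h δ) :
    ∃ P' : Table n, P'.Straight ∧ Table.IsImage (shift h δ) T.P P' ∧
      ∀ k, P'.γ k 0 = T.P.γ k 0 + δ k := by
  have hP := T.straight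
  -- the sides of the new polygon
  obtain ⟨w, hw⟩ : ∃ w : Fin n → ℂ, ∀ k, w k =
      (T.P.γ (k + 1) 0 + δ (k + 1)) - (T.P.γ k 0 + δ k) := ⟨_, fun _ => rfl⟩
  have hside : ∀ k, ∀ r ∈ Icc 0 (T.P.len k), shift h δ (T.P.γ k r) =
      (T.P.γ k 0 + δ k) + ((r / T.P.len k : ℝ) : ℂ) * w k := by
    intro k r hr
    rw [hw]
    exact Table.shift_side hP hh δ k hr
  have hcorner : ∀ k, shift h δ (T.P.γ k 0) = T.P.γ k 0 + δ k := by
    intro k
    rw [hside k 0 ⟨le_rfl, (T.P.len_pos k).le⟩, zero_div, Complex.ofReal_zero, zero_mul, add_zero]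
  have hlc : ∀ k, (T.P.len k : ℂ) ≠ 0 := fun k => by
    rw [Complex.ofReal_ne_zero]
    exact (T.P.len_pos k).ne'
  have hw0 : ∀ k, w k ≠ 0 := by
    intro k h0
    have h1 : T.P.γ (k + 1) 0 + δ (k + 1) = T.P.γ k 0 + δ k := by
      rw [hw, sub_eq_zero] at h0
      exact h0
    rw [← hcorner, ← hcorner, ← hF] at h1
    have h2 := F.Φ.injective h1
    rw [Table.corner_next hP k, add_eq_left] at h2
    rcases mul_eq_zero.1 h2 with h3 | h3
    · exact hlc k h3
    · have h4 := Table.dir_norm (T := T.P) k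
      rw [h3, norm_zero] at h4
      exact zero_ne_one h4
  have hwn : ∀ k, 0 < ‖w k‖ := fun k => norm_pos_iff.2 (hw0 k)
  have hwc : ∀ k, (‖w k‖ : ℂ) ≠ 0 := fun k => by
    rw [Complex.ofReal_ne_zero]
    exact (hwn k).ne'
  obtain ⟨c, hc⟩ : ∃ c : Fin n → ℝ → ℂ, ∀ k s, c k s =
      (T.P.γ k 0 + δ k) + (s : ℂ) * (w k / ‖w k‖) := ⟨_, fun _ _ => rfl⟩
  obtain ⟨σ, hσ⟩ : ∃ σ : Fin n → ℝ → ℝ, ∀ k r, σ k r = r * (‖w k‖ / T.P.len k) :=
    ⟨_, fun _ _ => rfl⟩
  have hcfun : ∀ k, c k = fun s : ℝ => (T.P.γ k 0 + δ k) + (s : ℂ) * (w k / ‖w k‖) :=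
    fun k => funext fun s => hc k s
  have hσfun : ∀ k, σ k = fun r : ℝ => r * (‖w k‖ / T.P.len k) := fun k => funext fun r => hσ k r
  have hcd : ∀ k (s : ℝ), HasDerivAt (c k) (w k / ‖w k‖) s := by
    intro k s
    rw [hcfun]
    have h1 : HasDerivAt (fun s : ℝ => (s : ℂ)) 1 s := Complex.ofRealCLM.hasDerivAt
    have h2 := (h1.mul_const (w k / (‖w k‖ : ℂ))).const_add (T.P.γ k 0 + δ k)
    rwa [one_mul] at h2
  have hσd : ∀ k (r : ℝ), HasDerivAt (σ k) (‖w k‖ / T.P.len k) r := by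
    intro k r
    rw [hσfun]
    have h2 := (hasDerivAt_id r).mul_const (‖w k‖ / T.P.len k)
    rwa [one_mul] at h2
  have hcs : ∀ k, ContDiff ℝ 3 (c k) := by
    intro k
    rw [hcfun]
    exact contDiff_const.add (Complex.ofRealCLM.contDiff.mul contDiff_const)
  have hcσ : ∀ k, ∀ r ∈ Icc 0 (T.P.len k), c k (σ k r) = F.Φ (T.P.γ k r) := by
    intro k r hr
    rw [hF, hside k r hr, hc, hσ]
    have h1 := hwc k
    have h2 := hlc k
    push_cast
    field_simp
  have hpos : ∀ k, 0 < ‖w k‖ / T.P.len k := fun k => div_pos (hwn k) (T.P.len_pos k)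
  have hσ0 : ∀ k, σ k 0 = 0 := fun k => by rw [hσ, zero_mul]
  have hσ1 : ∀ k, σ k (T.P.len k) = ‖w k‖ := fun k => by
    rw [hσ, mul_div_cancel₀ _ (T.P.len_pos k).ne']
  obtain ⟨P', hP1, hP2, hP3⟩ := T.P.exists_image F (fun k => ‖w k‖) c σ hcs
    (fun k s _ => by
      rw [(hcd k s).deriv, norm_div, Complex.norm_real, norm_norm, div_self (hwn k).ne'])
    hσ0 hσ1 (fun k r _ => ⟨_, hpos k, hσd k r⟩) hcσ
  refine ⟨P', ?_, ⟨?_, ?_⟩, ?_⟩
  · intro k
    refine ⟨T.P.γ k 0 + δ k, w k / ‖w k‖, fun r => ?_⟩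
    rw [hP2, hc]
  · rw [hP3, hF]
  · intro k
    refine ⟨σ k, hσ0 k, ?_, fun r hr => ⟨?_, ?_⟩⟩
    · rw [hσ1, hP1]
    · -- the derivative of the side
      have h1 : HasDerivAt (fun r => shift h δ (T.P.γ k r))
          (deriv (fun r => shift h δ (T.P.γ k r)) r) r := by
        refine DifferentiableAt.hasDerivAt ?_
        rw [← hF]
        exact ((F.smooth.differentiable (by norm_num)) _).comp r
          ((T.P.smooth k).differentiable (by norm_num) r)
      have h2 : HasDerivAt (fun r : ℝ => (T.P.γ k 0 + δ k) + ((r / T.P.len k : ℝ) : ℂ) * w k)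
          (w k / T.P.len k) r := by
        have h3 : HasDerivAt (fun s : ℝ => (s : ℂ)) 1 r := Complex.ofRealCLM.hasDerivAt
        have h4 := (h3.mul_const (w k / (T.P.len k : ℂ))).const_add (T.P.γ k 0 + δ k)
        rw [one_mul] at h4
        refine h4.congr_of_eventuallyEq (Filter.Eventually.of_forall fun s => ?_)
        simp only
        push_cast
        ring
      have hu : UniqueDiffWithinAt ℝ (Icc 0 (T.P.len k)) r :=
        uniqueDiffOn_Icc (T.P.len_pos k) r hr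
      have h5 : HasDerivWithinAt (fun r => shift h δ (T.P.γ k r)) (w k / T.P.len k)
          (Icc 0 (T.P.len k)) r :=
        h2.hasDerivWithinAt.congr (fun s hs => hside k s hs) (hside k r hr)
      have h6 := hu.eq_deriv _ h1.hasDerivWithinAt h5
      rw [h6, norm_div, Complex.norm_real, Real.norm_eq_abs, abs_of_pos (T.P.len_pos k)]
      exact hσd k r
    · rw [hP2, hcσ k r hr, hF]
  · intro k
    rw [hP2, hc, Complex.ofReal_zero, zero_mul, add_zero]

end SemiDisp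

end

end Pool.Agent.MP2e716c
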