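import Pool.Agent.H.MP_2e716c_an.Gen.PDiff

/-!
# Displaced arcs: regularity and curvature for small displacements
-/

open Set MeasureTheory Filter Topology

namespace Pool.Agent.MP2e716c

noncomputable section

variable {n : ℕ} [NeZero n]

omit [NeZero n] in
theorem gen_pos_deriv {γ : ℝ → ℂ} (hγ : Differentiable ℝ γ) {k : Fin n → ℝ → ℝ}
    (hk : ∀ i, Differentiable ℝ (k i)) (δ : Fin n → ℂ) :
    (deriv fun r => γ r + ∑ i, (k i r : ℂ) * δ i) =
      fun r => deriv γ r + ∑ i, ((deriv (k i) r : ℝ) : ℂ) * δ i := by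
  funext r
  have h1 : HasDerivAt (fun r => γ r + ∑ i, (k i r : ℂ) * δ i)
      (deriv γ r + ∑ i, ((deriv (k i) r : ℝ) : ℂ) * δ i) r := by
    refine (hγ r).hasDerivAt.add ?_
    refine HasDerivAt.fun_sum fun i _ => ?_
    exact ((hk i r).hasDerivAt.ofReal_comp).mul_const _
  exact h1.deriv

theorem gen_pos_deriv_smooth {E : Type*} [NormedAddCommGroup E] [NormedSpace ℝ E] {f : ℝ → E}
    (hf : ContDiff ℝ 3 f) : ContDiff ℝ 2 (deriv f) :=
  (contDiff_succ_iff_deriv (n := 2)
    |>.1 (hf.of_le (by norm_num : ((2 : WithTop ℕ∞) + 1) ≤ 3))).2.2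

/-- The displaced arc and its first two derivatives as continuous functions of the displacement and
the parameter.  `g_δ = γ + ∑ (h_j ∘ γ) δ_j`, `g_δ' = γ' + ∑ (h_j ∘ γ)' δ_j`, `g_δ'' = γ'' + ∑ (h_j ∘ γ)'' δ_j`. -/
theorem shift_arc {h : Fin n → ℂ → ℝ} (hs : ∀ i, ContDiff ℝ (⊤ : ℕ∞) (h i)) {γ : ℝ → ℂ}
    (hγ : ContDiff ℝ 3 γ) :
    (∀ δ : Fin n → ℂ, ContDiff ℝ 3 fun r => shift h δ (γ r)) ∧
    (Continuous fun p : (Fin n → ℂ) × ℝ => deriv (fun r => shift h p.1 (γ r)) p.2) ∧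
    (Continuous fun p : (Fin n → ℂ) × ℝ => deriv (deriv fun r => shift h p.1 (γ r)) p.2) ∧
    ∀ r, shift h 0 (γ r) = γ r := by
  have hh3 : ∀ i, ContDiff ℝ 3 (h i) := fun i => by
    have h3 := contDiff_infty.1 (hs i) 3
    exact_mod_cast h3
  have hk3 : ∀ i, ContDiff ℝ 3 fun r => h i (γ r) := fun i => (hh3 i).comp hγ
  have hk1 : ∀ i, Differentiable ℝ fun r => h i (γ r) := fun i =>
    (hk3 i).differentiable (by norm_num)
  have hγ1 : Differentiable ℝ γ := hγ.differentiable (by norm_num)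
  have hk2 : ∀ i, ContDiff ℝ 2 (deriv fun r => h i (γ r)) := fun i => gen_pos_deriv_smooth (hk3 i)
  have hγ2 : ContDiff ℝ 2 (deriv γ) := gen_pos_deriv_smooth hγ
  have hd1 : ∀ δ : Fin n → ℂ, (deriv fun r => shift h δ (γ r)) =
      fun r => deriv γ r + ∑ i, ((deriv (fun r => h i (γ r)) r : ℝ) : ℂ) * δ i := fun δ =>
    gen_pos_deriv hγ1 hk1 δ
  have hd2 : ∀ δ : Fin n → ℂ, (deriv (deriv fun r => shift h δ (γ r))) =
      fun r => deriv (deriv γ) r +
        ∑ i, ((deriv (deriv fun r => h i (γ r)) r : ℝ) : ℂ) * δ i := fun δ => by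
    rw [hd1 δ]
    exact gen_pos_deriv (hγ2.differentiable (by norm_num))
      (fun i => (hk2 i).differentiable (by norm_num)) δ
  refine ⟨fun δ => ?_, ?_, ?_, fun r => ?_⟩
  · have h1 : ∀ i, ContDiff ℝ 3 fun r => ((h i (γ r) : ℝ) : ℂ) := fun i =>
      Complex.ofRealCLM.contDiff.comp (hk3 i)
    unfold shift
    exact hγ.add (ContDiff.sum fun i _ => (h1 i).mul contDiff_const)
  · simp only [hd1]
    have h1 : Continuous (deriv γ) := hγ2.continuous
    have h2 : ∀ i, Continuous (deriv fun r => h i (γ r)) := fun i => (hk2 i).continuous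
    refine (h1.comp continuous_snd).add (continuous_finsetSum _ fun i _ => ?_)
    exact (Complex.continuous_ofReal.comp ((h2 i).comp continuous_snd)).mul
      ((continuous_apply i).comp continuous_fst)
  · simp only [hd2]
    have h1 : Continuous (deriv (deriv γ)) := hγ2.continuous_deriv (by norm_num)
    have h2 : ∀ i, Continuous (deriv (deriv fun r => h i (γ r))) := fun i =>
      (hk2 i).continuous_deriv (by norm_num)
    refine (h1.comp continuous_snd).add (continuous_finsetSum _ fun i _ => ?_)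
    exact (Complex.continuous_ofReal.comp ((h2 i).comp continuous_snd)).mul
      ((continuous_apply i).comp continuous_fst)
  · unfold shift
    simp

/-- For small displacements all arcs stay regular and the dispersive ones stay positively curved.
Proof. `shift_arc`, compactness of `[0, len i]` and `‖deriv (γ i)‖ = 1`, `0 < curv` there
(`IsCompact.eventually_forall_of_forall_eventually` at `δ = 0`). -/
theorem shift_curved (T : SemiDisp n) {h : Fin n → ℂ → ℝ} (hs : ∀ i, ContDiff ℝ (⊤ : ℕ∞) (h i)) :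
    ∃ ρ > 0, ∀ δ : Fin n → ℂ, ‖δ‖ < ρ →
      (∀ i, ∀ r ∈ Icc 0 (T.Y.len i), 1 / 2 ≤ ‖deriv (fun r => shift h δ (T.Y.γ i r)) r‖) ∧
      (∀ i, ∀ r ∈ Icc 0 (T.P.len i), 1 / 2 ≤ ‖deriv (fun r => shift h δ (T.P.γ i r)) r‖) ∧
      ∀ i ∈ T.disp, ∀ r ∈ Icc 0 (T.Y.len i),
        0 < -ip (deriv (deriv fun r => shift h δ (T.Y.γ i r)) r)
          (Complex.I * deriv (fun r => shift h δ (T.Y.γ i r)) r) := by
  have key : ∀ (g : (Fin n → ℂ) × ℝ → ℝ) (c l : ℝ), Continuous g → (∀ r ∈ Icc 0 l, c < g (0, r)) →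
      ∀ᶠ δ in 𝓝 (0 : Fin n → ℂ), ∀ r ∈ Icc 0 l, c < g (δ, r) := by
    intro g c l hg hc
    refine isCompact_Icc.eventually_forall_of_forall_eventually (P := fun δ r => c < g (δ, r)) ?_
    intro r hr
    exact (hg.tendsto (0, r)).eventually_const_lt (hc r hr)
  have hz : ∀ (S : Table n) (i : Fin n), (fun r => shift h 0 (S.γ i r)) = S.γ i := fun S i =>
    funext (shift_arc hs (S.smooth i)).2.2.2
  have hreg : ∀ S : Table n, ∀ᶠ δ in 𝓝 (0 : Fin n → ℂ), ∀ i, ∀ r ∈ Icc 0 (S.len i),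
      1 / 2 ≤ ‖deriv (fun r => shift h δ (S.γ i r)) r‖ := by
    intro S
    rw [eventually_all]
    intro i
    have h1 := key (fun p => ‖deriv (fun r => shift h p.1 (S.γ i r)) p.2‖) (1 / 2) (S.len i)
      (shift_arc hs (S.smooth i)).2.1.norm (by
        intro r hr
        simp only
        rw [hz S i, S.unit i r hr]
        norm_num)
    exact h1.mono fun δ hδ r hr => (hδ r hr).le
  have hcur : ∀ᶠ δ in 𝓝 (0 : Fin n → ℂ), ∀ i, i ∈ T.disp → ∀ r ∈ Icc 0 (T.Y.len i),
        0 < -ip (deriv (deriv fun r => shift h δ (T.Y.γ i r)) r)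
          (Complex.I * deriv (fun r => shift h δ (T.Y.γ i r)) r) := by
    rw [eventually_all]
    intro i
    by_cases hi : i ∈ T.disp
    · have hc : Continuous fun p : (Fin n → ℂ) × ℝ =>
          -ip (deriv (deriv fun r => shift h p.1 (T.Y.γ i r)) p.2)
            (Complex.I * deriv (fun r => shift h p.1 (T.Y.γ i r)) p.2) :=
        (ip_continuous.comp ((shift_arc hs (T.Y.smooth i)).2.2.1.prodMk
          (continuous_const.mul (shift_arc hs (T.Y.smooth i)).2.1))).neg
      have h1 := key _ 0 (T.Y.len i) hc (by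
        intro r hr
        simp only
        rw [hz T.Y i]
        exact T.curved i hi r hr)
      exact h1.mono fun δ hδ _ => hδ
    · exact Eventually.of_forall fun δ h1 => absurd h1 hi
  obtain ⟨ρ, hρ, hb⟩ := Metric.eventually_nhds_iff.1 ((hreg T.Y).and ((hreg T.P).and hcur))
  refine ⟨ρ, hρ, fun δ hδ => ?_⟩
  have h1 := hb (y := δ) (by rwa [dist_zero_right])
  exact ⟨h1.1, h1.2.1, h1.2.2⟩

end

end Pool.Agent.MP2e716c
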