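import Pool.Agent.H.MP_2e716c_an.Gen.Arc2
import Pool.Agent.H.MP_2e716c_an.Gen.Pos
import Pool.Agent.H.MP_2e716c_an.Gen.Build

/-!
# The displaced semi-dispersive table
-/

open Set MeasureTheory Filter Topology

namespace Pool.Agent.MP2e716c

noncomputable section

namespace SemiDisp

variable {n : ℕ} [NeZero n]

/-- The displaced arcs of the semi-dispersive table. -/
theorem gen_build2_arc (T : SemiDisp n) {h : Fin n → ℂ → ℝ}
    (hs : ∀ i, ContDiff ℝ (⊤ : ℕ∞) (h i)) {δ : Fin n → ℂ} {P' : Table n}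
    (him : Table.IsImage (shift h δ) T.P P')
    (hreg : ∀ i, ∀ r ∈ Icc 0 (T.Y.len i), 1 / 2 ≤ ‖deriv (fun r => shift h δ (T.Y.γ i r)) r‖)
    (hcur : ∀ i ∈ T.disp, ∀ r ∈ Icc 0 (T.Y.len i),
        0 < -ip (deriv (deriv fun r => shift h δ (T.Y.γ i r)) r)
          (Complex.I * deriv (fun r => shift h δ (T.Y.γ i r)) r)) (i : Fin n) :
    ∃ (l : ℝ) (c : ℝ → ℂ) (σ : ℝ → ℝ), ContDiff ℝ 3 c ∧ (∀ s ∈ Icc 0 l, ‖deriv c s‖ = 1) ∧
      σ 0 = 0 ∧ σ (T.Y.len i) = l ∧
      (∀ r ∈ Icc 0 (T.Y.len i),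
        HasDerivAt σ ‖deriv (fun r => shift h δ (T.Y.γ i r)) r‖ r ∧
          c (σ r) = shift h δ (T.Y.γ i r)) ∧
      (i ∉ T.disp → l = P'.len i ∧ c = P'.γ i) ∧
      (i ∈ T.disp → ∀ s ∈ Icc 0 l, 0 < -ip (deriv (deriv c) s) (Complex.I * deriv c s)) ∧
      c 0 = P'.γ i 0 := by
  have hP0 : P'.γ i 0 = shift h δ (T.P.γ i 0) := by
    obtain ⟨σ, h0, -, h2⟩ := him.2 i
    have h3 := (h2 0 ⟨le_refl _, (T.P.len_pos i).le⟩).2
    rwa [h0] at h3
  by_cases hi : i ∈ T.disp
  · have hg := (shift_arc hs (T.Y.smooth i)).1 δ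
    obtain ⟨σ, c, hσC, hcC, -, hσ0, hcσ, hσ', hunit, hcurv⟩ :=
      exists_arclength hg (T.Y.len_pos i) (fun r hr h0 => by
        have h1 := hreg i r hr
        rw [h0, norm_zero] at h1
        norm_num at h1)
    refine ⟨σ (T.Y.len i), c, σ, hcC, hunit, hσ0, rfl, fun r hr => ⟨?_, hcσ r⟩,
      fun h1 => absurd hi h1, fun _ s hs' => ?_, ?_⟩
    · have h1 : HasDerivAt σ (deriv σ r) r :=
        ((hσC.differentiable (by norm_num)) r).hasDerivAt
      rw [hσ' r hr] at h1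
      exact h1
    · have hiv := intermediate_value_Icc (T.Y.len_pos i).le hσC.continuous.continuousOn
      rw [hσ0] at hiv
      obtain ⟨r, hr, hrs⟩ := hiv hs'
      obtain ⟨a, ha, hea⟩ := hcurv r hr
      have h1 := hcur i hi r hr
      rw [← hrs, hea]
      have h2 := mul_pos ha h1
      linarith
    · have h1 := hcσ 0
      rw [hσ0] at h1
      rw [h1, hP0, T.corner i]
  · obtain ⟨hl, hγ⟩ := T.neutral i hi
    obtain ⟨σ, h0, h1, h2⟩ := him.2 i
    refine ⟨P'.len i, P'.γ i, σ, P'.smooth i, P'.unit i, h0, ?_, fun r hr => ?_,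
      fun _ => ⟨rfl, rfl⟩, fun h3 => absurd h3 hi, rfl⟩
    · rw [hl, h1]
    · rw [hl] at hr
      rw [hγ]
      exact h2 r hr

/-- The displaced table.
Proof. `ρ` from `shift_small` and `shift_curved`; `P'` from `exists_polygon`.  `Y'`: `exists_image` for `T.Y` with the arcs
of `P'` for the neutral sides (`T.Y.γ i = T.P.γ i`, `T.Y.len i = T.P.len i`, `σ` as for `P'`), and for `i ∈ disp` the
arclength parametrisation `exists_arclength` of `g = shift h δ ∘ T.Y.γ i` (regular by `shift_curved`).  Then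
`corner`: `Y'.γ i 0 = shift h δ (T.Y.γ i 0) = shift h δ (T.P.γ i 0) = P'.γ i 0`; `curved`: `exists_arclength` and `shift_curved`
(`s = σ r`, `σ` maps `[0, len]` onto `[0, len']`); `sub`: images under `shift h δ`. -/
theorem exists_displaced (T : SemiDisp n) {h : Fin n → ℂ → ℝ}
    (hs : ∀ i, ContDiff ℝ (⊤ : ℕ∞) (h i)) (hk : ∀ i, HasCompactSupport (h i)) (hh : T.P.IsHat h) :
    ∃ ρ > 0, ∀ δ : Fin n → ℂ, ‖δ‖ < ρ → ∃ T' : SemiDisp n, T'.disp = T.disp ∧
      Table.IsImage (shift h δ) T.Y T'.Y ∧ Table.IsImage (shift h δ) T.P T'.P ∧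
      ∀ k, T'.P.γ k 0 = T.P.γ k 0 + δ k := by
  obtain ⟨ρ1, hρ1, H1⟩ := shift_small hs hk
  obtain ⟨ρ2, hρ2, H2⟩ := shift_curved T hs
  refine ⟨min ρ1 ρ2, lt_min hρ1 hρ2, fun δ hδ => ?_⟩
  obtain ⟨F, hF⟩ := shift_pdiff hs (H1 δ (lt_of_lt_of_le hδ (min_le_left _ _)))
  obtain ⟨hregY, -, hcur⟩ := H2 δ (lt_of_lt_of_le hδ (min_le_right _ _))
  obtain ⟨P', hstr, him, hcor⟩ := T.exists_polygon hh hF
  have harc := fun i => gen_build2_arc T hs him hregY hcur i
  choose l c σ hcC hunit hσ0 hσ1 hσ hneu hcv hc0 using harc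
  obtain ⟨Y', hl, hc, hr⟩ := T.Y.exists_image F l c σ hcC hunit hσ0 hσ1
    (fun i r hr => ⟨_, by linarith [hregY i r hr], (hσ i r hr).1⟩)
    (fun i r hr => by rw [(hσ i r hr).2, hF])
  have hYim : Table.IsImage (shift h δ) T.Y Y' := by
    refine ⟨by rw [hr, hF], fun i => ⟨σ i, hσ0 i, ?_, fun r hr => ⟨(hσ i r hr).1, ?_⟩⟩⟩
    · rw [hl, hσ1]
    · rw [hc]
      exact (hσ i r hr).2
  refine ⟨{ P := P'
            Y := Y'
            disp := T.disp
            disp_nonempty := T.disp_nonempty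
            straight := hstr
            corner := fun i => by rw [hc]; exact hc0 i
            neutral := fun i hi => by
              rw [hl, hc]
              exact hneu i hi
            curved := fun i hi r hr' => by
              unfold Table.curv
              rw [hc]
              rw [hl] at hr'
              exact hcv i hi r hr'
            sub := by
              rw [hYim.1, him.1]
              exact image_mono T.sub }, rfl, hYim, him, hcor⟩

end SemiDisp

end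

end Pool.Agent.MP2e716c
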