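import Pool.Agent.H.MP_2e716c_an.Final

/-!
# Families of tables

`Close ε T T'`: the arcs of `T'` are `ε`-close to the arcs of `T` together with their unit tangents.
`ContFam T`: the tables `T x`, `x` in a topological space, depend continuously on `x` in this sense.
-/

open Set MeasureTheory Filter Topology

namespace Pool.Agent.MP2e716c

noncomputable section

namespace Table

variable {n : ℕ} [NeZero n]

/-- The arcs of `T'` are `ε`-close to the arcs of `T`, with their tangents (`C¹` closeness). -/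
def Close (ε : ℝ) (T T' : Table n) : Prop :=
  ∀ i, |T'.len i - T.len i| < ε ∧ ∀ r ∈ Icc 0 (T.len i), r ≤ T'.len i →
    ‖T'.γ i r - T.γ i r‖ < ε ∧ ‖deriv (T'.γ i) r - deriv (T.γ i) r‖ < ε

variable {X : Type*} [TopologicalSpace X]

/-- The tables `T x` depend continuously on the parameter `x` (arcs and unit tangents, uniformly). -/
def ContFam (T : X → Table n) : Prop :=
  ∀ x0, ∀ ε > 0, ∀ᶠ x in 𝓝 x0, Close ε (T x0) (T x)

variable {T : X → Table n}

/-- The lengths are continuous.  Directly from the definition. -/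
theorem fam_len (hT : ContFam T) (i : Fin n) : Continuous fun x => (T x).len i := by
  rw [continuous_iff_continuousAt]
  intro x0
  show Tendsto (fun x => (T x).len i) (𝓝 x0) (𝓝 ((T x0).len i))
  rw [Metric.tendsto_nhds]
  intro ε hε
  filter_upwards [hT x0 ε hε] with x hx
  rw [Real.dist_eq]
  exact (hx i).1

/-- Joint continuity from uniform closeness, general form. -/
theorem gen_fam_tend (hT : ContFam T) (i : Fin n) (F : X → ℝ → ℂ) {x0 : X} {r0 : ℝ}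
    (hr : r0 ∈ Ioo 0 ((T x0).len i)) (hc : Continuous (F x0))
    (hF : ∀ ε > 0, ∀ᶠ x in 𝓝 x0, ∀ r ∈ Icc 0 ((T x0).len i), r ≤ (T x).len i →
      ‖F x r - F x0 r‖ < ε) :
    Tendsto (fun p : X × ℝ => F p.1 p.2) (𝓝 (x0, r0)) (𝓝 (F x0 r0)) := by
  rw [Metric.tendsto_nhds]
  intro ε hε
  have e1 : ∀ᶠ p : X × ℝ in 𝓝 (x0, r0), ∀ r ∈ Icc 0 ((T x0).len i), r ≤ (T p.1).len i →
      ‖F p.1 r - F x0 r‖ < ε / 2 := (hF (ε / 2) (half_pos hε)).prod_inl_nhds r0
  have e2 : ∀ᶠ p : X × ℝ in 𝓝 (x0, r0), p.2 ∈ Ioo 0 ((T x0).len i) :=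
    (isOpen_Ioo.preimage continuous_snd).mem_nhds hr
  have e3 : ∀ᶠ p : X × ℝ in 𝓝 (x0, r0), p.2 < (T p.1).len i :=
    (isOpen_lt continuous_snd ((fam_len hT i).comp continuous_fst)).mem_nhds hr.2
  have e4 : ∀ᶠ p : X × ℝ in 𝓝 (x0, r0), dist (F x0 p.2) (F x0 r0) < ε / 2 := by
    have h1 : Tendsto (fun p : X × ℝ => F x0 p.2) (𝓝 (x0, r0)) (𝓝 (F x0 r0)) :=
      (hc.comp continuous_snd).tendsto (x0, r0)
    exact (Metric.tendsto_nhds.1 h1) (ε / 2) (half_pos hε)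
  filter_upwards [e1, e2, e3, e4] with p h1 h2 h3 h4
  have h5 := h1 p.2 ⟨h2.1.le, h2.2.le⟩ h3.le
  rw [← dist_eq_norm] at h5
  have h6 := dist_triangle (F p.1 p.2) (F x0 p.2) (F x0 r0)
  linarith

/-- Joint continuity of the arcs at interior points.
Proof. For `(x, r)` near `(x0, r0)`: `r ∈ (0, len_{x0})` and `r < len_x` (`fam_len`), so
`‖γ_x r - γ_{x0} r‖ < ε` by `Close` and `‖γ_{x0} r - γ_{x0} r0‖ < ε` by continuity of `(T x0).γ i`. -/
theorem fam_gamma (hT : ContFam T) (i : Fin n) {x0 : X} {r0 : ℝ} (hr : r0 ∈ Ioo 0 ((T x0).len i)) :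
    Tendsto (fun p : X × ℝ => (T p.1).γ i p.2) (𝓝 (x0, r0)) (𝓝 ((T x0).γ i r0)) := by
  refine gen_fam_tend hT i (fun x r => (T x).γ i r) hr ((T x0).stab_cont_γ i) ?_
  intro ε hε
  filter_upwards [hT x0 ε hε] with x hx r hr0 hr1
  exact ((hx i).2 r hr0 hr1).1

/-- The same for the unit tangents. -/
theorem fam_deriv (hT : ContFam T) (i : Fin n) {x0 : X} {r0 : ℝ} (hr : r0 ∈ Ioo 0 ((T x0).len i)) :
    Tendsto (fun p : X × ℝ => deriv ((T p.1).γ i) p.2) (𝓝 (x0, r0))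
      (𝓝 (deriv ((T x0).γ i) r0)) := by
  refine gen_fam_tend hT i (fun x r => deriv ((T x).γ i) r) hr ((T x0).stab_cont_deriv i) ?_
  intro ε hε
  filter_upwards [hT x0 ε hε] with x hx r hr0 hr1
  exact ((hx i).2 r hr0 hr1).2

/-- The arcs are 1-Lipschitz. -/
theorem gen_fam_lip (U : Table n) (k : Fin n) {a b : ℝ} (ha : a ∈ Icc 0 (U.len k))
    (hb : b ∈ Icc 0 (U.len k)) : ‖U.γ k b - U.γ k a‖ ≤ |b - a| := by
  have h := Convex.norm_image_sub_le_of_norm_deriv_le (𝕜 := ℝ) (f := U.γ k) (C := 1)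
    (s := Icc 0 (U.len k))
    (fun x _ => ((U.smooth k).differentiable (by norm_num)).differentiableAt)
    (fun x hx => le_of_eq (U.unit k x hx)) (convex_Icc _ _) ha hb
  rw [one_mul, Real.norm_eq_abs] at h
  exact h

/-- Every arc point of `T x` is near a point of the same arc of `T x0` (nearly the same parameter).
Proof. Take `Close (ε/2)`.  If `s ≤ len_{x0}` take `s0 = s`.  Else `s0 = len_{x0}`, `s - s0 < ε/2` and
`‖γ_x s - γ_x s0‖ ≤ s - s0` since `‖deriv γ_x‖ = 1` on `[s0, s] ⊆ [0, len_x]` (mean value inequality,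
`Convex.norm_image_sub_le_of_norm_deriv_le`). -/
theorem fam_uniform (hT : ContFam T) (x0 : X) {ε : ℝ} (hε : 0 < ε) :
    ∀ᶠ x in 𝓝 x0, ∀ k, ∀ s ∈ Icc 0 ((T x).len k), ∃ s0 ∈ Icc 0 ((T x0).len k),
      |s - s0| < ε ∧ ‖(T x).γ k s - (T x0).γ k s0‖ < ε := by
  filter_upwards [hT x0 (ε / 2) (half_pos hε)] with x hx k s hs
  obtain ⟨h1, h2⟩ := hx k
  by_cases hle : s ≤ (T x0).len k
  · refine ⟨s, ⟨hs.1, hle⟩, ?_, ?_⟩
    · rw [sub_self, abs_zero]
      exact hε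
    · have h3 := (h2 s ⟨hs.1, hle⟩ hs.2).1
      linarith
  · push Not at hle
    have hL : (0 : ℝ) < (T x0).len k := (T x0).len_pos k
    have h4 : (T x0).len k ≤ (T x).len k := hle.le.trans hs.2
    have h5 := (h2 ((T x0).len k) ⟨hL.le, le_refl _⟩ h4).1
    have h6 := (abs_lt.1 h1).2
    have h7 : |s - (T x0).len k| < ε / 2 := by
      rw [abs_of_pos (by linarith)]
      linarith [hs.2]
    refine ⟨(T x0).len k, ⟨hL.le, le_refl _⟩, by linarith, ?_⟩
    have h8 := gen_fam_lip (T x) k (a := (T x0).len k) (b := s) ⟨hL.le, h4⟩ hs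
    have h9 := norm_add_le ((T x).γ k s - (T x).γ k ((T x0).len k))
      ((T x).γ k ((T x0).len k) - (T x0).γ k ((T x0).len k))
    rw [sub_add_sub_cancel] at h9
    linarith

/-- The phase spaces vary continuously at phase points (open condition). -/
theorem fam_phase (hT : ContFam T) {x0 : X} {z : Fin n × ℝ × ℝ} (hz : z ∈ (T x0).phase) :
    ∀ᶠ p : X × (Fin n × ℝ × ℝ) in 𝓝 (x0, z), p.2.1 = z.1 ∧ p.2 ∈ (T p.1).phase := by
  have e1 : ∀ᶠ p : X × (Fin n × ℝ × ℝ) in 𝓝 (x0, z), p.2.1 = z.1 :=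
    ((isOpen_discrete {z.1}).preimage (continuous_fst.comp continuous_snd)).mem_nhds rfl
  have e2 : ∀ᶠ p : X × (Fin n × ℝ × ℝ) in 𝓝 (x0, z), 0 < p.2.2.1 :=
    (isOpen_lt continuous_const
      (continuous_fst.comp (continuous_snd.comp continuous_snd))).mem_nhds hz.1.1
  have e3 : ∀ᶠ p : X × (Fin n × ℝ × ℝ) in 𝓝 (x0, z), p.2.2.1 < (T p.1).len z.1 :=
    (isOpen_lt (continuous_fst.comp (continuous_snd.comp continuous_snd))
      ((fam_len hT z.1).comp continuous_fst)).mem_nhds hz.1.2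
  have e4 : ∀ᶠ p : X × (Fin n × ℝ × ℝ) in 𝓝 (x0, z),
      p.2.2.2 ∈ Ioo (-(Real.pi / 2)) (Real.pi / 2) :=
    (isOpen_Ioo.preimage
      (continuous_snd.comp (continuous_snd.comp continuous_snd))).mem_nhds hz.2
  filter_upwards [e1, e2, e3, e4] with p h1 h2 h3 h4
  refine ⟨h1, ⟨h2, ?_⟩, h4⟩
  rw [h1]
  exact h3

theorem gen_fam_proj (x0 : X) (z : Fin n × ℝ × ℝ) :
    Tendsto (fun p : X × (Fin n × ℝ × ℝ) => (p.1, p.2.2.1)) (𝓝 (x0, z)) (𝓝 (x0, z.2.1)) :=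
  (Continuous.tendsto (continuous_fst.prodMk
    (continuous_fst.comp (continuous_snd.comp continuous_snd))) (x0, z))

theorem gen_fam_deriv' (hT : ContFam T) {x0 : X} {z : Fin n × ℝ × ℝ} (hz : z ∈ (T x0).phase) :
    Tendsto (fun p : X × (Fin n × ℝ × ℝ) => deriv ((T p.1).γ p.2.1) p.2.2.1) (𝓝 (x0, z))
      (𝓝 (deriv ((T x0).γ z.1) z.2.1)) := by
  have h1 := (fam_deriv hT z.1 hz.1).comp (gen_fam_proj x0 z)
  refine h1.congr' ?_
  filter_upwards [fam_phase hT hz] with p hp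
  show deriv ((T p.1).γ z.1) p.2.2.1 = deriv ((T p.1).γ p.2.1) p.2.2.1
  rw [hp.1]

/-- Continuity of the foot point. -/
theorem fam_pt (hT : ContFam T) {x0 : X} {z : Fin n × ℝ × ℝ} (hz : z ∈ (T x0).phase) :
    Tendsto (fun p : X × (Fin n × ℝ × ℝ) => (T p.1).pt p.2) (𝓝 (x0, z)) (𝓝 ((T x0).pt z)) := by
  have h1 := (fam_gamma hT z.1 hz.1).comp (gen_fam_proj x0 z)
  refine h1.congr' ?_
  filter_upwards [fam_phase hT hz] with p hp
  show (T p.1).γ z.1 p.2.2.1 = (T p.1).γ p.2.1 p.2.2.1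
  rw [hp.1]

/-- Continuity of the velocity. -/
theorem fam_vel (hT : ContFam T) {x0 : X} {z : Fin n × ℝ × ℝ} (hz : z ∈ (T x0).phase) :
    Tendsto (fun p : X × (Fin n × ℝ × ℝ) => (T p.1).vel p.2) (𝓝 (x0, z)) (𝓝 ((T x0).vel z)) := by
  have h1 := gen_fam_deriv' hT hz
  have hθ : Continuous fun p : X × (Fin n × ℝ × ℝ) => p.2.2.2 :=
    continuous_snd.comp (continuous_snd.comp continuous_snd)
  have hc : Tendsto (fun p : X × (Fin n × ℝ × ℝ) => (Real.cos p.2.2.2 : ℂ)) (𝓝 (x0, z))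
      (𝓝 (Real.cos z.2.2 : ℂ)) :=
    (Complex.continuous_ofReal.comp (Real.continuous_cos.comp hθ)).tendsto (x0, z)
  have hs : Tendsto (fun p : X × (Fin n × ℝ × ℝ) => (Real.sin p.2.2.2 : ℂ)) (𝓝 (x0, z))
      (𝓝 (Real.sin z.2.2 : ℂ)) :=
    (Complex.continuous_ofReal.comp (Real.continuous_sin.comp hθ)).tendsto (x0, z)
  exact (hc.mul (tendsto_const_nhds.mul h1)).add (hs.mul h1)

end Table

end

end Pool.Agent.MP2e716c
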