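import Pool.Agent.H.MP_2e716c_an.Gen.Image
import Pool.Agent.H.MP_2e716c_an.Gen.Pos
import Pool.Agent.H.MP_2e716c_an.Gen.Fam

/-!
# Continuity of the family of displaced tables
-/

open Set MeasureTheory Filter Topology

namespace Pool.Agent.MP2e716c

noncomputable section

namespace Table

variable {n : ℕ} [NeZero n]

/-- Chain rule for an image: `deriv (T'.γ i) (σ r) = g' r / ‖g' r‖`, `g = Φ ∘ T.γ i`.  At the end points use
one-sided derivatives (`HasDerivAt.hasDerivWithinAt`, uniqueness `uniqueDiffOn_Icc`). -/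
theorem image_deriv {Φ : ℂ → ℂ} {T T' : Table n} {i : Fin n} {σ : ℝ → ℝ}
    (hg : ContDiff ℝ 3 fun r => Φ (T.γ i r))
    (hσ : ∀ r ∈ Icc 0 (T.len i), HasDerivAt σ ‖deriv (fun r => Φ (T.γ i r)) r‖ r ∧
      T'.γ i (σ r) = Φ (T.γ i r)) {r : ℝ} (hr : r ∈ Icc 0 (T.len i)) :
    deriv (T'.γ i) (σ r) * ‖deriv (fun r => Φ (T.γ i r)) r‖ = deriv (fun r => Φ (T.γ i r)) r := by
  have h1 : HasDerivAt (T'.γ i) (deriv (T'.γ i) (σ r)) (σ r) :=
    ((T'.smooth i).differentiable (by norm_num)).differentiableAt.hasDerivAt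
  have h2 : HasDerivWithinAt (T'.γ i ∘ σ)
      (‖deriv (fun r => Φ (T.γ i r)) r‖ • deriv (T'.γ i) (σ r)) (Icc 0 (T.len i)) r :=
    (h1.scomp r (hσ r hr).1).hasDerivWithinAt
  have h3 : HasDerivWithinAt (fun r => Φ (T.γ i r)) (deriv (fun r => Φ (T.γ i r)) r)
      (Icc 0 (T.len i)) r :=
    ((hg.differentiable (by norm_num)).differentiableAt.hasDerivAt).hasDerivWithinAt
  have h4 : HasDerivWithinAt (T'.γ i ∘ σ) (deriv (fun r => Φ (T.γ i r)) r)
      (Icc 0 (T.len i)) r :=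
    h3.congr (fun s hs => (hσ s hs).2) (hσ r hr).2
  have h5 := (uniqueDiffOn_Icc (T.len_pos i) r hr).eq_deriv _ h2 h4
  rw [Complex.real_smul, mul_comm] at h5
  exact h5

/-- Comparison of two arcs parametrised by arclength. -/
theorem gen_cont_arc {ℓ : ℝ} (hℓ : 0 < ℓ) {ε : ℝ} (hε : 0 < ε) {g0 : ℝ → ℂ}
    (hg0 : Continuous g0) (hg0' : Continuous (deriv g0)) :
    ∃ η > 0, ∀ (g : ℝ → ℂ) (σ σ0 : ℝ → ℝ) (c c0 : ℝ → ℂ),
      (∀ r ∈ Icc 0 ℓ, ‖g r - g0 r‖ < η) → (∀ r ∈ Icc 0 ℓ, ‖deriv g r - deriv g0 r‖ < η) →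
      (∀ r ∈ Icc 0 ℓ, 1 / 2 ≤ ‖deriv g r‖) → (∀ r ∈ Icc 0 ℓ, HasDerivAt σ ‖deriv g r‖ r) →
      (∀ r ∈ Icc 0 ℓ, HasDerivAt σ0 ‖deriv g0 r‖ r) → σ 0 = 0 → σ0 0 = 0 →
      (∀ r ∈ Icc 0 ℓ, c (σ r) = g r) → (∀ r ∈ Icc 0 ℓ, c0 (σ0 r) = g0 r) →
      (∀ r ∈ Icc 0 ℓ, deriv c (σ r) * ‖deriv g r‖ = deriv g r) →
      (∀ r ∈ Icc 0 ℓ, deriv c0 (σ0 r) * ‖deriv g0 r‖ = deriv g0 r) →
      (∀ s ∈ Icc 0 (σ0 ℓ), ‖deriv c0 s‖ = 1) →
      |σ ℓ - σ0 ℓ| < ε ∧ ∀ s ∈ Icc 0 (σ0 ℓ), s ≤ σ ℓ →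
        ‖c s - c0 s‖ < ε ∧ ‖deriv c s - deriv c0 s‖ < ε := by
  obtain ⟨θ1, hθ1, hu1⟩ := Metric.uniformContinuousOn_iff.1
    ((isCompact_Icc (a := (0 : ℝ)) (b := ℓ)).uniformContinuousOn_of_continuous
      hg0.continuousOn) (ε / 8) (by positivity)
  obtain ⟨θ2, hθ2, hu2⟩ := Metric.uniformContinuousOn_iff.1
    ((isCompact_Icc (a := (0 : ℝ)) (b := ℓ)).uniformContinuousOn_of_continuous
      hg0'.continuousOn) (ε / 16) (by positivity)
  refine ⟨min (ε / 16) (min (ε / (2 * ℓ)) (min (θ1 / (4 * ℓ)) (θ2 / (4 * ℓ)))),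
    by positivity, ?_⟩
  generalize hη : min (ε / 16) (min (ε / (2 * ℓ)) (min (θ1 / (4 * ℓ)) (θ2 / (4 * ℓ)))) = η
  have hη1 : η ≤ ε / 16 := by rw [← hη]; exact min_le_left _ _
  have hη2 : η ≤ ε / (2 * ℓ) := by
    rw [← hη]
    exact (min_le_right _ _).trans (min_le_left _ _)
  have hη3 : η ≤ θ1 / (4 * ℓ) := by
    rw [← hη]
    exact (min_le_right _ _).trans ((min_le_right _ _).trans (min_le_left _ _))
  have hη4 : η ≤ θ2 / (4 * ℓ) := by
    rw [← hη]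
    exact (min_le_right _ _).trans ((min_le_right _ _).trans (min_le_right _ _))
  have hη2' : η * ℓ ≤ ε / 2 := by
    calc η * ℓ ≤ ε / (2 * ℓ) * ℓ := by gcongr
      _ = ε / 2 := by field_simp
  have hη3' : 2 * (η * ℓ) ≤ θ1 / 2 := by
    calc 2 * (η * ℓ) ≤ 2 * (θ1 / (4 * ℓ) * ℓ) := by gcongr
      _ = θ1 / 2 := by field_simp; norm_num
  have hη4' : 2 * (η * ℓ) ≤ θ2 / 2 := by
    calc 2 * (η * ℓ) ≤ 2 * (θ2 / (4 * ℓ) * ℓ) := by gcongr
      _ = θ2 / 2 := by field_simp; norm_num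
  intro g σ σ0 c c0 h1 h2 h3 h4 h5 h6 h7 h8 h9 h10 h11 h12
  have hclose : ∀ r ∈ Icc 0 ℓ, |σ r - σ0 r| ≤ η * ℓ := by
    intro r hr
    have hm := (convex_Icc (0 : ℝ) ℓ).norm_image_sub_le_of_norm_hasDerivWithin_le
      (f := fun r => σ r - σ0 r) (f' := fun r => ‖deriv g r‖ - ‖deriv g0 r‖) (C := η)
      (fun x hx => ((h4 x hx).sub (h5 x hx)).hasDerivWithinAt)
      (fun x hx => by
        rw [Real.norm_eq_abs]
        exact (abs_norm_sub_norm_le _ _).trans (h2 x hx).le)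
      (left_mem_Icc.2 hℓ.le) hr
    simp only [h6, h7, sub_zero, Real.norm_eq_abs] at hm
    refine hm.trans ?_
    have hηpos : 0 ≤ η := (norm_nonneg _).trans (h2 r hr).le
    rw [abs_of_nonneg hr.1]
    exact mul_le_mul_of_nonneg_left hr.2 hηpos
  have hexp : ∀ x ∈ Icc 0 ℓ, ∀ y ∈ Icc 0 ℓ, |x - y| ≤ 2 * |σ x - σ y| := by
    have hmono : ∀ x ∈ Icc 0 ℓ, ∀ y ∈ Icc 0 ℓ, x ≤ y → 1 / 2 * (y - x) ≤ σ y - σ x := by
      refine (convex_Icc (0 : ℝ) ℓ).mul_sub_le_image_sub_of_le_deriv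
        (fun x hx => (h4 x hx).continuousAt.continuousWithinAt)
        (fun x hx => (h4 x (interior_subset hx)).differentiableAt.differentiableWithinAt)
        (fun x hx => ?_)
      rw [(h4 x (interior_subset hx)).deriv]
      exact h3 x (interior_subset hx)
    intro x hx y hy
    rcases le_total x y with hxy | hxy
    · have h := hmono x hx y hy hxy
      rw [abs_sub_comm x y, abs_sub_comm (σ x) (σ y), abs_of_nonneg (by linarith),
        abs_of_nonneg (by linarith)]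
      linarith
    · have h := hmono y hy x hx hxy
      rw [abs_of_nonneg (by linarith), abs_of_nonneg (by linarith)]
      linarith
  refine ⟨?_, ?_⟩
  · refine (hclose ℓ (right_mem_Icc.2 hℓ.le)).trans_lt ?_
    linarith
  · intro s hs hsL
    obtain ⟨r, hr, rfl⟩ := intermediate_value_Icc hℓ.le
      (fun x hx => (h4 x hx).continuousAt.continuousWithinAt)
      (show s ∈ Icc (σ 0) (σ ℓ) by rw [h6]; exact ⟨hs.1, hsL⟩)
    obtain ⟨r0, hr0, hrr⟩ := intermediate_value_Icc hℓ.le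
      (fun x hx => (h5 x hx).continuousAt.continuousWithinAt)
      (show σ r ∈ Icc (σ0 0) (σ0 ℓ) by rw [h7]; exact hs)
    have hd : |r - r0| ≤ 2 * (η * ℓ) := by
      refine (hexp r hr r0 hr0).trans ?_
      rw [← hrr, abs_sub_comm]
      linarith [hclose r0 hr0]
    have hg1 : ‖g0 r - g0 r0‖ < ε / 8 := by
      have := hu1 r hr r0 hr0 (by rw [Real.dist_eq]; linarith)
      rwa [dist_eq_norm] at this
    have hg2 : ‖deriv g0 r - deriv g0 r0‖ < ε / 16 := by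
      have := hu2 r hr r0 hr0 (by rw [Real.dist_eq]; linarith)
      rwa [dist_eq_norm] at this
    have hg3 : ‖deriv g r - deriv g0 r0‖ < ε / 8 := by
      have e1 : deriv g r - deriv g0 r0 =
          (deriv g r - deriv g0 r) + (deriv g0 r - deriv g0 r0) := by ring
      rw [e1]
      have := norm_add_le (deriv g r - deriv g0 r) (deriv g0 r - deriv g0 r0)
      linarith [h2 r hr]
    constructor
    · have e1 : c (σ r) - c0 (σ r) = (g r - g0 r) + (g0 r - g0 r0) := by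
        rw [h8 r hr, ← hrr, h9 r0 hr0]
        ring
      rw [e1]
      have := norm_add_le (g r - g0 r) (g0 r - g0 r0)
      linarith [h1 r hr]
    · have e1 : (deriv c (σ r) - deriv c0 (σ r)) * ‖deriv g r‖ =
          (deriv g r - deriv g0 r0) +
            deriv c0 (σ r) * ((‖deriv g0 r0‖ - ‖deriv g r‖ : ℝ) : ℂ) := by
        have e2 := h10 r hr
        have e3 := h11 r0 hr0
        rw [hrr] at e3
        push_cast
        rw [sub_mul, e2, mul_sub, e3]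
        ring
      have e4 : ‖deriv c (σ r) - deriv c0 (σ r)‖ * ‖deriv g r‖ ≤ 2 * ‖deriv g r - deriv g0 r0‖ := by
        have e5 : ‖(deriv c (σ r) - deriv c0 (σ r)) * ‖deriv g r‖‖ =
            ‖deriv c (σ r) - deriv c0 (σ r)‖ * ‖deriv g r‖ := by
          rw [norm_mul, Complex.norm_real, norm_norm]
        rw [← e5, e1]
        refine (norm_add_le _ _).trans ?_
        rw [norm_mul, h12 _ hs, one_mul, Complex.norm_real, Real.norm_eq_abs]
        have e6 := abs_norm_sub_norm_le (deriv g0 r0) (deriv g r)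
        rw [norm_sub_rev] at e6
        linarith
      have e7 := h3 r hr
      have e8 : ‖deriv c (σ r) - deriv c0 (σ r)‖ * (1 / 2) ≤
          ‖deriv c (σ r) - deriv c0 (σ r)‖ * ‖deriv g r‖ :=
        mul_le_mul_of_nonneg_left e7 (norm_nonneg _)
      linarith

/-- The displaced tables depend continuously on the displacement.
Proof. Fix `δ0` in the ball, `i`, `ℓ = len i`, `g_δ = shift h δ ∘ γ i`, `σ_δ` from `IsImage`.  By `shift_arc` and compactness of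
`[0, ℓ]`: for every `η > 0` and `δ` near `δ0`: `‖g_δ - g_δ0‖ < η`, `‖g_δ' - g_δ0'‖ < η` on `[0, ℓ]`; and `‖g_δ'‖ ≥ 1/2` (`hreg`).
Hence `|σ_δ - σ_δ0| ≤ η ℓ` on `[0, ℓ]` (mean value inequality, `σ 0 = 0`), in particular the lengths.  For
`s ∈ [0, len'_δ0]`, `s ≤ len'_δ` write `s = σ_δ0 r0 = σ_δ r` (`σ` continuous increasing onto): as `σ_δ' ≥ 1/2`,
`|r - r0| / 2 ≤ |σ_δ r - σ_δ r0| = |σ_δ0 r0 - σ_δ r0| ≤ η ℓ`.  So `γ'_δ s - γ'_δ0 s = g_δ r - g_δ0 r0` is small, and by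
`image_deriv` so is `g_δ' r / ‖g_δ' r‖ - g_δ0' r0 / ‖g_δ0' r0‖` (uniform continuity of `g_δ0'` on `[0, ℓ]`). -/
theorem cont_displaced (T : Table n) {h : Fin n → ℂ → ℝ} (hs : ∀ i, ContDiff ℝ (⊤ : ℕ∞) (h i))
    {ρ : ℝ} {F : Metric.ball (0 : Fin n → ℂ) ρ → Table n}
    (hreg : ∀ δ : Fin n → ℂ, ‖δ‖ < ρ → ∀ i, ∀ r ∈ Icc 0 (T.len i),
      1 / 2 ≤ ‖deriv (fun r => shift h δ (T.γ i r)) r‖)
    (hF : ∀ δ, IsImage (shift h δ.1) T (F δ)) : ContFam F := by
  intro δ0 ε hε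
  have key : ∀ i : Fin n, ∀ᶠ δ in 𝓝 δ0, |(F δ).len i - (F δ0).len i| < ε ∧
      ∀ r ∈ Icc 0 ((F δ0).len i), r ≤ (F δ).len i →
        ‖(F δ).γ i r - (F δ0).γ i r‖ < ε ∧
          ‖deriv ((F δ).γ i) r - deriv ((F δ0).γ i) r‖ < ε := by
    intro i
    obtain ⟨hsm, hd1, -, -⟩ := shift_arc hs (T.smooth i)
    have hcg : Continuous fun p : (Fin n → ℂ) × ℝ => shift h p.1 (T.γ i p.2) := by
      have hγ : Continuous (T.γ i) := (T.smooth i).continuous
      have hh : ∀ j, Continuous (h j) := fun j => (hs j).continuous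
      unfold shift
      refine (hγ.comp continuous_snd).add (continuous_finsetSum _ fun j _ => ?_)
      exact (Complex.continuous_ofReal.comp ((hh j).comp (hγ.comp continuous_snd))).mul
        ((continuous_apply j).comp continuous_fst)
    have hc0 : Continuous fun r => shift h δ0.1 (T.γ i r) := (hsm δ0.1).continuous
    have hc0' : Continuous (deriv fun r => shift h δ0.1 (T.γ i r)) :=
      (hsm δ0.1).continuous_deriv (by norm_num)
    obtain ⟨η, hη, hkey⟩ := gen_cont_arc (T.len_pos i) hε hc0 hc0'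
    have hev1 : ∀ᶠ δ : Metric.ball (0 : Fin n → ℂ) ρ in 𝓝 δ0, ∀ r ∈ Icc 0 (T.len i),
        ‖shift h δ.1 (T.γ i r) - shift h δ0.1 (T.γ i r)‖ < η := by
      refine isCompact_Icc.eventually_forall_of_forall_eventually
        (P := fun (δ : Metric.ball (0 : Fin n → ℂ) ρ) (r : ℝ) =>
          ‖shift h δ.1 (T.γ i r) - shift h δ0.1 (T.γ i r)‖ < η) fun r _ => ?_
      have hc : Continuous fun p : Metric.ball (0 : Fin n → ℂ) ρ × ℝ =>
          ‖shift h p.1.1 (T.γ i p.2) - shift h δ0.1 (T.γ i p.2)‖ :=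
        ((hcg.comp ((continuous_subtype_val.comp continuous_fst).prodMk continuous_snd)).sub
          (hc0.comp continuous_snd)).norm
      refine hc.continuousAt.eventually_lt_const ?_
      simpa using hη
    have hev2 : ∀ᶠ δ : Metric.ball (0 : Fin n → ℂ) ρ in 𝓝 δ0, ∀ r ∈ Icc 0 (T.len i),
        ‖deriv (fun r => shift h δ.1 (T.γ i r)) r -
          deriv (fun r => shift h δ0.1 (T.γ i r)) r‖ < η := by
      refine isCompact_Icc.eventually_forall_of_forall_eventually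
        (P := fun (δ : Metric.ball (0 : Fin n → ℂ) ρ) (r : ℝ) =>
          ‖deriv (fun r => shift h δ.1 (T.γ i r)) r -
            deriv (fun r => shift h δ0.1 (T.γ i r)) r‖ < η) fun r _ => ?_
      have hc : Continuous fun p : Metric.ball (0 : Fin n → ℂ) ρ × ℝ =>
          ‖deriv (fun r => shift h p.1.1 (T.γ i r)) p.2 -
            deriv (fun r => shift h δ0.1 (T.γ i r)) p.2‖ :=
        ((hd1.comp ((continuous_subtype_val.comp continuous_fst).prodMk continuous_snd)).sub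
          (hc0'.comp continuous_snd)).norm
      refine hc.continuousAt.eventually_lt_const ?_
      simpa using hη
    filter_upwards [hev1, hev2] with δ hδ1 hδ2
    obtain ⟨σ, hσ0, hσ1, hσ⟩ := (hF δ).2 i
    obtain ⟨σ0, hσ00, hσ01, hσ0'⟩ := (hF δ0).2 i
    have hres := hkey (fun r => shift h δ.1 (T.γ i r)) σ σ0 ((F δ).γ i) ((F δ0).γ i) hδ1 hδ2
      (hreg δ.1 (mem_ball_zero_iff.1 δ.2) i) (fun r hr => (hσ r hr).1) (fun r hr => (hσ0' r hr).1)
      hσ0 hσ00 (fun r hr => (hσ r hr).2) (fun r hr => (hσ0' r hr).2)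
      (fun r hr => image_deriv (hsm δ.1) hσ hr) (fun r hr => image_deriv (hsm δ0.1) hσ0' hr)
      (by rw [hσ01]; exact (F δ0).unit i)
    rw [hσ1, hσ01] at hres
    exact hres
  exact Filter.eventually_all.2 key

end Table

end

end Pool.Agent.MP2e716c
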