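import Pool.Agent.H.MP_2e716c_an.Gen.GFin

/-!
# Rational directions
-/

open Set MeasureTheory Filter Topology

namespace Pool.Agent.MP2e716c

noncomputable section

variable {n : ℕ} [NeZero n]

/-- Rational directions are dense: every unit vector is a limit of `exp (q π I)`, `q ∈ ℚ`. -/
theorem exists_rat_dir {u : ℂ} (hu : ‖u‖ = 1) {ε : ℝ} (hε : 0 < ε) :
    ∃ q : ℚ, ‖Complex.exp ((q : ℂ) * (Real.pi : ℂ) * Complex.I) - u‖ < ε := by
  have hcont : Continuous fun x : ℝ =>
      ‖Complex.exp ((x : ℂ) * (Real.pi : ℂ) * Complex.I) - u‖ := by fun_prop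
  have hopen : IsOpen {x : ℝ | ‖Complex.exp ((x : ℂ) * (Real.pi : ℂ) * Complex.I) - u‖ < ε} :=
    isOpen_lt hcont continuous_const
  have hne : {x : ℝ | ‖Complex.exp ((x : ℂ) * (Real.pi : ℂ) * Complex.I) - u‖ < ε}.Nonempty := by
    refine ⟨Complex.arg u / Real.pi, ?_⟩
    have h1 : ((Complex.arg u / Real.pi : ℝ) : ℂ) * (Real.pi : ℂ) = (Complex.arg u : ℂ) := by
      rw [← Complex.ofReal_mul, div_mul_cancel₀ _ Real.pi_ne_zero]
    have h2 := Complex.norm_mul_exp_arg_mul_I u
    rw [hu, Complex.ofReal_one, one_mul] at h2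
    show ‖Complex.exp (((Complex.arg u / Real.pi : ℝ) : ℂ) * (Real.pi : ℂ) * Complex.I) - u‖ < ε
    rw [h1, h2, sub_self, norm_zero]
    exact hε
  obtain ⟨q, hq⟩ := (Rat.denseRange_cast (𝕜 := ℝ)).exists_mem_open hopen hne
  refine ⟨q, ?_⟩
  have h3 : ‖Complex.exp (((q : ℝ) : ℂ) * (Real.pi : ℂ) * Complex.I) - u‖ < ε := hq
  rwa [Complex.ofReal_ratCast] at h3

theorem gen_rat_val_succ (a : Fin n) : (a + 1).val = (a.val + 1) % n := by
  rw [Fin.val_add, Fin.val_one', Nat.add_mod_mod]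

theorem gen_rat_val_iter (a : Fin n) (k : ℕ) :
    ((fun x : Fin n => x + 1)^[k] a).val = (a.val + k) % n := by
  induction k with
  | zero => simp [Nat.mod_eq_of_lt a.isLt]
  | succ k ih =>
    rw [Function.iterate_succ_apply', gen_rat_val_succ, ih, Nat.mod_add_mod, Nat.add_assoc]

/-- Corners can be moved slightly so that all sides outside a nonempty set `D` get rational
directions.
Proof. Let `i0 ∈ D`, `j k = i0 + 1 + k` for `k : ℕ`; define `W : ℕ → ℂ` by `W 0 = w (j 0)` and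
`W (k + 1) = w (j (k + 1))` if `j k ∈ D`, else `W (k + 1) = W k + ‖w (j k + 1) - w (j k)‖ exp (q_k π I)` with `exp (q_k π I)` close
to the direction of `w (j k + 1) - w (j k)` (`exists_rat_dir`).  `W n = w (j 0) = W 0` because `j (n - 1) = i0 ∈ D`.  So
`w' (j k) = W k`, `k < n`, is well defined with `w' (j k + 1) = W (k + 1)`, and `‖W k - w (j k)‖` is at most the sum of the errors
made so far `< ε`. -/
theorem exists_rat_corners (w : Fin n → ℂ) (hw : ∀ i, w (i + 1) ≠ w i) {D : Set (Fin n)}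
    (hD : D.Nonempty) {ε : ℝ} (hε : 0 < ε) :
    ∃ w' : Fin n → ℂ, (∀ i, ‖w' i - w i‖ < ε) ∧ ∀ i, i ∉ D → ∃ (ℓ : ℝ) (q : ℚ), 0 < ℓ ∧
      w' (i + 1) - w' i = ℓ * Complex.exp ((q : ℂ) * (Real.pi : ℂ) * Complex.I) := by
  classical
  obtain ⟨i0, hi0⟩ := hD
  have hn : 0 < n := Nat.pos_of_ne_zero (NeZero.ne n)
  set j : ℕ → Fin n := fun k => (fun x : Fin n => x + 1)^[k] (i0 + 1) with hj
  have hjs : ∀ k, j (k + 1) = j k + 1 := fun k => by
    rw [hj]
    exact Function.iterate_succ_apply' _ _ _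
  have hjv : ∀ k, (j k).val = (i0.val + 1 + k) % n := fun k => by
    rw [hj]
    show ((fun x : Fin n => x + 1)^[k] (i0 + 1)).val = _
    rw [gen_rat_val_iter, gen_rat_val_succ, Nat.mod_add_mod]
  have hsurj : ∀ i : Fin n, ∃ k, k < n ∧ j k = i := by
    intro i
    refine ⟨(i.val + (n - (i0.val + 1) % n)) % n, Nat.mod_lt _ hn, Fin.ext ?_⟩
    rw [hjv, Nat.add_mod_mod]
    have h1 : (i0.val + 1) % n < n := Nat.mod_lt _ hn
    have h2 : i0.val + 1 = n * ((i0.val + 1) / n) + (i0.val + 1) % n :=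
      (Nat.div_add_mod _ _).symm
    have h3 : i0.val + 1 + (i.val + (n - (i0.val + 1) % n)) =
        i.val + n * ((i0.val + 1) / n + 1) := by
      have h4 : n * ((i0.val + 1) / n + 1) = n * ((i0.val + 1) / n) + n := by ring
      omega
    rw [h3, Nat.add_mul_mod_self_left, Nat.mod_eq_of_lt i.isLt]
  have hinj : ∀ k k', k < n → k' < n → j k = j k' → k = k' := by
    intro k k' hk hk' h
    have h1 : (i0.val + 1 + k) % n = (i0.val + 1 + k') % n := by
      rw [← hjv, ← hjv, h]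
    have h2 : k ≡ k' [MOD n] := Nat.ModEq.add_left_cancel' (i0.val + 1) h1
    exact Nat.ModEq.eq_of_lt_of_lt h2 hk hk'
  have hδ : 0 < ε / (n + 1) := by positivity
  have hL : ∀ k, 0 < ‖w (j (k + 1)) - w (j k)‖ := fun k => by
    rw [norm_pos_iff, sub_ne_zero, hjs]
    exact hw _
  have hq : ∀ k, ∃ q : ℚ, ‖Complex.exp ((q : ℂ) * (Real.pi : ℂ) * Complex.I) -
      (w (j (k + 1)) - w (j k)) / (‖w (j (k + 1)) - w (j k)‖ : ℂ)‖ <
        ε / (n + 1) / ‖w (j (k + 1)) - w (j k)‖ := fun k => by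
    refine exists_rat_dir ?_ (div_pos hδ (hL k))
    rw [norm_div, Complex.norm_real, norm_norm, div_self (hL k).ne']
  choose q hq using hq
  let W : ℕ → ℂ := fun k => Nat.rec (w (j 0)) (fun k z => if j k ∈ D then w (j (k + 1)) else
    z + ‖w (j (k + 1)) - w (j k)‖ * Complex.exp ((q k : ℂ) * (Real.pi : ℂ) * Complex.I)) k
  have hW0 : W 0 = w (j 0) := rfl
  have hWs : ∀ k, W (k + 1) = if j k ∈ D then w (j (k + 1)) else
      W k + ‖w (j (k + 1)) - w (j k)‖ * Complex.exp ((q k : ℂ) * (Real.pi : ℂ) * Complex.I) :=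
    fun k => rfl
  have hb : ∀ k : ℕ, ‖W k - w (j k)‖ ≤ k * (ε / (n + 1)) := by
    intro k
    induction k with
    | zero => simp [hW0]
    | succ k ih =>
      rw [hWs]
      split_ifs with h
      · rw [sub_self, norm_zero]
        positivity
      · have e : W k + ‖w (j (k + 1)) - w (j k)‖ *
            Complex.exp ((q k : ℂ) * (Real.pi : ℂ) * Complex.I) - w (j (k + 1)) =
            (W k - w (j k)) + ‖w (j (k + 1)) - w (j k)‖ *
              (Complex.exp ((q k : ℂ) * (Real.pi : ℂ) * Complex.I) -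
                (w (j (k + 1)) - w (j k)) / (‖w (j (k + 1)) - w (j k)‖ : ℂ)) := by
          have h0 : (‖w (j (k + 1)) - w (j k)‖ : ℂ) ≠ 0 := by
            exact_mod_cast (hL k).ne'
          rw [mul_sub, mul_div_cancel₀ _ h0]
          ring
        rw [e]
        have h1 : ‖(‖w (j (k + 1)) - w (j k)‖ : ℂ) *
              (Complex.exp ((q k : ℂ) * (Real.pi : ℂ) * Complex.I) -
                (w (j (k + 1)) - w (j k)) / (‖w (j (k + 1)) - w (j k)‖ : ℂ))‖ ≤ ε / (n + 1) := by
          rw [norm_mul, Complex.norm_real, norm_norm]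
          have h2 := (hq k).le
          rw [le_div_iff₀ (hL k)] at h2
          linarith [mul_comm ‖w (j (k + 1)) - w (j k)‖
            ‖Complex.exp ((q k : ℂ) * (Real.pi : ℂ) * Complex.I) -
                (w (j (k + 1)) - w (j k)) / (‖w (j (k + 1)) - w (j k)‖ : ℂ)‖]
        refine (norm_add_le _ _).trans ?_
        push_cast
        linarith
  choose κ hκ using hsurj
  refine ⟨fun i => W (κ i), fun i => ?_, fun i hi => ?_⟩
  · have h1 := hb (κ i)
    rw [(hκ i).2] at h1
    have h2 : (κ i : ℝ) < n + 1 := by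
      have : (κ i : ℝ) < n := by exact_mod_cast (hκ i).1
      linarith
    refine lt_of_le_of_lt h1 ?_
    rw [← mul_div_assoc, div_lt_iff₀ (by positivity)]
    nlinarith
  · have hκn : κ i + 1 < n := by
      by_contra hcon
      have h1 : κ i + 1 = n := by have := (hκ i).1; omega
      apply hi
      have h2 : j (κ i) = i0 := by
        refine Fin.ext ?_
        rw [hjv]
        have h3 : i0.val + 1 + κ i = i0.val + n := by omega
        rw [h3, Nat.add_mod_right, Nat.mod_eq_of_lt i0.isLt]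
      rw [← (hκ i).2, h2]
      exact hi0
    have h4 : κ (i + 1) = κ i + 1 := by
      refine hinj _ _ (hκ (i + 1)).1 hκn ?_
      rw [(hκ (i + 1)).2, hjs, (hκ i).2]
    refine ⟨‖w (j (κ i + 1)) - w (j (κ i))‖, q (κ i), hL _, ?_⟩
    show W (κ (i + 1)) - W (κ i) = _
    rw [h4, hWs, if_neg (by rw [(hκ i).2]; exact hi)]
    ring

/-- A table whose neutral sides have rational directions satisfies `Crit`.
Proof. `deriv (P.γ i) 0 = (P.γ (i+1) 0 - P.γ i 0) / len i = exp (q_i π I)` (`straight_eq`, `corner_next`, unit vectors), so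
`Rational S` with `q = q_j - q_i` for `S` disjoint from `disp`. -/
theorem SemiDisp.crit_of_rat (T : SemiDisp n) (h : ∀ i, i ∉ T.disp → ∃ (ℓ : ℝ) (q : ℚ), 0 < ℓ ∧
      T.P.γ (i + 1) 0 - T.P.γ i 0 = ℓ * Complex.exp ((q : ℂ) * (Real.pi : ℂ) * Complex.I)) :
    T.Crit := by
  intro S _ hS
  refine Or.inr (Or.inl ?_)
  have key : ∀ i ∈ S, ∃ q : ℚ, deriv (T.P.γ i) 0 =
      Complex.exp ((q : ℂ) * (Real.pi : ℂ) * Complex.I) := by
    intro i hi
    obtain ⟨ℓ, q, hℓ, he⟩ := h i fun h' => Set.disjoint_left.1 hS hi h'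
    refine ⟨q, ?_⟩
    have h1 := T.P.closed i
    obtain ⟨p, u, hpu⟩ := T.straight i
    have h2 : deriv (T.P.γ i) 0 = u := by
      have h3 : T.P.γ i = fun r : ℝ => p + r * u := by
        funext r
        exact hpu r
      rw [h3]
      have : HasDerivAt (fun r : ℝ => p + (r : ℂ) * u) (1 * u) 0 :=
        ((Complex.ofRealCLM.hasDerivAt (x := (0 : ℝ))).mul_const u).const_add p
      rw [this.deriv, one_mul]
    have hL := T.P.len_pos i
    have h4 : (T.P.len i : ℂ) * u =
        ℓ * Complex.exp ((q : ℂ) * (Real.pi : ℂ) * Complex.I) := by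
      rw [← he, ← h1, hpu, hpu]
      push_cast
      ring
    have hu : ‖u‖ = 1 := by
      rw [← h2]
      exact T.P.unit i 0 ⟨le_rfl, hL.le⟩
    have hexp : ‖Complex.exp ((q : ℂ) * (Real.pi : ℂ) * Complex.I)‖ = 1 := by
      have e : (q : ℂ) * (Real.pi : ℂ) * Complex.I = (((q : ℝ) * Real.pi : ℝ) : ℂ) * Complex.I := by
        push_cast
        ring
      rw [e]
      exact Complex.norm_exp_ofReal_mul_I _
    have h5 : T.P.len i = ℓ := by
      have h6 := congrArg norm h4
      rw [norm_mul, norm_mul, hu, hexp, Complex.norm_real, Complex.norm_real,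
        Real.norm_of_nonneg hL.le, Real.norm_of_nonneg hℓ.le, mul_one, mul_one] at h6
      exact h6
    rw [h5] at h4
    rw [h2]
    exact mul_left_cancel₀ (by exact_mod_cast hℓ.ne') h4
  intro i hi j hj
  obtain ⟨q1, h1⟩ := key i hi
  obtain ⟨q2, h2⟩ := key j hj
  refine ⟨q2 - q1, ?_⟩
  rw [h1, h2, ← Complex.exp_add]
  congr 1
  push_cast
  ring

end

end Pool.Agent.MP2e716c
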