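import Pool.Agent.H.MP_2e716c_an.Gen.Build2
import Pool.Agent.H.MP_2e716c_an.Gen.Cont
import Pool.Agent.H.MP_2e716c_an.Gen.Rat

/-!
# Generic displacements of a semi-dispersive table are hyperbolic
-/

open Set MeasureTheory Filter Topology

namespace Pool.Agent.MP2e716c

noncomputable section

namespace SemiDisp

variable {n : ℕ} [NeZero n]

theorem gen_fin2_corner (P : Table n) (hP : P.Straight) (i : Fin n) :
    P.γ (i + 1) 0 ≠ P.γ i 0 := by
  intro h
  have h1 : P.γ i (P.len i) = P.γ i 0 := by rw [P.closed i, h]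
  rw [P.straight_eq hP i (P.len i)] at h1
  have h2 : (P.len i : ℂ) * P.dir i = 0 := by simpa using h1
  rcases mul_eq_zero.1 h2 with h3 | h3
  · exact (P.len_pos i).ne' (by exact_mod_cast h3)
  · have := P.dir_norm i
    rw [h3, norm_zero] at this
    exact one_ne_zero this.symm

/-- The generic displacement theorem.
Proof. `exists_displaced` (and `shift_curved` for the regularity in `cont_displaced`; take the minimum of the
radii), choose the tables `F δ`.  `cont_displaced` gives `ContFam`; `isGδ_hits`: `G = {δ | (F δ).Hits}` is a `G_δ`; it is dense: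
for `δ0` in the ball and `ε > 0` apply `exists_rat_corners` to the corners `w i = T.P.γ i 0 + δ0 i` of `(F δ0).P` (different
neighbours: `(F δ0).P.len i > 0`, `straight_eq`) and `δ i = w' i - T.P.γ i 0`, which is in the ball and near `δ0`;
`crit_of_rat`, `hits_of_crit`.  A dense `G_δ` is residual (`residual_of_dense_Gδ`), `hyperbolic_of_hits`. -/
theorem generic_displacement (T : SemiDisp n) {h : Fin n → ℂ → ℝ}
    (hs : ∀ i, ContDiff ℝ (⊤ : ℕ∞) (h i)) (hk : ∀ i, HasCompactSupport (h i)) (hh : T.P.IsHat h) :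
    ∃ ρ > 0, ∃ F : Metric.ball (0 : Fin n → ℂ) ρ → SemiDisp n,
        (∀ δ, (F δ).disp = T.disp ∧ Table.IsImage (shift h δ.1) T.Y (F δ).Y ∧
          Table.IsImage (shift h δ.1) T.P (F δ).P) ∧
        Table.ContFam (fun δ => (F δ).Y) ∧
        ∀ᶠ δ in residual (Metric.ball (0 : Fin n → ℂ) ρ), (F δ).Y.Hyperbolic := by
  obtain ⟨ρ1, hρ1, H1⟩ := T.exists_displaced hs hk hh
  obtain ⟨ρ2, hρ2, H2⟩ := shift_curved T hs
  refine ⟨min ρ1 ρ2, lt_min hρ1 hρ2, ?_⟩
  set ρ := min ρ1 ρ2 with hρ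
  have hρ0 : 0 < ρ := lt_min hρ1 hρ2
  have hex : ∀ δ : Metric.ball (0 : Fin n → ℂ) ρ, ∃ T' : SemiDisp n, T'.disp = T.disp ∧
      Table.IsImage (shift h δ.1) T.Y T'.Y ∧ Table.IsImage (shift h δ.1) T.P T'.P ∧
      ∀ k, T'.P.γ k 0 = T.P.γ k 0 + δ.1 k := by
    intro δ
    refine H1 δ.1 ?_
    have := mem_ball_zero_iff.1 δ.2
    exact lt_of_lt_of_le this (min_le_left _ _)
  choose F hF1 hF2 hF3 hF4 using hex
  have hcont : Table.ContFam (fun δ => (F δ).Y) := by
    refine Table.cont_displaced T.Y hs (ρ := ρ) ?_ hF2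
    intro δ hδ
    exact (H2 δ (lt_of_lt_of_le hδ (min_le_right _ _))).1
  refine ⟨F, fun δ => ⟨hF1 δ, hF2 δ, hF3 δ⟩, hcont, ?_⟩
  have hG := isGδ_hits (T := F) hcont
  have hD : Dense {δ | (F δ).Hits} := by
    intro δ0
    rw [Metric.mem_closure_iff]
    intro ε hε
    have hδ0 : ‖δ0.1‖ < ρ := mem_ball_zero_iff.1 δ0.2
    set η := min ε (ρ - ‖δ0.1‖) / 2 with hη
    have hη0 : 0 < η := by
      have : 0 < ρ - ‖δ0.1‖ := by linarith
      positivity
    have hηε : η < ε := by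
      have h1 : min ε (ρ - ‖δ0.1‖) ≤ ε := min_le_left _ _
      have h2 : 0 < min ε (ρ - ‖δ0.1‖) := by linarith
      linarith
    have hηρ : η < ρ - ‖δ0.1‖ := by
      have h1 : min ε (ρ - ‖δ0.1‖) ≤ ρ - ‖δ0.1‖ := min_le_right _ _
      have h2 : 0 < min ε (ρ - ‖δ0.1‖) := by linarith
      linarith
    obtain ⟨w', hw1, hw2⟩ := exists_rat_corners (fun i => (F δ0).P.γ i 0)
      (fun i => gen_fin2_corner _ (F δ0).straight i) (D := T.disp) T.disp_nonempty hη0
    set δ : Fin n → ℂ := fun i => w' i - T.P.γ i 0 with hδ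
    have hd : ‖δ - δ0.1‖ ≤ η := by
      rw [pi_norm_le_iff_of_nonneg hη0.le]
      intro i
      have h1 := (hw1 i).le
      simp only [hF4] at h1
      have h2 : (δ - δ0.1) i = w' i - (T.P.γ i 0 + δ0.1 i) := by
        simp only [hδ, Pi.sub_apply]; ring
      rw [h2]
      exact h1
    have hδρ : ‖δ‖ < ρ := by
      have h1 : ‖δ‖ ≤ ‖δ - δ0.1‖ + ‖δ0.1‖ := by
        have := norm_add_le (δ - δ0.1) δ0.1
        rwa [sub_add_cancel] at this
      linarith
    refine ⟨⟨δ, mem_ball_zero_iff.2 hδρ⟩, ?_, ?_⟩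
    · refine hits_of_crit _ (crit_of_rat _ ?_)
      intro i hi
      rw [hF1] at hi
      obtain ⟨ℓ, q, hℓ, hq⟩ := hw2 i hi
      refine ⟨ℓ, q, hℓ, ?_⟩
      rw [← hq, hF4, hF4]
      simp only [hδ]
      ring
    · rw [dist_comm, Subtype.dist_eq, dist_eq_norm]
      exact lt_of_le_of_lt hd hηε
  filter_upwards [residual_of_dense_Gδ hG hD] with δ hδ
  exact hyperbolic_of_hits _ hδ

end SemiDisp

end

end Pool.Agent.MP2e716c
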