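import Pool.Agent.H.MP_2e716c_an.Gen.Semi

/-!
# Generic hyperbolicity in families of semi-dispersive tables
-/

open Set MeasureTheory Filter Topology

namespace Pool.Agent.MP2e716c

noncomputable section

namespace SemiDisp

variable {n : ℕ} [NeZero n]

/-- The sufficient condition of the hand-in `Hyperbolic`. -/
def Crit (T : SemiDisp n) : Prop :=
  ∀ S : Set (Fin n), S.Nonempty → Disjoint S T.disp →
    T.P.Unloaded S ∨ T.P.Rational S ∨ T.Y.Separated S

/-- Almost every orbit meets a dispersive arc. -/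
def Hits (T : SemiDisp n) : Prop :=
  lam n (T.Y.phase \ ⋃ N, T.Y.hits T.disp N) = 0

/-- `Crit` implies that almost every orbit meets a dispersive arc.
Proof. `ae_frequently` as in `hyperbolic_of_sets`, `ae_orbit`, `mem_hits`, `lam_null_iff`. -/
theorem hits_of_crit (T : SemiDisp n) (h : T.Crit) : T.Hits := by
  have h0 : ∀ᵐ z ∂T.Y.μ, ∃ᶠ k : ℕ in atTop, (T.Y.bmap^[k] z).1 ∈ T.disp := by
    refine T.Y.ae_frequently T.disp ?_
    intro S hne hS
    rcases h S hne hS with hu | hr | hsep
    · refine T.Y.AS_null_of_unloaded ?_ (T.unloaded_Y hS hu)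
      intro i hi
      have hi' : i ∉ T.disp := fun h' => (Set.disjoint_left.1 hS hi) h'
      rw [(T.neutral i hi').2]
      exact T.straight i
    · exact T.AS_null_of_rational hS hr
    · exact T.AS_null_of_separated hS hsep
  have h1 : ∀ᵐ z ∂T.Y.μ, z ∉ T.Y.phase \ ⋃ N, T.Y.hits T.disp N := by
    filter_upwards [h0, T.Y.ae_orbit] with z hz horb hmem
    obtain ⟨k, hk⟩ := hz.exists
    exact hmem.2 (mem_iUnion.2 ⟨k, T.Y.mem_hits T.disp horb hk⟩)
  have h2 := T.Y.lam_null_iff.1 h1
  rwa [inter_eq_left.2 sdiff_subset] at h2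

/-- If almost every orbit meets a dispersive arc then the table is hyperbolic.
Proof. By `lam_null_iff`, `μ`-a.e. `z` is in `⋃ hits`; as `bmap` preserves `μ`, for a.e. `z` this holds for all
`bmap^[k] z` (and `ae_orbit`), so `(bmap^[m] z).1 ∈ disp` for some `m ≥ k` (`exists_of_hits`), i.e. frequently; then
`hyperbolic_of_frequently` as in `hyperbolic_of_sets`. -/
theorem hyperbolic_of_hits (T : SemiDisp n) (h : T.Hits) : T.Y.Hyperbolic := by
  refine T.Y.hyperbolic_of_frequently T.disp ?_ T.curved ?_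
  · intro i r hr
    by_cases hi : i ∈ T.disp
    · exact (T.curved i hi r hr).le
    · rw [T.curv_neutral hi]
  · have h1 : ∀ᵐ z ∂T.Y.μ, z ∉ T.Y.phase \ ⋃ N, T.Y.hits T.disp N := by
      refine T.Y.lam_null_iff.2 ?_
      rw [inter_eq_left.2 sdiff_subset]
      exact h
    have h2 : ∀ᵐ z ∂T.Y.μ, z ∈ ⋃ N, T.Y.hits T.disp N := by
      filter_upwards [h1, T.Y.ae_orbit] with z hz horb
      by_contra hcon
      exact hz ⟨(horb 0).1, hcon⟩
    have h3 : ∀ᵐ z ∂T.Y.μ, ∀ k : ℕ, T.Y.bmap^[k] z ∈ ⋃ N, T.Y.hits T.disp N := by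
      rw [ae_all_iff]
      intro k
      exact (T.Y.measurePreserving_bmap.iterate k).quasiMeasurePreserving.ae h2
    filter_upwards [h3] with z hz
    rw [frequently_atTop]
    intro k
    obtain ⟨N, hN⟩ := mem_iUnion.1 (hz k)
    obtain ⟨m, -, hm⟩ := T.Y.exists_of_hits T.disp hN
    rw [← Function.iterate_add_apply] at hm
    exact ⟨m + k, by omega, hm⟩

variable {X : Type*} [TopologicalSpace X] {T : X → SemiDisp n}

/-- Dispersive arcs stay dispersive: a `C¹` limit of straight arcs is straight.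
Proof. Let `i ∈ disp_{x0}`.  On `[0, len]` the curvature of `γ = γ_{x0} i` is positive, so the unit tangent is
not constant: `deriv γ 0 ≠ deriv γ r1` for some `r1 ∈ (0, len)` (if it were constant then the second
derivative would vanish on `(0, len)` and so would `curv`).  Let `δ = ‖deriv γ 0 - deriv γ r1‖ > 0`.  For `x` near
`x0`, `Close (min (δ/2) (len - r1)) ..` gives `‖deriv γ_x 0 - deriv γ_x r1‖ > 0`, and if `i ∉ disp_x` then
`γ_x i = (T x).P.γ i` is straight with constant derivative, contradiction. -/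
theorem disp_eventually (hT : Table.ContFam fun x => (T x).Y) (x0 : X) :
    ∀ᶠ x in 𝓝 x0, (T x0).disp ⊆ (T x).disp := by
  have key : ∀ i : Fin n, ∀ᶠ x in 𝓝 x0, i ∈ (T x0).disp → i ∈ (T x).disp := by
    intro i
    by_cases hi : i ∈ (T x0).disp
    swap
    · exact Eventually.of_forall fun x hx => absurd hx hi
    have hL := (T x0).Y.len_pos i
    obtain ⟨r1, hr1, hne⟩ : ∃ r1 ∈ Ioo 0 ((T x0).Y.len i),
        deriv ((T x0).Y.γ i) 0 ≠ deriv ((T x0).Y.γ i) r1 := by
      by_contra hcon
      push Not at hcon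
      have hmid : (T x0).Y.len i / 2 ∈ Ioo 0 ((T x0).Y.len i) := ⟨by linarith, by linarith⟩
      have hev : deriv ((T x0).Y.γ i) =ᶠ[𝓝 ((T x0).Y.len i / 2)]
          fun _ => deriv ((T x0).Y.γ i) 0 := by
        filter_upwards [isOpen_Ioo.mem_nhds hmid] with r hr
        exact (hcon r hr).symm
      have hd : deriv (deriv ((T x0).Y.γ i)) ((T x0).Y.len i / 2) = 0 := by
        rw [hev.deriv_eq]
        exact deriv_const _ _
      have hc := (T x0).curved i hi _ (Ioo_subset_Icc_self hmid)
      rw [Table.curv, hd] at hc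
      simp [ip] at hc
    have hδ : 0 < ‖deriv ((T x0).Y.γ i) 0 - deriv ((T x0).Y.γ i) r1‖ :=
      norm_pos_iff.2 (sub_ne_zero.2 hne)
    have hε : 0 < min (‖deriv ((T x0).Y.γ i) 0 - deriv ((T x0).Y.γ i) r1‖ / 2)
        ((T x0).Y.len i - r1) := lt_min (by linarith) (by linarith [hr1.2])
    filter_upwards [hT x0 _ hε] with x hx _
    by_contra hnd
    obtain ⟨hlen, hcl⟩ := hx i
    have hLx := (T x).Y.len_pos i
    have hl1 : r1 ≤ (T x).Y.len i := by
      have h1 := (abs_lt.1 (hlen.trans_le (min_le_right _ _))).1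
      linarith
    have hc0 := (hcl 0 ⟨le_rfl, hL.le⟩ hLx.le).2.trans_le (min_le_left _ _)
    have hc1 := (hcl r1 ⟨hr1.1.le, hr1.2.le⟩ hl1).2.trans_le (min_le_left _ _)
    have hst : deriv ((T x).Y.γ i) 0 = deriv ((T x).Y.γ i) r1 := by
      obtain ⟨p, u, hpu⟩ := (T x).straight i
      have h1 : (T x).Y.γ i = fun r : ℝ => p + r * u := by
        rw [((T x).neutral i hnd).2]
        funext r
        exact hpu r
      have h2 : deriv ((T x).Y.γ i) = fun _ => u := by
        rw [h1]
        funext r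
        have : HasDerivAt (fun r : ℝ => p + (r : ℂ) * u) (1 * u) r :=
          ((Complex.ofRealCLM.hasDerivAt (x := r)).mul_const u).const_add p
        rw [this.deriv, one_mul]
      rw [h2]
    rw [hst] at hc0
    have h3 : ‖deriv ((T x0).Y.γ i) 0 - deriv ((T x0).Y.γ i) r1‖ ≤
        ‖deriv ((T x).Y.γ i) r1 - deriv ((T x0).Y.γ i) 0‖ +
          ‖deriv ((T x).Y.γ i) r1 - deriv ((T x0).Y.γ i) r1‖ := by
      rw [← norm_neg (deriv ((T x).Y.γ i) r1 - deriv ((T x0).Y.γ i) 0)]
      refine le_trans (le_of_eq ?_) (norm_add_le _ _)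
      congr 1
      ring
    linarith
  have hall := eventually_all.2 key
  filter_upwards [hall] with x hx i hi
  exact hx i hi

/-- The set of parameters with `Hits` is a `G_δ`.
Proof. `U m N = {x | lam (phase_x \ hits_x disp_x N) < 1/(m+1)}` contains with `x0` all `x` near `x0`: `fam_semi` for
`D = disp_{x0}`, `disp_eventually` and `hits_mono_set`.  So it is open, and by `lam_hits_iff` the set is
`⋂ m, ⋃ N, U m N`. -/
theorem isGδ_hits (hT : Table.ContFam fun x => (T x).Y) : IsGδ {x | (T x).Hits} := by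
  have hset : {x | (T x).Hits} = ⋂ m : ℕ, ⋃ N : ℕ,
      {x | lam n ((T x).Y.phase \ (T x).Y.hits (T x).disp N) <
        ENNReal.ofReal (1 / ((m : ℝ) + 1))} := by
    ext x
    simp only [mem_iInter, mem_iUnion]
    exact (T x).Y.lam_hits_iff (T x).disp
  rw [hset]
  refine IsGδ.iInter_of_isOpen fun m => isOpen_iUnion fun N => ?_
  rw [isOpen_iff_mem_nhds]
  intro x0 hx0
  filter_upwards [Table.fam_semi hT (T x0).disp hx0, disp_eventually hT x0] with x hx hd
  refine lt_of_le_of_lt (measure_mono ?_) hx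
  exact sdiff_subset_sdiff_right ((T x).Y.hits_mono_set hd N)

end SemiDisp

end

end Pool.Agent.MP2e716c
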