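import Pool.Agent.H.MP_2e716c_an.Final

/-!
# Hat functions of a polygon without straight corners
-/

open Set MeasureTheory Filter Topology

namespace Pool.Agent.MP2e716c

noncomputable section

/-- The displacement `x ↦ x + ∑ i, h i x • δ i` of the plane. -/
def shift {n : ℕ} (h : Fin n → ℂ → ℝ) (δ : Fin n → ℂ) (x : ℂ) : ℂ := x + ∑ i, (h i x : ℂ) * δ i

namespace Table

variable {n : ℕ} [NeZero n]

/-- `h i` is affine along every side, `1` at the corner `i` and `0` at the other corners. -/
def IsHat (P : Table n) (h : Fin n → ℂ → ℝ) : Prop :=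
  ∀ i k, ∀ r ∈ Icc 0 (P.len k), h i (P.γ k r) =
    (if k = i then 1 - r / P.len k else 0) + (if k + 1 = i then r / P.len k else 0)

/-- slope of the hat function `i` along the side `k` -/
def gen_hat_sl (P : Table n) (i k : Fin n) : ℝ :=
  (if k = i then -(1 / P.len k) else 0) + (if k + 1 = i then 1 / P.len k else 0)

theorem gen_hat_val (P : Table n) (i k : Fin n) (r : ℝ) :
    (if k = i then 1 - r / P.len k else 0) + (if k + 1 = i then r / P.len k else 0) =
      (if k = i then 1 else 0) + gen_hat_sl P i k * r := by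
  unfold gen_hat_sl
  split_ifs <;> ring

theorem gen_hat_end (P : Table n) (i k : Fin n) :
    (if k = i then (1 : ℝ) else 0) + gen_hat_sl P i k * P.len k = if k + 1 = i then 1 else 0 := by
  have h := P.len_pos k
  unfold gen_hat_sl
  split_ifs <;> field_simp <;> ring

/-- The directions of consecutive sides are linearly independent: there is a real linear functional
with prescribed values `a`, `b` on `deriv (P.γ k) 0` and `deriv (P.γ (k + 1)) 0`.
Proof. Both are unit vectors, different (`hc`) and not opposite: if `u_(k+1) = -u_k` then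
`γ (k+1) s = v + s u_(k+1) = v - s u_k = γ k (len k - s)` for small `s > 0` contradicts `inj`
(`straight_eq`, `corner_next`).  So `det = ip u_(k+1) (I u_k) ≠ 0` (if `ip u' (I u) = 0` with unit `u, u'` then
`u' = ± u` by `ip_decomp`); solve the linear system `ip · w` with `w = α (I u_k) + β (I u_(k+1))`. -/
theorem exists_functional (P : Table n) (hP : P.Straight)
    (hc : ∀ i, deriv (P.γ (i + 1)) 0 ≠ deriv (P.γ i) 0) (k : Fin n) (a b : ℝ) :
    ∃ w : ℂ, ip (deriv (P.γ k) 0) w = a ∧ ip (deriv (P.γ (k + 1)) 0) w = b := by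
  set u : ℂ := deriv (P.γ k) 0 with hu
  set u' : ℂ := deriv (P.γ (k + 1)) 0 with hu'
  have hun : ‖u‖ = 1 := dir_norm (T := P) k
  have hun' : ‖u'‖ = 1 := dir_norm (T := P) (k + 1)
  have hd : ip u' (Complex.I * u) ≠ 0 := by
    intro h0
    have h1 := ip_decomp u' u hun
    rw [h0, Complex.ofReal_zero, zero_mul, add_zero] at h1
    have h2 : |ip u' u| = 1 := by
      have h3 : ‖u'‖ = ‖((ip u' u : ℝ) : ℂ) * u‖ := congrArg norm h1
      rw [norm_mul, hun, hun', mul_one, Complex.norm_real, Real.norm_eq_abs] at h3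
      exact h3.symm
    rcases eq_or_eq_neg_of_abs_eq h2 with h3 | h3
    · rw [h3, Complex.ofReal_one, one_mul] at h1
      exact hc k h1
    · rw [h3, Complex.ofReal_neg, Complex.ofReal_one, neg_one_mul] at h1
      have hl := P.len_pos k
      have hl' := P.len_pos (k + 1)
      set m : ℝ := min (P.len k) (P.len (k + 1)) with hm
      have hm0 : 0 < m := lt_min hl hl'
      have hm1 : m ≤ P.len k := min_le_left _ _
      have hm2 : m ≤ P.len (k + 1) := min_le_right _ _
      have h4 : P.γ (k + 1) (m / 3) = P.γ k (P.len k - m / 3) := by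
        have e1 : P.dir (k + 1) = -u := h1
        have e2 : P.dir k = u := rfl
        rw [straight_eq hP (k + 1), straight_eq hP k (P.len k - m / 3), corner_next hP, e1, e2]
        push_cast
        ring
      have h5 := P.inj (k + 1) k (m / 3) (P.len k - m / 3)
        ⟨by linarith, by linarith⟩ ⟨by linarith, by linarith⟩ h4
      linarith [h5.2]
  have hd' : ip u (Complex.I * u') = -ip u' (Complex.I * u) := by
    rw [ip_I_mul_right, ip_comm]
  refine ⟨((b / ip u' (Complex.I * u) : ℝ) : ℂ) * (Complex.I * u) +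
    ((-(a / ip u' (Complex.I * u)) : ℝ) : ℂ) * (Complex.I * u'), ?_, ?_⟩
  · rw [ip_add_right, ip_rmul_right, ip_rmul_right, ip_I_self, hd']
    field_simp
    ring
  · rw [ip_add_right, ip_rmul_right, ip_rmul_right, ip_I_self]
    field_simp
    ring

/-- Local solutions near a frontier point.
Proof. `x = γ k r`, `r ∈ [0, len k]`.  Interior case `r ∈ (0, len k)`: `x` has a neighbourhood `U` which meets
the frontier only in `γ k '' (0, len k)` (the other sides and the two ends are compact sets not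
containing `x`, `inj`, `closed`); take `g y = A + ip (y - γ k 0) w` with `w = B u_k` where `A`, `B` are such that
`A + B r` is the prescribed affine function on side `k`.  Corner case `x = γ (k+1) 0 = γ k (len k)`
(every corner has this form): `U` meets the frontier only in the sides `k` and `k + 1`, and
`g y = A + ip (y - x) w`, `A` = value at the corner, `w` from `exists_functional` with the two slopes. -/
theorem hat_local (P : Table n) (hP : P.Straight)
    (hc : ∀ i, deriv (P.γ (i + 1)) 0 ≠ deriv (P.γ i) 0) (i : Fin n) {x : ℂ}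
    (hx : x ∈ frontier P.region) :
    ∃ U ∈ 𝓝 x, ∃ A : ℝ, ∃ w : ℂ, ∀ k, ∀ r ∈ Icc 0 (P.len k), P.γ k r ∈ U →
      A + ip (P.γ k r) w =
        (if k = i then 1 - r / P.len k else 0) + (if k + 1 = i then r / P.len k else 0) := by
  classical
  obtain ⟨k, r, hr0, hr1, rfl⟩ : ∃ (k : Fin n) (r : ℝ), 0 < r ∧ r ≤ P.len k ∧ P.γ k r = x := by
    rw [P.frontier_eq] at hx
    obtain ⟨k, r, hr, rfl⟩ := mem_iUnion.1 hx
    rcases hr.1.eq_or_lt with h0 | h0
    · refine ⟨k - 1, P.len (k - 1), P.len_pos _, le_rfl, ?_⟩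
      rw [P.closed, sub_add_cancel, ← h0]
    · exact ⟨k, r, h0, hr.2, rfl⟩
  have hcpt : ∀ k', IsClosed (P.γ k' '' Icc 0 (P.len k')) := fun k' =>
    (isCompact_Icc.image (P.smooth k').continuous).isClosed
  rcases hr1.lt_or_eq with hr2 | hr2
  · -- interior point of the side `k`
    set U : Set ℂ := (⋃ k' ∈ (Finset.univ.filter (fun k' : Fin n => k' ≠ k) : Finset (Fin n)),
      P.γ k' '' Icc 0 (P.len k'))ᶜ with hU
    have hUo : IsOpen U := by
      rw [hU]
      exact (isClosed_biUnion_finset fun k' _ => hcpt k').isOpen_compl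
    have hxU : P.γ k r ∈ U := by
      rw [hU, mem_compl_iff]
      intro h
      obtain ⟨k', hk', s, hs, e⟩ := mem_iUnion₂.1 h
      have hne : k' ≠ k := (Finset.mem_filter.1 hk').2
      rcases hs.2.lt_or_eq with h1 | h1
      · exact hne (P.inj k' k s r ⟨hs.1, h1⟩ ⟨hr0.le, hr2⟩ e).1
      · rw [h1, P.closed] at e
        have h2 := P.inj (k' + 1) k 0 r ⟨le_rfl, P.len_pos _⟩ ⟨hr0.le, hr2⟩ e
        exact hr0.ne h2.2
    have hkU : ∀ k', ∀ s ∈ Icc 0 (P.len k'), P.γ k' s ∈ U → k' = k := by
      intro k' s hs h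
      by_contra hne
      exact h (mem_iUnion₂.2 ⟨k', Finset.mem_filter.2 ⟨Finset.mem_univ _, hne⟩, s, hs, rfl⟩)
    refine ⟨U, hUo.mem_nhds hxU, (if k = i then 1 else 0) -
      ip (P.γ k 0) ((gen_hat_sl P i k : ℂ) * P.dir k), (gen_hat_sl P i k : ℂ) * P.dir k, ?_⟩
    intro k' s hs h
    obtain rfl := hkU k' s hs h
    rw [gen_hat_val, straight_eq hP k' s, ip_add_left, ip_rmul_left s, ip_rmul_right _ (P.dir k'),
      ip_self, dir_norm]
    ring
  · -- the corner `k + 1`
    have hx1 : P.γ k r = P.γ (k + 1) 0 := by rw [hr2, P.closed]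
    set U : Set ℂ := (⋃ k' ∈ (Finset.univ.filter (fun k' : Fin n => k' ≠ k ∧ k' ≠ k + 1) :
      Finset (Fin n)), P.γ k' '' Icc 0 (P.len k'))ᶜ with hU
    have hUo : IsOpen U := by
      rw [hU]
      exact (isClosed_biUnion_finset fun k' _ => hcpt k').isOpen_compl
    have hxU : P.γ k r ∈ U := by
      rw [hU, mem_compl_iff, hx1]
      intro h
      obtain ⟨k', hk', s, hs, e⟩ := mem_iUnion₂.1 h
      have hne := (Finset.mem_filter.1 hk').2
      rcases hs.2.lt_or_eq with h1 | h1
      · exact hne.2 (P.inj k' (k + 1) s 0 ⟨hs.1, h1⟩ ⟨le_rfl, P.len_pos _⟩ e).1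
      · rw [h1, P.closed] at e
        have h2 := P.inj (k' + 1) (k + 1) 0 0 ⟨le_rfl, P.len_pos _⟩ ⟨le_rfl, P.len_pos _⟩ e
        exact hne.1 (add_right_cancel h2.1)
    have hkU : ∀ k', ∀ s ∈ Icc 0 (P.len k'), P.γ k' s ∈ U → k' = k ∨ k' = k + 1 := by
      intro k' s hs h
      by_contra hne
      rw [not_or] at hne
      exact h (mem_iUnion₂.2 ⟨k', Finset.mem_filter.2 ⟨Finset.mem_univ _, hne⟩, s, hs, rfl⟩)
    obtain ⟨w, hw1, hw2⟩ := P.exists_functional hP hc k (gen_hat_sl P i k)
      (gen_hat_sl P i (k + 1))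
    refine ⟨U, hUo.mem_nhds hxU, (if k + 1 = i then 1 else 0) - ip (P.γ (k + 1) 0) w, w, ?_⟩
    intro k' s hs h
    rcases hkU k' s hs h with rfl | rfl
    · have e1 : ip (P.γ (k' + 1) 0) w = ip (P.γ k' 0) w + P.len k' * gen_hat_sl P i k' := by
        rw [corner_next hP, ip_add_left, ip_rmul_left]
        congr 2
      have e2 : ip (P.γ k' s) w = ip (P.γ k' 0) w + s * gen_hat_sl P i k' := by
        rw [straight_eq hP, ip_add_left, ip_rmul_left]
        congr 2
      rw [gen_hat_val, e1, e2, ← gen_hat_end P i k']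
      ring
    · have e2 : ip (P.γ (k + 1) s) w = ip (P.γ (k + 1) 0) w + s * gen_hat_sl P i (k + 1) := by
        rw [straight_eq hP, ip_add_left, ip_rmul_left]
        congr 2
      rw [gen_hat_val, e2]
      ring

/-- Smooth hat functions with compact support exist.
Proof. `exists_contMDiffMap_forall_mem_convex_of_local` (with `I = 𝓘(ℝ, ℂ)`, `n = ∞`) for the convex sets
`t y = {g | (∀ k, ∀ r ∈ Icc 0 (len k), γ k r = y → g = value) ∧ (R ≤ ‖y‖ → g = 0)}`, `R` such that the closure of the region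
is in the open ball `R` (`bounded`).  Local solutions: near a frontier point `hat_local` (`U ∩ ball 0 R`), near
other points `g = 0` (the frontier is closed, `frontier_eq`; `IsOpen.mem_nhds`). -/
theorem exists_hats (P : Table n) (hP : P.Straight)
    (hc : ∀ i, deriv (P.γ (i + 1)) 0 ≠ deriv (P.γ i) 0) :
    ∃ h : Fin n → ℂ → ℝ, (∀ i, ContDiff ℝ (⊤ : ℕ∞) (h i)) ∧ (∀ i, HasCompactSupport (h i)) ∧
      P.IsHat h := by
  classical
  obtain ⟨R, hR⟩ : ∃ R : ℝ, ∀ x ∈ closure P.region, ‖x‖ < R := by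
    obtain ⟨R, hR⟩ := P.bounded.closure.subset_ball (0 : ℂ)
    exact ⟨R, fun x hx => mem_ball_zero_iff.1 (hR hx)⟩
  have hside : ∀ k, ∀ r ∈ Icc 0 (P.len k), P.γ k r ∈ frontier P.region := by
    intro k r hr
    rw [P.frontier_eq]
    exact mem_iUnion.2 ⟨k, r, hr, rfl⟩
  have key : ∀ i : Fin n, ∃ g : ℂ → ℝ, ContDiff ℝ (⊤ : ℕ∞) g ∧ (∀ y, R ≤ ‖y‖ → g y = 0) ∧
      ∀ k, ∀ r ∈ Icc 0 (P.len k), g (P.γ k r) =
        (if k = i then 1 - r / P.len k else 0) + (if k + 1 = i then r / P.len k else 0) := by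
    intro i
    set t : ℂ → Set ℝ := fun y => {g | (∀ k, ∀ r ∈ Icc 0 (P.len k), P.γ k r = y → g =
      (if k = i then 1 - r / P.len k else 0) + (if k + 1 = i then r / P.len k else 0)) ∧
      (R ≤ ‖y‖ → g = 0)} with ht
    have hconv : ∀ y, Convex ℝ (t y) := by
      intro y g₁ h₁ g₂ h₂ a b _ _ hab
      refine ⟨fun k r hr e => ?_, fun hy => ?_⟩
      · rw [h₁.1 k r hr e, h₂.1 k r hr e, ← add_smul, hab, one_smul]
      · rw [h₁.2 hy, h₂.2 hy, ← add_smul, hab, one_smul]
    have hloc : ∀ x : ℂ, ∃ U ∈ 𝓝 x, ∃ g : ℂ → ℝ,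
        ContMDiffOn (modelWithCornersSelf ℝ ℂ) (modelWithCornersSelf ℝ ℝ) (⊤ : ℕ∞) g U ∧
          ∀ y ∈ U, g y ∈ t y := by
      intro x
      by_cases hx : x ∈ frontier P.region
      · obtain ⟨U, hU, A, w, hw⟩ := P.hat_local hP hc i hx
        have hxR : x ∈ Metric.ball (0 : ℂ) R :=
          mem_ball_zero_iff.2 (hR x (frontier_subset_closure hx))
        refine ⟨U ∩ Metric.ball (0 : ℂ) R, Filter.inter_mem hU
          (Metric.isOpen_ball.mem_nhds hxR), fun y => A + ip y w, ?_, ?_⟩
        · have h1 : ContDiff ℝ (⊤ : ℕ∞) (fun y : ℂ => A + ip y w) := by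
            have h2 : (fun y : ℂ => A + ip y w) =
                fun y : ℂ => A + (Complex.reCLM y * w.re + Complex.imCLM y * w.im) := rfl
            rw [h2]
            exact contDiff_const.add ((Complex.reCLM.contDiff.mul contDiff_const).add
              (Complex.imCLM.contDiff.mul contDiff_const))
          exact h1.contMDiff.contMDiffOn
        · rintro y ⟨hy1, hy2⟩
          refine ⟨fun k r hr e => ?_, fun hy => ?_⟩
          · show A + ip y w = _
            rw [← e]
            exact hw k r hr (by rw [e]; exact hy1)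
          · exact absurd (mem_ball_zero_iff.1 hy2) (not_lt.2 hy)
      · refine ⟨(frontier P.region)ᶜ, isClosed_frontier.isOpen_compl.mem_nhds hx, fun _ => 0,
          contMDiffOn_const, ?_⟩
        intro y hy
        refine ⟨fun k r hr e => ?_, fun _ => rfl⟩
        exact absurd (by rw [← e]; exact hside k r hr) hy
    obtain ⟨g, hg⟩ := exists_contMDiffMap_forall_mem_convex_of_local
      (modelWithCornersSelf ℝ ℂ) hconv hloc
    exact ⟨g, g.contMDiff.contDiff, fun y hy => (hg y).2 hy, fun k r hr => (hg _).1 k r hr rfl⟩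
  choose h h1 h2 h3 using key
  refine ⟨h, h1, fun i => ?_, h3⟩
  refine HasCompactSupport.of_support_subset_isCompact (isCompact_closedBall (0 : ℂ) R) ?_
  intro y hy
  rw [mem_closedBall_zero_iff]
  by_contra hn
  exact hy (h2 i y (not_le.1 hn).le)

end Table

end

end Pool.Agent.MP2e716c
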