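import Pool.Agent.H.MP_2e716c_an.Gen.NextC

/-!
# Phase points whose orbit meets a set of arcs within `N` steps
-/

open Set MeasureTheory Filter Topology

namespace Pool.Agent.MP2e716c

noncomputable section

namespace Table

variable {n : ℕ} [NeZero n]

/-- Phase points whose forward orbit meets an arc of `D` after at most `N` steps. -/
def hits (T : Table n) (D : Set (Fin n)) : ℕ → Set (Fin n × ℝ × ℝ)
  | 0 => {z | z ∈ T.phase ∧ z.1 ∈ D}
  | N + 1 => {z | z ∈ T.phase ∧ z.1 ∈ D} ∪ {z | ∃ a, T.Next z a ∧ a ∈ T.hits D N}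

theorem hits_subset_phase (T : Table n) (D : Set (Fin n)) (N : ℕ) : T.hits D N ⊆ T.phase := by
  cases N with
  | zero => exact fun z h => h.1
  | succ N =>
    rintro z (h | ⟨a, h1, -⟩)
    · exact h.1
    · exact h1.1

theorem gen_hits_succ (T : Table n) (D : Set (Fin n)) (N : ℕ) : T.hits D N ⊆ T.hits D (N + 1) := by
  induction N with
  | zero => exact fun z h => Or.inl h
  | succ N ih =>
    rintro z (h | ⟨a, h1, h2⟩)
    · exact Or.inl h
    · exact Or.inr ⟨a, h1, ih h2⟩

theorem hits_mono (T : Table n) (D : Set (Fin n)) {N M : ℕ} (h : N ≤ M) :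
    T.hits D N ⊆ T.hits D M := by
  induction M, h using Nat.le_induction with
  | base => exact Subset.rfl
  | succ M _ ih => exact ih.trans (T.gen_hits_succ D M)

theorem hits_mono_set (T : Table n) {D D' : Set (Fin n)} (h : D ⊆ D') (N : ℕ) :
    T.hits D N ⊆ T.hits D' N := by
  induction N with
  | zero => exact fun z hz => ⟨hz.1, h hz.2⟩
  | succ N ih =>
    rintro z (hz | ⟨a, h1, h2⟩)
    · exact Or.inl ⟨hz.1, h hz.2⟩
    · exact Or.inr ⟨a, h1, ih h2⟩

/-- If the orbit of `z` exists up to time `k` and `bmap^[k] z` is on an arc of `D` then `z ∈ hits D k`.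
Induction on `k` (`bmap_eq`, `Function.iterate_succ_apply`). -/
theorem mem_hits (T : Table n) (D : Set (Fin n)) {z : Fin n × ℝ × ℝ}
    (h : ∀ k : ℕ, T.Next (T.bmap^[k] z) (T.bmap^[k + 1] z)) {k : ℕ} (hk : (T.bmap^[k] z).1 ∈ D) :
    z ∈ T.hits D k := by
  induction k generalizing z with
  | zero => exact ⟨(h 0).1, hk⟩
  | succ k ih =>
    refine Or.inr ⟨T.bmap z, h 0, ih (z := T.bmap z) (fun j => ?_) ?_⟩
    · have h1 := h (j + 1)
      rw [Function.iterate_succ_apply, Function.iterate_succ_apply] at h1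
      exact h1
    · rw [← Function.iterate_succ_apply]
      exact hk

/-- Conversely.  Induction on `N`. -/
theorem exists_of_hits (T : Table n) (D : Set (Fin n)) {N : ℕ} {z : Fin n × ℝ × ℝ}
    (h : z ∈ T.hits D N) : ∃ k ≤ N, (T.bmap^[k] z).1 ∈ D := by
  induction N generalizing z with
  | zero => exact ⟨0, le_refl _, h.2⟩
  | succ N ih =>
    rcases h with h | ⟨a, h1, h2⟩
    · exact ⟨0, Nat.zero_le _, h.2⟩
    · obtain ⟨k, hk, hkD⟩ := ih h2
      refine ⟨k + 1, Nat.succ_le_succ hk, ?_⟩
      rw [Function.iterate_succ_apply, T.bmap_eq h1]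
      exact hkD

variable {X : Type*} [TopologicalSpace X] {T : X → Table n}

/-- Openness of `hits` in a family.  Induction on `N`, `fam_phase` and `fam_next`: if
`Next z a`, `a ∈ hits D N` in `T x0`, then by induction there are neighbourhoods `V` of `x0` and `U` of `a` with
`a' ∈ hits D N` in `T x` for `x ∈ V`, `a' ∈ U`; use `fam_next` with this `U`. -/
theorem fam_hits (hT : ContFam T) (D : Set (Fin n)) {x0 : X} {N : ℕ} {z : Fin n × ℝ × ℝ}
    (h : z ∈ (T x0).hits D N) :
    ∀ᶠ p : X × (Fin n × ℝ × ℝ) in 𝓝 (x0, z), p.2 ∈ (T p.1).hits D N := by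
  induction N generalizing z with
  | zero =>
    filter_upwards [fam_phase hT h.1] with p hp
    refine ⟨hp.2, ?_⟩
    rw [hp.1]
    exact h.2
  | succ N ih =>
    rcases h with h | ⟨a, h1, h2⟩
    · filter_upwards [fam_phase hT h.1] with p hp
      refine Or.inl ⟨hp.2, ?_⟩
      rw [hp.1]
      exact h.2
    · have h3 := ih h2
      rw [nhds_prod_eq] at h3
      obtain ⟨pa, ha, pb, hb, hab⟩ := Filter.eventually_prod_iff.1 h3
      have h4 := fam_next hT h1 (U := {w | pb w}) hb
      filter_upwards [h4, (continuous_fst.tendsto (x0, z)).eventually ha] with p h5 h6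
      obtain ⟨z1', h7, h8⟩ := h5
      exact Or.inr ⟨z1', h8, hab h6 h7⟩

/-- `hits D N` is open.  Constant family over `Unit` in `fam_hits`. -/
theorem isOpen_hits (T : Table n) (D : Set (Fin n)) (N : ℕ) : IsOpen (T.hits D N) := by
  rw [isOpen_iff_mem_nhds]
  intro z hz
  have hT : ContFam (fun _ : Unit => T) := by
    intro x0 ε hε
    refine Filter.Eventually.of_forall fun x i => ⟨?_, fun r _ _ => ⟨?_, ?_⟩⟩
    · rw [sub_self, abs_zero]
      exact hε
    · rw [sub_self, norm_zero]
      exact hε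
    · rw [sub_self, norm_zero]
      exact hε
  have h1 := fam_hits hT D (x0 := ()) hz
  have h2 : Tendsto (fun w : Fin n × ℝ × ℝ => ((), w)) (𝓝 z) (𝓝 ((), z)) :=
    (continuous_const.prodMk continuous_id).tendsto z
  exact h2.eventually h1

end Table

end

end Pool.Agent.MP2e716c
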