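import Pool.Agent.H.MP_2e716c_an.Gen.PDiff

/-!
# The image of a table under a diffeomorphism of the plane
-/

open Set MeasureTheory Filter Topology

namespace Pool.Agent.MP2e716c

noncomputable section

namespace Table

variable {n : ℕ} [NeZero n]

/-- `T'` is the image of the table `T` under `Φ`, each arc parametrised by its arclength. -/
def IsImage (Φ : ℂ → ℂ) (T T' : Table n) : Prop :=
  T'.region = Φ '' T.region ∧ ∀ i, ∃ σ : ℝ → ℝ, σ 0 = 0 ∧ σ (T.len i) = T'.len i ∧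
    ∀ r ∈ Icc 0 (T.len i), HasDerivAt σ ‖deriv (fun r => Φ (T.γ i r)) r‖ r ∧
      T'.γ i (σ r) = Φ (T.γ i r)

theorem gen_image_lin (A : ℂ →L[ℝ] ℂ) (v : ℂ) :
    A v = (v.re : ℂ) * A 1 + (v.im : ℂ) * A Complex.I := by
  have h : v = v.re • (1 : ℂ) + v.im • Complex.I := by
    rw [Complex.real_smul, Complex.real_smul, mul_one]
    exact (Complex.re_add_im v).symm
  conv_lhs => rw [h]
  rw [map_add, map_smul, map_smul, Complex.real_smul, Complex.real_smul]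

theorem gen_image_det (A : ℂ →L[ℝ] ℂ) (u v : ℂ) :
    ip (A v) (Complex.I * A u) =
      ip (A Complex.I) (Complex.I * A 1) * ip v (Complex.I * u) := by
  rw [gen_image_lin A v, gen_image_lin A u]
  simp only [ip, Complex.add_re, Complex.add_im, Complex.mul_re, Complex.mul_im, Complex.I_re,
    Complex.I_im, Complex.ofReal_re, Complex.ofReal_im]
  ring

theorem gen_image_sigma {L L' : ℝ} {σ : ℝ → ℝ} (hL : 0 < L) (h0 : σ 0 = 0) (h1 : σ L = L')
    (hσ : ∀ r ∈ Icc 0 L, ∃ a > 0, HasDerivAt σ a r) {r1 : ℝ} (hr1 : r1 ∈ Ioo 0 L') :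
    ∃ r0 ∈ Ioo 0 L, σ r0 = r1 ∧ ∀ δ > 0, ∃ ε > 0, ∀ s : ℝ, |s| < ε →
      ∃ r ∈ Icc 0 L, |r - r0| ≤ δ ∧ σ r = r1 + s := by
  have hcont : ContinuousOn σ (Icc 0 L) := fun r hr => by
    obtain ⟨a, -, ha⟩ := hσ r hr
    exact ha.continuousAt.continuousWithinAt
  have hmono : StrictMonoOn σ (Icc 0 L) := by
    refine strictMonoOn_of_deriv_pos (convex_Icc 0 L) hcont fun x hx => ?_
    obtain ⟨a, ha0, ha⟩ := hσ x (interior_subset hx)
    rw [ha.deriv]
    exact ha0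
  have hI : r1 ∈ Icc (σ 0) (σ L) := by
    rw [h0, h1]
    exact ⟨hr1.1.le, hr1.2.le⟩
  obtain ⟨r0, hr0, hr0'⟩ := intermediate_value_Icc hL.le hcont hI
  have hr00 : r0 ∈ Ioo 0 L := by
    refine ⟨lt_of_le_of_ne hr0.1 ?_, lt_of_le_of_ne hr0.2 ?_⟩
    · rintro rfl
      rw [h0] at hr0'
      exact absurd hr0'.symm hr1.1.ne'
    · rintro rfl
      rw [h1] at hr0'
      exact absurd hr0'.symm hr1.2.ne
  refine ⟨r0, hr00, hr0', fun δ hδ => ?_⟩
  obtain ⟨d, hd⟩ : ∃ d : ℝ, d = min δ (min r0 (L - r0)) := ⟨_, rfl⟩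
  have hd0 : 0 < d := by
    rw [hd]
    exact lt_min hδ (lt_min hr00.1 (by linarith [hr00.2]))
  have hd1 : d ≤ δ := by
    rw [hd]
    exact min_le_left _ _
  have hd2 : d ≤ r0 := by
    rw [hd]
    exact (min_le_right _ _).trans (min_le_left _ _)
  have hd3 : d ≤ L - r0 := by
    rw [hd]
    exact (min_le_right _ _).trans (min_le_right _ _)
  have ha : r0 - d ∈ Icc 0 L := ⟨by linarith, by linarith [hr0.2]⟩
  have hb : r0 + d ∈ Icc 0 L := ⟨by linarith [hr0.1], by linarith⟩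
  have h2 : σ (r0 - d) < r1 := by
    rw [← hr0']
    exact hmono ha hr0 (by linarith)
  have h3 : r1 < σ (r0 + d) := by
    rw [← hr0']
    exact hmono hr0 hb (by linarith)
  refine ⟨min (r1 - σ (r0 - d)) (σ (r0 + d) - r1), lt_min (by linarith) (by linarith),
    fun s hs => ?_⟩
  have hs1 := abs_lt.1 (hs.trans_le (min_le_left _ _))
  have hs2 := abs_lt.1 (hs.trans_le (min_le_right _ _))
  have hsub : Icc (r0 - d) (r0 + d) ⊆ Icc 0 L := Icc_subset_Icc ha.1 hb.2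
  obtain ⟨r, hr, hr'⟩ := intermediate_value_Icc (show r0 - d ≤ r0 + d by linarith)
    (hcont.mono hsub) (show r1 + s ∈ Icc (σ (r0 - d)) (σ (r0 + d)) from
      ⟨by linarith [hs1.1], by linarith [hs2.2]⟩)
  exact ⟨r, hsub hr, abs_le.2 ⟨by linarith [hr.1], by linarith [hr.2]⟩, hr'⟩

/-- Vectors near `E` make a definite angle with the tangent. -/
theorem gen_image_dir {E w : ℂ} (hw : ‖w‖ = 1) {κ : ℝ} (hκ : 0 < κ)
    (hE : ip E (Complex.I * w) = κ) :
    ∃ η > 0, ∀ e : ℂ, ‖e - E‖ ≤ η → e ≠ 0 ∧ ‖e‖ ≤ 2 * ‖E‖ ∧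
      κ / (4 * ‖E‖) ≤ ip (e / (‖e‖ : ℂ)) (Complex.I * w) := by
  have hIw : ‖Complex.I * w‖ = 1 := by rw [norm_mul, Complex.norm_I, one_mul, hw]
  have hE0 : 0 < ‖E‖ := by
    rw [norm_pos_iff]
    rintro rfl
    rw [ip_zero_left] at hE
    linarith
  refine ⟨min (κ / 2) ‖E‖, lt_min (by linarith) hE0, fun e he => ?_⟩
  have he1 := he.trans (min_le_left _ _)
  have he2 := he.trans (min_le_right _ _)
  have h1 : κ / 2 ≤ ip e (Complex.I * w) := by
    have h2 : ip e (Complex.I * w) = κ + ip (e - E) (Complex.I * w) := by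
      rw [ip_sub_left, hE]
      ring
    have h3 := abs_ip_le (e - E) (Complex.I * w)
    rw [hIw, mul_one] at h3
    have h4 := neg_abs_le (ip (e - E) (Complex.I * w))
    linarith
  have he0 : e ≠ 0 := by
    rintro rfl
    rw [ip_zero_left] at h1
    linarith
  have hen : 0 < ‖e‖ := norm_pos_iff.2 he0
  have h5 : ‖e‖ ≤ 2 * ‖E‖ := by
    have h6 : ‖e‖ ≤ ‖e - E‖ + ‖E‖ := by
      have h7 := norm_add_le (e - E) E
      rwa [sub_add_cancel] at h7
    linarith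
  refine ⟨he0, h5, ?_⟩
  have h8 : e / (‖e‖ : ℂ) = ((‖e‖⁻¹ : ℝ) : ℂ) * e := by
    rw [Complex.ofReal_inv]
    field_simp
  rw [h8, ip_rmul_left, ← div_eq_inv_mul, div_le_div_iff₀ (by positivity) hen]
  have h9 : κ * ‖e‖ ≤ κ * (2 * ‖E‖) := mul_le_mul_of_nonneg_left h5 hκ.le
  nlinarith

/-- The derivative of the inverse is the inverse of the derivative. -/
theorem gen_image_inv (F : PDiff) (p : ℂ) (v : ℂ) :
    fderiv ℝ F.Φ (F.Φ.symm p) (fderiv ℝ F.Φ.symm p v) = v := by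
  have h1 : HasFDerivAt F.Φ (fderiv ℝ F.Φ (F.Φ.symm p)) (F.Φ.symm p) :=
    ((F.smooth.differentiable (by norm_num)) _).hasFDerivAt
  have h2 : HasFDerivAt F.Φ.symm (fderiv ℝ F.Φ.symm p) p :=
    ((F.smooth_symm.differentiable (by norm_num)) _).hasFDerivAt
  have h3 := h1.comp p h2
  have h4 : (⇑F.Φ ∘ ⇑F.Φ.symm) = id := by
    funext x
    exact F.Φ.apply_symm_apply x
  rw [h4] at h3
  have h5 := h3.unique (hasFDerivAt_id p)
  have h6 := congrArg (fun A : ℂ →L[ℝ] ℂ => A v) h5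
  exact h6

/-- The left side property of the image.
Proof. Let `Ψ = Φ.symm`, `r1 = σ r0`, `r0 ∈ (0, len i)` (`σ` is a homeomorphism of the intervals: continuous and
strictly increasing on `[0, len i]`), `N' = I deriv (c i) r1`.
(i) Tangents: `deriv (c i) r1 * deriv σ r0 = DΦ(γ r0) (deriv γ r0)` (chain rule), so
`DΨ (deriv (c i) r1) = λ deriv γ r0` with `λ = 1 / deriv σ r0 > 0`.
(ii) `DΨ N'` satisfies `ip (DΨ N') (I deriv γ r0) > 0`: `ip (A I) (I A 1) = det A`, `det DΨ = 1 / det DΦ > 0`,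
and in general `ip (A v) (I A u) = det A * ip v (I u)`; use it with `A = DΨ`, `u = deriv (c i) r1`, `v = N' = I u`,
`ip v (I u) = 1`, and (i).
(iii) So with `κ = ip (DΨ N') (I deriv γ r0) > 0`, continuity of `DΨ` and of `DΨ`-increments: there is `ε` such that for
`|s| < ε`, `0 < h < ε` and `x' = c i (r1 + s) + h N'` one has `Ψ x' = Ψ (c i (r1 + s)) + h e`, `‖e - DΨ(c i r1) N'‖` small
(strict differentiability of `Ψ` at `c i r1`: `ContDiffAt.hasStrictFDerivAt`), and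
`Ψ (c i (r1 + s)) = γ i r` with `r` near `r0` (`σ r = r1 + s`).  Put `v = e / ‖e‖`, `t = h ‖e‖`: `ip v (I deriv γ r0) ≥ c0` for a fixed
`c0 > 0`.  `inward_cone i` at `r0` with `c0` gives `γ i r + t v ∈ region`, i.e. `x' ∈ Φ '' region`.  The same with `-h`:
`Ψ (c i (r1 + s) - h N') = γ i r - t v ∉ region`. -/
theorem image_left (T : Table n) (F : PDiff) {i : Fin n} {len' : ℝ} {c : ℝ → ℂ} {σ : ℝ → ℝ}
    (hc : ContDiff ℝ 3 c) (hu : ∀ s ∈ Icc 0 len', ‖deriv c s‖ = 1)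
    (hσ0 : σ 0 = 0) (hσ1 : σ (T.len i) = len')
    (hσ : ∀ r ∈ Icc 0 (T.len i), ∃ a > 0, HasDerivAt σ a r)
    (hcσ : ∀ r ∈ Icc 0 (T.len i), c (σ r) = F.Φ (T.γ i r)) :
    ∀ r ∈ Ioo 0 len', ∃ ε > 0, ∀ s h : ℝ, |s| < ε → 0 < h → h < ε →
      c (r + s) + h * (Complex.I * deriv c r) ∈ F.Φ '' T.region ∧
      c (r + s) - h * (Complex.I * deriv c r) ∉ F.Φ '' T.region := by
  intro r1 hr1
  obtain ⟨r0, hr0, hr01, hloc⟩ := gen_image_sigma (T.len_pos i) hσ0 hσ1 hσ hr1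
  have hr0' : r0 ∈ Icc 0 (T.len i) := ⟨hr0.1.le, hr0.2.le⟩
  obtain ⟨a, ha0, ha⟩ := hσ r0 hr0'
  obtain ⟨u, hu'⟩ : ∃ u : ℂ, u = deriv c r1 := ⟨_, rfl⟩
  obtain ⟨w, hw'⟩ : ∃ w : ℂ, w = deriv (T.γ i) r0 := ⟨_, rfl⟩
  have hun : ‖u‖ = 1 := by
    rw [hu']
    exact hu r1 ⟨hr1.1.le, hr1.2.le⟩
  have hwn : ‖w‖ = 1 := by
    rw [hw']
    exact T.unit i r0 hr0'
  have hcr1 : c r1 = F.Φ (T.γ i r0) := by
    rw [← hr01]
    exact hcσ r0 hr0'
  have hp0 : F.Φ.symm (c r1) = T.γ i r0 := by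
    rw [hcr1]
    exact F.Φ.symm_apply_apply _
  -- the derivatives
  have hdc : HasDerivAt c u (σ r0) := by
    rw [hr01, hu']
    exact (hc.differentiable (by norm_num) r1).hasDerivAt
  have hdγ : HasDerivAt (T.γ i) w r0 := by
    rw [hw']
    exact ((T.smooth i).differentiable (by norm_num) r0).hasDerivAt
  have hdΦ : HasFDerivAt F.Φ (fderiv ℝ F.Φ (T.γ i r0)) (T.γ i r0) :=
    ((F.smooth.differentiable (by norm_num)) _).hasFDerivAt
  have hd1 : HasDerivAt (c ∘ σ) (a • u) r0 := HasDerivAt.scomp r0 hdc ha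
  have hd2 : HasDerivAt (F.Φ ∘ T.γ i) (fderiv ℝ F.Φ (T.γ i r0) w) r0 :=
    hdΦ.comp_hasDerivAt r0 hdγ
  have hev : (F.Φ ∘ T.γ i) =ᶠ[𝓝 r0] (c ∘ σ) := by
    filter_upwards [Icc_mem_nhds hr0.1 hr0.2] with r hr
    exact (hcσ r hr).symm
  have hd3 : a • u = fderiv ℝ F.Φ (T.γ i r0) w := hd1.unique (hd2.congr_of_eventuallyEq hev.symm)
  have hinj : ∀ x y : ℂ, fderiv ℝ F.Φ (T.γ i r0) x = fderiv ℝ F.Φ (T.γ i r0) y → x = y := by
    intro x y hxy
    by_contra hne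
    have hne' : x - y ≠ 0 := sub_ne_zero.2 hne
    have h1 : fderiv ℝ F.Φ (T.γ i r0) (x - y) = 0 := by rw [map_sub, hxy, sub_self]
    have h2 := gen_image_det (fderiv ℝ F.Φ (T.γ i r0)) (x - y) (Complex.I * (x - y))
    rw [h1, mul_zero, ip_zero_right, ip_self] at h2
    have h3 := F.pos (T.γ i r0)
    have h4 : 0 < ‖Complex.I * (x - y)‖ ^ 2 := by
      have : 0 < ‖Complex.I * (x - y)‖ :=
        norm_pos_iff.2 (mul_ne_zero Complex.I_ne_zero hne')
      positivity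
    have h5 := mul_pos h3 h4
    linarith
  obtain ⟨E, hE⟩ : ∃ E : ℂ, E = fderiv ℝ F.Φ.symm (c r1) (Complex.I * u) := ⟨_, rfl⟩
  have hAE : fderiv ℝ F.Φ (T.γ i r0) E = Complex.I * u := by
    have h1 := gen_image_inv F (c r1) (Complex.I * u)
    rw [hp0] at h1
    rw [hE]
    exact h1
  have hκ : 0 < ip E (Complex.I * w) := by
    have h1 := gen_image_det (fderiv ℝ F.Φ (T.γ i r0)) w E
    rw [hAE, ← hd3, Complex.real_smul] at h1
    have h2 : Complex.I * ((a : ℂ) * u) = (a : ℂ) * (Complex.I * u) := by ring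
    rw [h2, ip_rmul_right, ip_self, norm_mul, Complex.norm_I, one_mul, hun] at h1
    have h3 := F.pos (T.γ i r0)
    have h4 : 0 < a * 1 ^ 2 := by positivity
    rw [h1] at h4
    exact (mul_pos_iff_of_pos_left h3).1 h4
  obtain ⟨κ, hκ'⟩ : ∃ κ : ℝ, ip E (Complex.I * w) = κ := ⟨_, rfl⟩
  rw [hκ'] at hκ
  obtain ⟨η, hη, hdir⟩ := gen_image_dir hwn hκ hκ'
  have hE0 : 0 < ‖E‖ := by
    rw [norm_pos_iff]
    rintro rfl
    rw [ip_zero_left] at hκ'
    linarith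
  have hc0 : 0 < κ / (4 * ‖E‖) := by positivity
  obtain ⟨ε1, hε1, hcone⟩ := T.inward_cone i hr0 hc0
  obtain ⟨ε2, hε2, hloc'⟩ := hloc (ε1 / 2) (by linarith)
  -- strict differentiability
  have hstrict : HasStrictFDerivAt F.Φ.symm (fderiv ℝ F.Φ.symm (c r1)) (c r1) :=
    (F.smooth_symm.contDiffAt).hasStrictFDerivAt (by norm_num)
  have hO := hstrict.isLittleO.def hη
  obtain ⟨ρ, hρ, hball⟩ := Metric.eventually_nhds_iff.1 hO
  have hcc : ContinuousAt c r1 := hc.continuous.continuousAt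
  obtain ⟨ε3, hε3, hc3⟩ := Metric.continuousAt_iff.1 hcc (ρ / 2) (by linarith)
  -- the main estimate
  have key : ∀ s h : ℝ, |s| < min ε2 ε3 → 0 < |h| →
      |h| < min (ρ / 2) (ε1 / (2 * ‖E‖)) →
      ∃ (r : ℝ) (e : ℂ), |r - r0| < ε1 ∧ ‖e - E‖ ≤ η ∧
        F.Φ.symm (c (r1 + s) + h * (Complex.I * u)) = T.γ i r + h * e := by
    intro s h hs hh0 hh
    obtain ⟨r, hr, hrr, hrs⟩ := hloc' s (hs.trans_le (min_le_left _ _))
    have hh0' : (h : ℂ) ≠ 0 := by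
      intro h0
      rw [Complex.ofReal_eq_zero] at h0
      rw [h0, abs_zero] at hh0
      exact lt_irrefl _ hh0
    have hy : F.Φ.symm (c (r1 + s)) = T.γ i r := by
      rw [← hrs, hcσ r hr]
      exact F.Φ.symm_apply_apply _
    have hcs : dist (c (r1 + s)) (c r1) < ρ / 2 := by
      refine hc3 ?_
      rw [Real.dist_eq, add_sub_cancel_left]
      exact hs.trans_le (min_le_right _ _)
    have hnh : ‖(h : ℂ) * (Complex.I * u)‖ = |h| := by
      rw [norm_mul, norm_mul, Complex.norm_I, hun, Complex.norm_real, Real.norm_eq_abs]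
      ring
    have hxs : dist (c (r1 + s) + h * (Complex.I * u)) (c r1) < ρ := by
      have h1 : dist (c (r1 + s) + h * (Complex.I * u)) (c (r1 + s)) = |h| := by
        rw [dist_eq_norm, add_sub_cancel_left, hnh]
      have h2 := dist_triangle (c (r1 + s) + h * (Complex.I * u)) (c (r1 + s)) (c r1)
      have h3 := hh.trans_le (min_le_left _ _)
      linarith
    have h4 := hball (y := (c (r1 + s) + h * (Complex.I * u), c (r1 + s))) (by
      rw [Prod.dist_eq]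
      exact max_lt hxs (by linarith))
    have h5 : ‖F.Φ.symm (c (r1 + s) + h * (Complex.I * u)) - F.Φ.symm (c (r1 + s)) -
        fderiv ℝ F.Φ.symm (c r1) ((c (r1 + s) + h * (Complex.I * u)) - c (r1 + s))‖ ≤
        η * ‖(c (r1 + s) + h * (Complex.I * u)) - c (r1 + s)‖ := h4
    rw [add_sub_cancel_left, hnh, hy] at h5
    have h6 : fderiv ℝ F.Φ.symm (c r1) ((h : ℂ) * (Complex.I * u)) = (h : ℂ) * E := by
      rw [hE, ← Complex.real_smul, map_smul, Complex.real_smul]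
    rw [h6] at h5
    refine ⟨r, (F.Φ.symm (c (r1 + s) + h * (Complex.I * u)) - T.γ i r) / h,
      by linarith, ?_, ?_⟩
    · have h7 : (F.Φ.symm (c (r1 + s) + h * (Complex.I * u)) - T.γ i r) / h - E =
          (F.Φ.symm (c (r1 + s) + h * (Complex.I * u)) - T.γ i r - h * E) / h := by
        field_simp
      rw [h7, norm_div, Complex.norm_real, Real.norm_eq_abs, div_le_iff₀ hh0]
      exact h5
    · rw [mul_div_cancel₀ _ hh0']
      ring
  have key2 : ∀ (r h : ℝ) (e : ℂ), 0 < h → h < min (ρ / 2) (ε1 / (2 * ‖E‖)) →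
      |r - r0| < ε1 → ‖e - E‖ ≤ η →
      T.γ i r + h * e ∈ T.region ∧ T.γ i r - h * e ∉ T.region := by
    intro r h e hh0 hh hr he
    obtain ⟨he0, hen, hec⟩ := hdir e he
    have hen0 : 0 < ‖e‖ := norm_pos_iff.2 he0
    have hv : ‖e / (‖e‖ : ℂ)‖ = 1 := by
      rw [norm_div, Complex.norm_real, norm_norm, div_self hen0.ne']
    have ht : h * ‖e‖ ∈ Ioo (0 : ℝ) ε1 := by
      refine ⟨mul_pos hh0 hen0, ?_⟩
      have h1 := hh.trans_le (min_le_right _ _)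
      rw [lt_div_iff₀ (by positivity)] at h1
      have h2 : h * ‖e‖ ≤ h * (2 * ‖E‖) := mul_le_mul_of_nonneg_left hen hh0.le
      linarith
    rw [hw'] at hec
    have h3 := hcone r hr (e / (‖e‖ : ℂ)) hv hec (h * ‖e‖) ht
    have h4 : ((h * ‖e‖ : ℝ) : ℂ) * (e / (‖e‖ : ℂ)) = (h : ℂ) * e := by
      have h5 : ((‖e‖ : ℝ) : ℂ) ≠ 0 := by
        rw [Complex.ofReal_ne_zero]
        exact hen0.ne'
      rw [Complex.ofReal_mul]
      field_simp
    rw [h4] at h3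
    exact h3
  refine ⟨min (min ε2 ε3) (min (ρ / 2) (ε1 / (2 * ‖E‖))), by positivity,
    fun s h hs hh0 hh => ?_⟩
  have hs' := hs.trans_le (min_le_left _ _)
  have hh' := hh.trans_le (min_le_right _ _)
  rw [← hu']
  constructor
  · obtain ⟨r, e, h1, h2, h3⟩ := key s h hs' (abs_pos.2 hh0.ne') (by rwa [abs_of_pos hh0])
    refine ⟨F.Φ.symm (c (r1 + s) + h * (Complex.I * u)), ?_, F.Φ.apply_symm_apply _⟩
    rw [h3]
    exact (key2 r h e hh0 hh' h1 h2).1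
  · obtain ⟨r, e, h1, h2, h3⟩ := key s (-h) hs' (abs_pos.2 (neg_ne_zero.2 hh0.ne'))
      (by rwa [abs_neg, abs_of_pos hh0])
    rintro ⟨z, hz, hz'⟩
    have h4 : c (r1 + s) + ((-h : ℝ) : ℂ) * (Complex.I * u) =
        c (r1 + s) - h * (Complex.I * u) := by
      rw [Complex.ofReal_neg]
      ring
    have h5 : T.γ i r + ((-h : ℝ) : ℂ) * e = T.γ i r - h * e := by
      rw [Complex.ofReal_neg]
      ring
    rw [h4, ← hz', h5, F.Φ.symm_apply_apply] at h3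
    rw [h3] at hz
    exact (key2 r h e hh0 hh' h1 h2).2 hz

end Table

end

end Pool.Agent.MP2e716c
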