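import Pool.Agent.H.MP_2e716c_an.Gen.Image

/-!
# The image table
-/

open Set MeasureTheory Filter Topology

namespace Pool.Agent.MP2e716c

noncomputable section

namespace Table

variable {n : ℕ} [NeZero n]

theorem gen_image2_sigma {L L' : ℝ} {σ : ℝ → ℝ} (hL : 0 < L) (h0 : σ 0 = 0) (h1 : σ L = L')
    (hσ : ∀ r ∈ Icc 0 L, ∃ a > 0, HasDerivAt σ a r) :
    0 < L' ∧ StrictMonoOn σ (Icc 0 L) ∧ σ '' Icc 0 L = Icc 0 L' ∧
      ∀ r1 ∈ Ico 0 L', ∃ r0 ∈ Ico 0 L, σ r0 = r1 := by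
  have hcont : ContinuousOn σ (Icc 0 L) := fun r hr => by
    obtain ⟨a, -, ha⟩ := hσ r hr
    exact ha.continuousAt.continuousWithinAt
  have hmono : StrictMonoOn σ (Icc 0 L) := by
    refine strictMonoOn_of_deriv_pos (convex_Icc 0 L) hcont fun x hx => ?_
    obtain ⟨a, ha0, ha⟩ := hσ x (interior_subset hx)
    rw [ha.deriv]
    exact ha0
  have h0m : (0 : ℝ) ∈ Icc 0 L := ⟨le_refl _, hL.le⟩
  have hLm : L ∈ Icc 0 L := ⟨hL.le, le_refl _⟩
  have hL' : 0 < L' := by
    have h2 := hmono h0m hLm hL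
    rwa [h0, h1] at h2
  have himg : σ '' Icc 0 L = Icc 0 L' := by
    apply Subset.antisymm
    · rintro _ ⟨r, hr, rfl⟩
      constructor
      · have h2 := hmono.monotoneOn h0m hr hr.1
        rwa [h0] at h2
      · have h2 := hmono.monotoneOn hr hLm hr.2
        rwa [h1] at h2
    · have h2 := intermediate_value_Icc hL.le hcont
      rwa [h0, h1] at h2
  refine ⟨hL', hmono, himg, fun r1 hr1 => ?_⟩
  have h2 : r1 ∈ σ '' Icc 0 L := by
    rw [himg]
    exact ⟨hr1.1, hr1.2.le⟩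
  obtain ⟨r0, hr0, hr0'⟩ := h2
  refine ⟨r0, ⟨hr0.1, lt_of_le_of_ne hr0.2 ?_⟩, hr0'⟩
  rintro rfl
  rw [h1] at hr0'
  exact absurd hr0'.symm hr1.2.ne

/-- The image table.
Proof. All fields: `closed`, `inj` from `hcσ`, injectivity of `Φ` and bijectivity of `σ i : [0, len i] → [0, len' i]`
(continuous, strictly increasing); `frontier_eq` from `Homeomorph.image_frontier`; `bounded`: the closure
of the region is compact; `left` is `image_left`. -/
theorem exists_image (T : Table n) (F : PDiff) (len' : Fin n → ℝ) (c : Fin n → ℝ → ℂ)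
    (σ : Fin n → ℝ → ℝ) (hc : ∀ i, ContDiff ℝ 3 (c i))
    (hu : ∀ i, ∀ s ∈ Icc 0 (len' i), ‖deriv (c i) s‖ = 1)
    (hσ0 : ∀ i, σ i 0 = 0) (hσ1 : ∀ i, σ i (T.len i) = len' i)
    (hσ : ∀ i, ∀ r ∈ Icc 0 (T.len i), ∃ a > 0, HasDerivAt (σ i) a r)
    (hcσ : ∀ i, ∀ r ∈ Icc 0 (T.len i), c i (σ i r) = F.Φ (T.γ i r)) :
    ∃ T' : Table n, T'.len = len' ∧ T'.γ = c ∧ T'.region = F.Φ '' T.region := by
  have hs := fun i => gen_image2_sigma (T.len_pos i) (hσ0 i) (hσ1 i) (hσ i)
  have h0m : ∀ i, (0 : ℝ) ∈ Icc 0 (T.len i) := fun i => ⟨le_refl _, (T.len_pos i).le⟩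
  have hLm : ∀ i, T.len i ∈ Icc 0 (T.len i) := fun i => ⟨(T.len_pos i).le, le_refl _⟩
  have hclosed : ∀ i, c i (len' i) = c (i + 1) 0 := by
    intro i
    rw [← hσ1 i, hcσ i _ (hLm i), T.closed i]
    rw [← hσ0 (i + 1), hcσ (i + 1) _ (h0m (i + 1)), hσ0 (i + 1)]
  have hinj : ∀ i j r s, r ∈ Ico 0 (len' i) → s ∈ Ico 0 (len' j) → c i r = c j s →
      i = j ∧ r = s := by
    intro i j r s hr hs' h
    obtain ⟨r0, hr0, hr0'⟩ := (hs i).2.2.2 r hr
    obtain ⟨s0, hs0, hs0'⟩ := (hs j).2.2.2 s hs'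
    rw [← hr0', ← hs0', hcσ i r0 ⟨hr0.1, hr0.2.le⟩, hcσ j s0 ⟨hs0.1, hs0.2.le⟩] at h
    obtain ⟨h1, h2⟩ := T.inj i j r0 s0 hr0 hs0 (F.Φ.injective h)
    refine ⟨h1, ?_⟩
    rw [← hr0', ← hs0', h1, h2]
  have hbdd : Bornology.IsBounded (F.Φ '' T.region) := by
    have h1 : IsCompact (closure T.region) := T.bounded.isCompact_closure
    have h2 : IsCompact (F.Φ '' closure T.region) := h1.image F.Φ.continuous
    exact h2.isBounded.subset (image_mono subset_closure)
  have hfr : frontier (F.Φ '' T.region) = ⋃ i, c i '' Icc 0 (len' i) := by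
    rw [← F.Φ.image_frontier, T.frontier_eq, image_iUnion]
    refine iUnion_congr fun i => ?_
    rw [← (hs i).2.2.1, image_image, image_image]
    exact image_congr fun r hr => (hcσ i r hr).symm
  exact ⟨{ len := len'
           γ := c
           region := F.Φ '' T.region
           len_pos := fun i => (hs i).1
           smooth := hc
           unit := hu
           closed := hclosed
           inj := hinj
           isOpen := F.Φ.isOpenMap _ T.isOpen
           bounded := hbdd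
           connected := T.connected.image _ F.Φ.continuous.continuousOn
           frontier_eq := hfr
           left := fun i => T.image_left F (hc i) (hu i) (hσ0 i) (hσ1 i) (hσ i) (hcσ i) },
    rfl, rfl, rfl⟩

end Table

end

end Pool.Agent.MP2e716c
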