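import Pool.Agent.H.MP_2e716c_an.Gen.Fam

/-!
# Uniform estimates for the arcs of a family of tables
-/

open Set MeasureTheory Filter Topology

namespace Pool.Agent.MP2e716c

noncomputable section

namespace Table

variable {n : ℕ} [NeZero n] {X : Type*} [TopologicalSpace X] {T : X → Table n}

/-- Away from the frontier: if `q0 + t v0` is not on the frontier of `T x0` for `t` in a compact
interval, this persists for `(x, q, v)` near `(x0, q0, v0)`.
Proof. The compact sets `{q0 + t v0 | t ∈ [a, b]}` and `frontier (T x0).region` (closed and bounded) are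
disjoint, so at distance `≥ 3 d > 0`.  For `x` near `x0` every frontier point of `T x` is
`γ_x k s` (`frontier_eq`) and within `d` of the frontier of `T x0` (`fam_uniform`, `arc_mem_frontier`), and
`q + t v` is within `d` of `q0 + t v0` for `t ∈ [a, b]`. -/
theorem fam_middle (hT : ContFam T) {x0 : X} {a b : ℝ} {q0 v0 : ℂ}
    (h : ∀ t ∈ Icc a b, q0 + t * v0 ∉ frontier (T x0).region) :
    ∀ᶠ p : X × ℂ × ℂ in 𝓝 (x0, q0, v0), ∀ t ∈ Icc a b,
      p.2.1 + t * p.2.2 ∉ frontier (T p.1).region := by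
  have hS : IsCompact ((fun t : ℝ => q0 + (t : ℂ) * v0) '' Icc a b) :=
    isCompact_Icc.image (continuous_const.add (Complex.continuous_ofReal.mul continuous_const))
  have hdis : Disjoint ((fun t : ℝ => q0 + (t : ℂ) * v0) '' Icc a b)
      (frontier (T x0).region) := by
    rw [Set.disjoint_left]
    rintro _ ⟨t, ht, rfl⟩ h1
    exact h t ht h1
  obtain ⟨δ, hδ, hD⟩ := hdis.exists_thickenings hS isClosed_frontier
  have e1 : ∀ᶠ p : X × ℂ × ℂ in 𝓝 (x0, q0, v0), ∀ k, ∀ s ∈ Icc 0 ((T p.1).len k),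
      ∃ s0 ∈ Icc 0 ((T x0).len k), |s - s0| < δ ∧ ‖(T p.1).γ k s - (T x0).γ k s0‖ < δ :=
    (continuous_fst.tendsto (x0, q0, v0)).eventually (fam_uniform hT x0 hδ)
  have e2 : ∀ᶠ p : X × ℂ × ℂ in 𝓝 (x0, q0, v0), ∀ t ∈ Icc a b,
      dist (p.2.1 + (t : ℂ) * p.2.2) (q0 + (t : ℂ) * v0) < δ := by
    refine isCompact_Icc.eventually_forall_of_forall_eventually ?_
    intro t _
    have hc : Continuous fun z : (X × ℂ × ℂ) × ℝ =>
        dist (z.1.2.1 + (z.2 : ℂ) * z.1.2.2) (q0 + (z.2 : ℂ) * v0) := by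
      have c1 : Continuous fun z : (X × ℂ × ℂ) × ℝ => (z.2 : ℂ) :=
        Complex.continuous_ofReal.comp continuous_snd
      have c2 : Continuous fun z : (X × ℂ × ℂ) × ℝ => z.1.2.1 :=
        continuous_fst.comp (continuous_snd.comp continuous_fst)
      have c3 : Continuous fun z : (X × ℂ × ℂ) × ℝ => z.1.2.2 :=
        continuous_snd.comp (continuous_snd.comp continuous_fst)
      exact (c2.add (c1.mul c3)).dist (continuous_const.add (c1.mul continuous_const))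
    refine (isOpen_lt hc continuous_const).mem_nhds ?_
    show dist (q0 + (t : ℂ) * v0) (q0 + (t : ℂ) * v0) < δ
    rw [dist_self]
    exact hδ
  filter_upwards [e1, e2] with p f1 f2 t ht hf
  rw [(T p.1).frontier_eq] at hf
  obtain ⟨k, s, hs, hks⟩ := mem_iUnion.1 hf
  obtain ⟨s0, hs0, -, hd⟩ := f1 k s hs
  have g1 : p.2.1 + (t : ℂ) * p.2.2 ∈
      Metric.thickening δ ((fun t : ℝ => q0 + (t : ℂ) * v0) '' Icc a b) := by
    rw [Metric.mem_thickening_iff]
    exact ⟨_, ⟨t, ht, rfl⟩, f2 t ht⟩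
  have g2 : p.2.1 + (t : ℂ) * p.2.2 ∈ Metric.thickening δ (frontier (T x0).region) := by
    rw [Metric.mem_thickening_iff]
    refine ⟨(T x0).γ k s0, ?_, ?_⟩
    · rw [(T x0).frontier_eq]
      exact mem_iUnion.2 ⟨k, s0, hs0, rfl⟩
    · rw [← hks, dist_eq_norm]
      exact hd
  exact Set.disjoint_left.1 hD g1 g2

/-- Away from one arc: let `r0` be an interior parameter of the arc `i` of `T x0` and `κ > 0`.  Frontier
points of `T x` whose parameter is not on arc `i` within `κ` of `r0` stay away from `γ_{x0} i r0`.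
Proof. The set `C` of `(k, s)`, `s ∈ [0, len_{x0} k]`, with `k ≠ i ∨ κ/2 ≤ |s - r0|` is compact and
`γ_{x0} k s ≠ γ_{x0} i r0` on it (`inj`, `closed`: the end point `γ k (len k)` is `γ (k+1) 0`, and
`(k+1, 0)` is not `(i, r0)` as `0 < r0`); so the distance is `≥ 2 d` on `C`.  For `x` near `x0` use
`fam_uniform` with `ε = min d (κ/2)`: the parameter `s0` found there has `k ≠ i ∨ κ/2 ≤ |s0 - r0|`. -/
theorem fam_away (hT : ContFam T) {x0 : X} {i : Fin n} {r0 : ℝ} (hr : r0 ∈ Ioo 0 ((T x0).len i))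
    {κ : ℝ} (hκ : 0 < κ) :
    ∃ d > 0, ∀ᶠ x in 𝓝 x0, ∀ k, ∀ s ∈ Icc 0 ((T x).len k), (k ≠ i ∨ κ ≤ |s - r0|) →
      d ≤ ‖(T x).γ k s - (T x0).γ i r0‖ := by
  have hclosed : IsClosed (⋃ k, (T x0).γ k ''
      (Icc 0 ((T x0).len k) ∩ {s | k ≠ i ∨ κ / 2 ≤ |s - r0|})) := by
    refine isClosed_iUnion_of_finite fun k => ?_
    refine IsCompact.isClosed ?_
    refine IsCompact.image ?_ ((T x0).smooth k).continuous
    refine isCompact_Icc.inter_right ?_
    by_cases hk : k = i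
    · have h1 : {s : ℝ | k ≠ i ∨ κ / 2 ≤ |s - r0|} = {s : ℝ | κ / 2 ≤ |s - r0|} := by
        ext s
        simp [hk]
      rw [h1]
      exact isClosed_le continuous_const (continuous_id.sub continuous_const).abs
    · have h1 : {s : ℝ | k ≠ i ∨ κ / 2 ≤ |s - r0|} = univ := by
        ext s
        simp [hk]
      rw [h1]
      exact isClosed_univ
  have hnot : (T x0).γ i r0 ∉ ⋃ k, (T x0).γ k ''
      (Icc 0 ((T x0).len k) ∩ {s | k ≠ i ∨ κ / 2 ≤ |s - r0|}) := by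
    intro hmem
    obtain ⟨k, s, ⟨hs, hk⟩, he⟩ := mem_iUnion.1 hmem
    rcases lt_or_eq_of_le hs.2 with hlt | heq
    · obtain ⟨h1, h2⟩ := (T x0).inj k i s r0 ⟨hs.1, hlt⟩ ⟨hr.1.le, hr.2⟩ he
      rcases hk with h3 | h3
      · exact h3 h1
      · rw [h2, sub_self, abs_zero] at h3
        linarith
    · rw [heq, (T x0).closed k] at he
      obtain ⟨-, h2⟩ := (T x0).inj (k + 1) i 0 r0 ⟨le_rfl, (T x0).len_pos (k + 1)⟩
        ⟨hr.1.le, hr.2⟩ he
      exact absurd h2 hr.1.ne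
  obtain ⟨ε, hε, hball⟩ := Metric.isOpen_iff.1 hclosed.isOpen_compl _ hnot
  refine ⟨ε / 2, half_pos hε, ?_⟩
  filter_upwards [fam_uniform hT x0 (lt_min (half_pos hε) (half_pos hκ))] with x hx k s hs hk
  obtain ⟨s0, hs0, h1, h2⟩ := hx k s hs
  have h1' : |s - s0| < κ / 2 := lt_of_lt_of_le h1 (min_le_right _ _)
  have h2' : ‖(T x).γ k s - (T x0).γ k s0‖ < ε / 2 := lt_of_lt_of_le h2 (min_le_left _ _)
  have h3 : k ≠ i ∨ κ / 2 ≤ |s0 - r0| := by
    rcases hk with hk | hk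
    · exact Or.inl hk
    · refine Or.inr ?_
      have h4 : |s - r0| ≤ |s - s0| + |s0 - r0| := abs_sub_le s s0 r0
      linarith
  have h4 : ε ≤ ‖(T x0).γ k s0 - (T x0).γ i r0‖ := by
    by_contra hcon
    push Not at hcon
    have g1 : (T x0).γ k s0 ∈ Metric.ball ((T x0).γ i r0) ε := by
      rw [Metric.mem_ball, dist_eq_norm]
      exact hcon
    exact hball g1 (mem_iUnion.2 ⟨k, s0, ⟨hs0, h3⟩, rfl⟩)
  have h5 : ‖(T x0).γ k s0 - (T x0).γ i r0‖ ≤
      ‖(T x).γ k s - (T x0).γ k s0‖ + ‖(T x).γ k s - (T x0).γ i r0‖ := by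
    have h6 : (T x0).γ k s0 - (T x0).γ i r0 =
        -((T x).γ k s - (T x0).γ k s0) + ((T x).γ k s - (T x0).γ i r0) := by ring
    rw [h6]
    refine (norm_add_le _ _).trans ?_
    rw [norm_neg]
  linarith

/-- Local shape of the arc `i` near `r0`, uniformly in `x`: for every `c > 0` there is `κ > 0` such
that for `x` near `x0` and `s, s'` within `κ` of `r0`, with `τ0 = deriv γ_{x0} i r0`:
`‖γ_x i s - γ_x i s' - (s - s') τ0‖ ≤ c |s - s'|`.
Proof. `fam_deriv` at `r0` gives `κ` (with `(r0 - κ, r0 + κ) ⊆ (0, len_{x0} i)`) such that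
`‖deriv γ_x r - τ0‖ ≤ c` for `|r - r0| < κ`, `x` near `x0` (`Filter.eventually_prod_iff`, basis of `𝓝 (x0, r0)`).
Mean value inequality for `r ↦ γ_x r - r τ0` on the convex set `(r0 - κ, r0 + κ)`. -/
theorem fam_shape (hT : ContFam T) {x0 : X} {i : Fin n} {r0 : ℝ} (hr : r0 ∈ Ioo 0 ((T x0).len i))
    {c : ℝ} (hc : 0 < c) :
    ∃ κ > 0, ∀ᶠ x in 𝓝 x0, ∀ s s' : ℝ, |s - r0| < κ → |s' - r0| < κ →
      ‖(T x).γ i s - (T x).γ i s' - ((s - s' : ℝ) : ℂ) * deriv ((T x0).γ i) r0‖ ≤ c * |s - s'| := by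
  have h1 : ∀ᶠ p : X × ℝ in 𝓝 (x0, r0),
      dist (deriv ((T p.1).γ i) p.2) (deriv ((T x0).γ i) r0) < c :=
    Metric.tendsto_nhds.1 (fam_deriv hT i hr) c hc
  rw [nhds_prod_eq] at h1
  obtain ⟨pa, ha, pb, hb, hab⟩ := Filter.eventually_prod_iff.1 h1
  obtain ⟨κ, hκ, hk⟩ := Metric.eventually_nhds_iff.1 hb
  refine ⟨κ, hκ, ?_⟩
  filter_upwards [ha] with x hx s s' hs hs'
  have hder : ∀ r ∈ Metric.ball r0 κ, HasDerivWithinAt
      (fun r : ℝ => (T x).γ i r - (r : ℂ) * deriv ((T x0).γ i) r0)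
      (deriv ((T x).γ i) r - deriv ((T x0).γ i) r0) (Metric.ball r0 κ) r := by
    intro r _
    have d1 : HasDerivAt ((T x).γ i) (deriv ((T x).γ i) r) r :=
      (((T x).smooth i).differentiable (by norm_num) r).hasDerivAt
    have d2 : HasDerivAt (fun r : ℝ => (r : ℂ)) 1 r := Complex.ofRealCLM.hasDerivAt
    have d3 := d2.mul_const (deriv ((T x0).γ i) r0)
    rw [one_mul] at d3
    exact (d1.sub d3).hasDerivWithinAt
  have hbd : ∀ r ∈ Metric.ball r0 κ,
      ‖deriv ((T x).γ i) r - deriv ((T x0).γ i) r0‖ ≤ c := by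
    intro r hr'
    have h2 := hab hx (hk (Metric.mem_ball.1 hr'))
    rw [dist_eq_norm] at h2
    exact h2.le
  have h3 := (convex_ball r0 κ).norm_image_sub_le_of_norm_hasDerivWithin_le hder hbd
    (x := s') (y := s) (by rw [Metric.mem_ball, Real.dist_eq]; exact hs')
    (by rw [Metric.mem_ball, Real.dist_eq]; exact hs)
  rw [Real.norm_eq_abs] at h3
  have h4 : (T x).γ i s - (T x).γ i s' - ((s - s' : ℝ) : ℂ) * deriv ((T x0).γ i) r0 =
      (T x).γ i s - (s : ℂ) * deriv ((T x0).γ i) r0 -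
        ((T x).γ i s' - (s' : ℂ) * deriv ((T x0).γ i) r0) := by
    push_cast
    ring
  rw [h4]
  exact h3

end Table

end

end Pool.Agent.MP2e716c
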