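import Pool.Agent.H.MP_2e716c_an.Gen.NextA

/-!
# The first part of a chord in a family of tables
-/

open Set MeasureTheory Filter Topology

namespace Pool.Agent.MP2e716c

noncomputable section

namespace Table

variable {n : ℕ} [NeZero n] {X : Type*} [TopologicalSpace X] {T : X → Table n}

/-- The first part of a chord avoids the frontier.
Proof. Let `τ0 = deriv γ_{x0} i r`, `N0 = I τ0` (`z = (i, r, θ)`), `c = min (1/2) (cos θ / 8) > 0`; `κ` from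
`fam_shape`, `d` from `fam_away` with this `κ`, `ε1 = d/2`.  For `p = (x, z')` near `(x0, z)`: `z' = (i, r', θ')`,
`|r' - r| < κ`, `ip vel' N0 ≥ cos θ / 2` (`fam_vel`, `ip_vel_nor`), `‖pt' - pt‖ < d/2` (`fam_pt`).  Suppose
`pt' + t vel' = γ_x k s`, `s ∈ [0, len_x k]`, `0 < t < ε1`.  Then `‖γ_x k s - pt‖ < d`, so `k = i` and
`|s - r| < κ` (`fam_away`).  `u = t vel' = γ_x i s - γ_x i r'` satisfies `‖u - (s - r') τ0‖ ≤ c |s - r'|` (`fam_shape`), so `|s - r'| ≤ 2 t` and,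
as `ip τ0 N0 = 0`, `t cos θ / 2 ≤ t ip vel' N0 = ip u N0 ≤ c |s - r'| ≤ 2 c t ≤ t cos θ / 4`, contradiction. -/
theorem fam_start (hT : ContFam T) {x0 : X} {z : Fin n × ℝ × ℝ} (hz : z ∈ (T x0).phase) :
    ∃ ε > 0, ∀ᶠ p : X × (Fin n × ℝ × ℝ) in 𝓝 (x0, z), ∀ t ∈ Ioo (0 : ℝ) ε,
      (T p.1).pt p.2 + t * (T p.1).vel p.2 ∉ frontier (T p.1).region := by
  have hC : 0 < Real.cos z.2.2 := (T x0).cos_pos hz
  have hc : 0 < min (1 / 2) (Real.cos z.2.2 / 8) := lt_min (by norm_num) (by linarith)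
  have hc1 : min (1 / 2) (Real.cos z.2.2 / 8) ≤ 1 / 2 := min_le_left _ _
  have hc2 : min (1 / 2) (Real.cos z.2.2 / 8) ≤ Real.cos z.2.2 / 8 := min_le_right _ _
  obtain ⟨κ, hκ, hshape⟩ := fam_shape hT hz.1 hc
  obtain ⟨d, hd, haway⟩ := fam_away hT hz.1 hκ
  generalize min (1 / 2) (Real.cos z.2.2 / 8) = c at hc hc1 hc2 hshape
  refine ⟨d / 2, half_pos hd, ?_⟩
  have e2 : ∀ᶠ p : X × (Fin n × ℝ × ℝ) in 𝓝 (x0, z), dist p.2.2.1 z.2.1 < κ := by
    have h1 : Continuous fun p : X × (Fin n × ℝ × ℝ) => p.2.2.1 :=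
      continuous_fst.comp (continuous_snd.comp continuous_snd)
    exact Metric.tendsto_nhds.1 (h1.tendsto (x0, z)) κ hκ
  have e3 : ∀ᶠ p : X × (Fin n × ℝ × ℝ) in 𝓝 (x0, z),
      Real.cos z.2.2 / 2 < ip ((T p.1).vel p.2) ((T x0).nor z) := by
    have h1 : Tendsto (fun p : X × (Fin n × ℝ × ℝ) => ip ((T p.1).vel p.2) ((T x0).nor z))
        (𝓝 (x0, z)) (𝓝 (ip ((T x0).vel z) ((T x0).nor z))) :=
      (ip_continuous.tendsto ((T x0).vel z, (T x0).nor z)).comp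
        ((fam_vel hT hz).prodMk_nhds tendsto_const_nhds)
    rw [(T x0).ip_vel_nor hz] at h1
    exact h1.eventually (lt_mem_nhds (by linarith))
  have e4 : ∀ᶠ p : X × (Fin n × ℝ × ℝ) in 𝓝 (x0, z),
      dist ((T p.1).pt p.2) ((T x0).pt z) < d / 2 :=
    Metric.tendsto_nhds.1 (fam_pt hT hz) (d / 2) (half_pos hd)
  have e5 := (continuous_fst.tendsto (x0, z)).eventually hshape
  have e6 := (continuous_fst.tendsto (x0, z)).eventually haway
  filter_upwards [fam_phase hT hz, e2, e3, e4, e5, e6] with p f1 f2 f3 f4 f5 f6 t ht hf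
  rw [(T p.1).frontier_eq] at hf
  obtain ⟨k, s, hs, hks⟩ := mem_iUnion.1 hf
  have hv : ‖(T p.1).vel p.2‖ = 1 := (T p.1).vel_norm f1.2
  have htv : ‖(t : ℂ) * (T p.1).vel p.2‖ = t := by
    rw [norm_mul, hv, mul_one, Complex.norm_real, Real.norm_eq_abs, abs_of_pos ht.1]
  have hnear : ‖(T p.1).γ k s - (T x0).γ z.1 z.2.1‖ < d := by
    have h1 : (T p.1).γ k s - (T x0).γ z.1 z.2.1 =
        ((T p.1).pt p.2 - (T x0).pt z) + (t : ℂ) * (T p.1).vel p.2 := by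
      rw [hks]
      show _ = _ - (T x0).γ z.1 z.2.1 + _
      ring
    rw [h1]
    refine (norm_add_le _ _).trans_lt ?_
    rw [htv, ← dist_eq_norm]
    have := ht.2
    linarith
  have hki : ¬ (k ≠ z.1 ∨ κ ≤ |s - z.2.1|) := by
    intro h1
    exact absurd (f6 k s hs h1) (not_le.2 hnear)
  push Not at hki
  obtain ⟨hk, hsr⟩ := hki
  subst hk
  have hr' : |p.2.2.1 - z.2.1| < κ := by
    rw [← Real.dist_eq]
    exact f2
  have h1 := f5 s p.2.2.1 hsr hr'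
  have h2 : (T p.1).γ z.1 s - (T p.1).γ z.1 p.2.2.1 = (t : ℂ) * (T p.1).vel p.2 := by
    rw [hks]
    show (T p.1).γ p.2.1 p.2.2.1 + (t : ℂ) * (T p.1).vel p.2 - _ = _
    rw [f1.1]
    ring
  rw [h2] at h1
  have htang : ‖deriv ((T x0).γ z.1) z.2.1‖ = 1 := (T x0).tang_norm hz
  have hnor : ‖(T x0).nor z‖ = 1 := (T x0).nor_norm hz
  have h3 : ‖((s - p.2.2.1 : ℝ) : ℂ) * deriv ((T x0).γ z.1) z.2.1‖ = |s - p.2.2.1| := by
    rw [norm_mul, htang, mul_one, Complex.norm_real, Real.norm_eq_abs]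
  have h4 : |s - p.2.2.1| ≤ 2 * t := by
    have h5 : ‖((s - p.2.2.1 : ℝ) : ℂ) * deriv ((T x0).γ z.1) z.2.1‖ ≤
        ‖(t : ℂ) * (T p.1).vel p.2‖ + ‖(t : ℂ) * (T p.1).vel p.2 -
          ((s - p.2.2.1 : ℝ) : ℂ) * deriv ((T x0).γ z.1) z.2.1‖ := by
      have h6 := norm_sub_le ((t : ℂ) * (T p.1).vel p.2) ((t : ℂ) * (T p.1).vel p.2 -
          ((s - p.2.2.1 : ℝ) : ℂ) * deriv ((T x0).γ z.1) z.2.1)
      rwa [sub_sub_cancel] at h6
    rw [h3, htv] at h5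
    have h7 : c * |s - p.2.2.1| ≤ 1 / 2 * |s - p.2.2.1| :=
      mul_le_mul_of_nonneg_right hc1 (abs_nonneg _)
    linarith
  have h8 : ip ((t : ℂ) * (T p.1).vel p.2 - ((s - p.2.2.1 : ℝ) : ℂ) *
      deriv ((T x0).γ z.1) z.2.1) ((T x0).nor z) = t * ip ((T p.1).vel p.2) ((T x0).nor z) := by
    rw [ip_sub_left, ip_rmul_left, ip_rmul_left]
    have h9 : ip (deriv ((T x0).γ z.1) z.2.1) ((T x0).nor z) = 0 := ip_I_self _
    rw [h9]
    ring
  have h10 := abs_ip_le ((t : ℂ) * (T p.1).vel p.2 - ((s - p.2.2.1 : ℝ) : ℂ) *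
      deriv ((T x0).γ z.1) z.2.1) ((T x0).nor z)
  rw [h8, hnor, mul_one] at h10
  have h11 := (le_abs_self _).trans h10
  have h12 : t * (Real.cos z.2.2 / 2) < t * ip ((T p.1).vel p.2) ((T x0).nor z) :=
    mul_lt_mul_of_pos_left f3 ht.1
  have h13 : c * |s - p.2.2.1| ≤ c * (2 * t) := mul_le_mul_of_nonneg_left h4 hc.le
  have h14 : c * (2 * t) ≤ Real.cos z.2.2 / 8 * (2 * t) :=
    mul_le_mul_of_nonneg_right hc2 (by have := ht.1; linarith)
  have h15 : 0 < t * Real.cos z.2.2 := mul_pos ht.1 hC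
  linarith

end Table

end

end Pool.Agent.MP2e716c
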