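import Pool.Agent.H.MP_2e716c_an.Gen.NextA

/-!
# The last part of a chord in a family of tables
-/

open Set MeasureTheory Filter Topology

namespace Pool.Agent.MP2e716c

noncomputable section

namespace Table

variable {n : ℕ} [NeZero n] {X : Type*} [TopologicalSpace X] {T : X → Table n}

/-- The last part of a chord.  `z1 = (j, s1, θ1)`, `q0 + τ v0 = γ_{x0} j s1`, `v0 = inc z1`.
For `(x, q, v)` near `(x0, q0, v0)`, `‖v‖ = 1`, the line `q + t v` meets the arc `j` of `T x` at a parameter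
`s` near `s1`, at a time `t1` near `τ`, and does not meet the frontier for `t ∈ [τ - ε, t1)`.
Proof. Let `τ1 = deriv γ_{x0} j s1`, `N1 = I τ1`, `F x q v s = ip (γ_x j s - q) (I v)`.  As
`v0 = -cos θ1 N1 + sin θ1 τ1`, `ip (u) (I v0)` for `u = σ τ1 + ν N1` is `σ cos θ1 + ν sin θ1`, `cos θ1 > 0`.
By `fam_shape` at `s1` with `c = cos θ1 / 4`: for `x` near `x0`, `s' < s` within `κ` of `s1`, and `v` near `v0` with
`ip τ1 (I v) ≥ cos θ1 / 2`, `‖v‖ = 1`: `ip (γ_x s - γ_x s') (I v) ≥ (cos θ1 / 2 - c) (s - s') > 0`.  So `F` is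
strictly increasing in `s` near `s1`, `F x0 q0 v0 s1 = 0`, and for small `κ' ≤ min κ η` the signs of
`F` at `s1 ± κ'/2` persist (`fam_gamma`), so by the intermediate value theorem there is exactly
one zero `s` in `(s1 - κ', s1 + κ')`; `t1 = ip (γ_x j s - q) v`, which is near `τ`, and
`γ_x j s = q + t1 v` (`ip_decomp`).  `fam_away` at `(j, s1)` with `κ'` gives `d > 0`; choose `ε = min (d/4) ..` and
`|t1 - τ| < ε`: for `t ∈ [τ - ε, t1)`, `‖q + t v - γ_{x0} j s1‖ ≤ ‖q - q0‖ + τ ‖v - v0‖ + 2 ε < d`, so a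
frontier point `q + t v = γ_x k s'` has `k = j`, `|s' - s1| < κ'`, `F = 0` there, so `s' = s`, `t = t1`. -/
theorem fam_end (hT : ContFam T) {x0 : X} {z1 : Fin n × ℝ × ℝ} (hz : z1 ∈ (T x0).phase)
    {q0 v0 : ℂ} {τ : ℝ} (hq : (T x0).pt z1 = q0 + τ * v0) (hv : (T x0).inc z1 = v0)
    {η : ℝ} (hη : 0 < η) :
    ∃ ε > 0, ∀ᶠ p : X × ℂ × ℂ in 𝓝 (x0, q0, v0), ‖p.2.2‖ = 1 → ∃ s t1 : ℝ, |s - z1.2.1| < η ∧
      |t1 - τ| < η ∧ s ∈ Ioo 0 ((T p.1).len z1.1) ∧ (T p.1).γ z1.1 s = p.2.1 + t1 * p.2.2 ∧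
      ∀ t, τ - ε ≤ t → t < t1 → p.2.1 + t * p.2.2 ∉ frontier (T p.1).region := by
  obtain ⟨j, s1, θ1⟩ := z1
  have hs1 : s1 ∈ Ioo 0 ((T x0).len j) := hz.1
  have hcos : 0 < Real.cos θ1 := (T x0).cos_pos hz
  have hcos1 : Real.cos θ1 ≤ 1 := Real.cos_le_one _
  set D1 : ℂ := deriv ((T x0).γ j) s1 with hD1
  have hD1n : ‖D1‖ = 1 := (T x0).unit j s1 ⟨hs1.1.le, hs1.2.le⟩
  have hv0 : ‖v0‖ = 1 := by
    rw [← hv]
    exact (T x0).inc_norm hz
  have hip0 : ip D1 (Complex.I * v0) = Real.cos θ1 := by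
    rw [← hv, ip_I_mul_right, ip_comm]
    have := (T x0).ip_inc_nor hz
    rw [nor, tang] at this
    simp only at this
    rw [this, neg_neg]
  have hq' : (T x0).γ j s1 = q0 + τ * v0 := hq
  obtain ⟨κ1, hκ1, hshape⟩ := fam_shape hT hs1 (c := Real.cos θ1 / 4) (by positivity)
  obtain ⟨κ, hκ, hκκ1, hκs, hκl⟩ : ∃ κ : ℝ, 0 < κ ∧ κ ≤ κ1 ∧ κ < s1 ∧
      s1 + κ < (T x0).len j := by
    have h1 := hs1.1
    have h2 := hs1.2
    refine ⟨min κ1 (min (s1 / 2) (((T x0).len j - s1) / 2)), ?_, min_le_left _ _, ?_, ?_⟩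
    · exact lt_min hκ1 (lt_min (by linarith) (by linarith))
    · have := (min_le_right κ1 (min (s1 / 2) (((T x0).len j - s1) / 2))).trans (min_le_left _ _)
      linarith
    · have := (min_le_right κ1 (min (s1 / 2) (((T x0).len j - s1) / 2))).trans (min_le_right _ _)
      linarith
  obtain ⟨d, hd, haway⟩ := fam_away hT hs1 hκ
  obtain ⟨ε, hε, hεd, hεη⟩ : ∃ ε : ℝ, 0 < ε ∧ ε ≤ d / 4 ∧ ε ≤ η :=
    ⟨min (d / 4) η, lt_min (by linarith) hη, min_le_left _ _, min_le_right _ _⟩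
  obtain ⟨h, hh, hhκ, hhε⟩ : ∃ h : ℝ, 0 < h ∧ h ≤ κ / 2 ∧ h ≤ ε / 4 :=
    ⟨min (κ / 2) (ε / 4), lt_min (by linarith) (by linarith), min_le_left _ _, min_le_right _ _⟩
  -- monotonicity
  have hmon : ∀ (x : X) (v : ℂ), (∀ s s' : ℝ, |s - s1| < κ1 → |s' - s1| < κ1 →
      ‖(T x).γ j s - (T x).γ j s' - ((s - s' : ℝ) : ℂ) * D1‖ ≤ Real.cos θ1 / 4 * |s - s'|) →
      ‖v‖ = 1 → Real.cos θ1 / 2 ≤ ip D1 (Complex.I * v) → ∀ a b : ℝ, |a - s1| < κ1 →
      |b - s1| < κ1 → a < b → 0 < ip ((T x).γ j b - (T x).γ j a) (Complex.I * v) := by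
    intro x v hsh hvn hvi a b ha hb hab
    have h1 := hsh b a hb ha
    have h2 : (T x).γ j b - (T x).γ j a = ((T x).γ j b - (T x).γ j a -
        ((b - a : ℝ) : ℂ) * D1) + ((b - a : ℝ) : ℂ) * D1 := by ring
    rw [h2, ip_add_left, ip_rmul_left]
    have h3 := abs_ip_le ((T x).γ j b - (T x).γ j a - ((b - a : ℝ) : ℂ) * D1) (Complex.I * v)
    rw [norm_mul, Complex.norm_I, one_mul, hvn, mul_one] at h3
    rw [abs_of_pos (by linarith : (0 : ℝ) < b - a)] at h1
    have h4 := (abs_le.1 (h3.trans h1)).1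
    have h5 : (b - a) * (Real.cos θ1 / 2) ≤ (b - a) * ip D1 (Complex.I * v) :=
      mul_le_mul_of_nonneg_left hvi (by linarith)
    have h6 : 0 < (b - a) * Real.cos θ1 := mul_pos (by linarith) hcos
    linarith
  have hp1 : s1 + h ∈ Ioo 0 ((T x0).len j) := ⟨by linarith, by linarith⟩
  have hp2 : s1 - h ∈ Ioo 0 ((T x0).len j) := ⟨by linarith, by linarith⟩
  have hFt : ∀ a, a ∈ Ioo 0 ((T x0).len j) → Tendsto (fun p : X × ℂ × ℂ =>
      ip ((T p.1).γ j a - p.2.1) (Complex.I * p.2.2)) (𝓝 (x0, q0, v0))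
      (𝓝 (ip ((T x0).γ j a - q0) (Complex.I * v0))) := by
    intro a ha
    have h1 : Tendsto (fun p : X × ℂ × ℂ => (p.1, a)) (𝓝 (x0, q0, v0)) (𝓝 (x0, a)) :=
      (continuous_fst.prodMk continuous_const).tendsto' _ _ rfl
    have h2 := (fam_gamma hT j ha).comp h1
    have h3 : Tendsto (fun p : X × ℂ × ℂ => p.2.1) (𝓝 (x0, q0, v0)) (𝓝 q0) :=
      (continuous_fst.comp continuous_snd).tendsto' _ _ rfl
    have h4 : Tendsto (fun p : X × ℂ × ℂ => Complex.I * p.2.2) (𝓝 (x0, q0, v0))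
        (𝓝 (Complex.I * v0)) :=
      (continuous_const.mul (continuous_snd.comp continuous_snd)).tendsto' _ _ rfl
    exact (ip_continuous.tendsto (((T x0).γ j a - q0), Complex.I * v0)).comp
      ((h2.sub h3).prodMk_nhds h4)
  have hF0 : ∀ a, ip ((T x0).γ j a - q0) (Complex.I * v0) =
      ip ((T x0).γ j a - (T x0).γ j s1) (Complex.I * v0) := by
    intro a
    have h1 : (T x0).γ j a - q0 = ((T x0).γ j a - (T x0).γ j s1) + (τ : ℂ) * v0 := by
      rw [hq']
      ring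
    rw [h1, ip_add_left, ip_rmul_left, ip_I_self, mul_zero, add_zero]
  have habs1 : |s1 + h - s1| < κ1 := by
    rw [add_sub_cancel_left, abs_of_pos hh]
    linarith
  have habs2 : |s1 - h - s1| < κ1 := by
    rw [sub_sub_cancel_left, abs_neg, abs_of_pos hh]
    linarith
  have habs0 : |s1 - s1| < κ1 := by
    rw [sub_self, abs_zero]
    exact hκ1
  have hFp : 0 < ip ((T x0).γ j (s1 + h) - q0) (Complex.I * v0) := by
    rw [hF0]
    exact hmon x0 v0 hshape.self_of_nhds hv0 (by rw [hip0]; linarith) s1 (s1 + h) habs0 habs1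
      (by linarith)
  have hFm : ip ((T x0).γ j (s1 - h) - q0) (Complex.I * v0) < 0 := by
    rw [hF0]
    have h1 := hmon x0 v0 hshape.self_of_nhds hv0 (by rw [hip0]; linarith) (s1 - h) s1 habs2 habs0
      (by linarith)
    rw [ip_sub_left] at h1 ⊢
    linarith
  have hfst : Tendsto (fun p : X × ℂ × ℂ => p.1) (𝓝 (x0, q0, v0)) (𝓝 x0) :=
    continuous_fst.tendsto' _ _ rfl
  have e1 := hfst.eventually hshape
  have e2 := hfst.eventually haway
  have e3 : ∀ᶠ p : X × ℂ × ℂ in 𝓝 (x0, q0, v0),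
      Real.cos θ1 / 2 < ip D1 (Complex.I * p.2.2) := by
    have h1 : Tendsto (fun p : X × ℂ × ℂ => ip D1 (Complex.I * p.2.2)) (𝓝 (x0, q0, v0))
        (𝓝 (ip D1 (Complex.I * v0))) := by
      have h2 : Continuous fun p : X × ℂ × ℂ => ip D1 (Complex.I * p.2.2) :=
        ip_continuous.comp (continuous_const.prodMk
          (continuous_const.mul (continuous_snd.comp continuous_snd)))
      exact h2.tendsto' _ _ rfl
    exact h1.eventually_const_lt (by rw [hip0]; linarith)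
  have e4 := (hFt _ hp1).eventually_const_lt hFp
  have e5 := (hFt _ hp2).eventually_lt_const hFm
  have e6 : ∀ᶠ p : X × ℂ × ℂ in 𝓝 (x0, q0, v0), s1 + h < (T p.1).len j :=
    (((fam_len hT j).tendsto x0).comp hfst).eventually_const_lt hp1.2
  have e7 : ∀ᶠ p : X × ℂ × ℂ in 𝓝 (x0, q0, v0),
      ‖(T p.1).γ j s1 - (T x0).γ j s1‖ < ε / 8 := by
    have h1 : Tendsto (fun p : X × ℂ × ℂ => (p.1, s1)) (𝓝 (x0, q0, v0)) (𝓝 (x0, s1)) :=
      (continuous_fst.prodMk continuous_const).tendsto' _ _ rfl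
    have h2 := ((((fam_gamma hT j hs1).comp h1).sub_const ((T x0).γ j s1))).norm
    rw [sub_self, norm_zero] at h2
    exact h2.eventually_lt_const (by linarith)
  have e8 : ∀ᶠ p : X × ℂ × ℂ in 𝓝 (x0, q0, v0), ‖p.2.1 - q0‖ < ε / 8 := by
    have h2 : Continuous fun p : X × ℂ × ℂ => ‖p.2.1 - q0‖ := by fun_prop
    exact (h2.tendsto' _ 0 (by simp)).eventually_lt_const (by linarith)
  have e9 : ∀ᶠ p : X × ℂ × ℂ in 𝓝 (x0, q0, v0), |τ| * ‖p.2.2 - v0‖ < ε / 8 := by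
    have h2 : Continuous fun p : X × ℂ × ℂ => |τ| * ‖p.2.2 - v0‖ := by fun_prop
    exact (h2.tendsto' _ 0 (by simp)).eventually_lt_const (by linarith)
  refine ⟨ε, hε, ?_⟩
  filter_upwards [e1, e2, e3, e4, e5, e6, e7, e8, e9] with p h1 h2 h3 h4 h5 h6 h7 h8 h9 hvn
  obtain ⟨x, q, v⟩ := p
  simp only at h1 h2 h3 h4 h5 h6 h7 h8 h9 hvn ⊢
  -- the zero
  have hcF : ContinuousOn (fun s => ip ((T x).γ j s - q) (Complex.I * v))
      (Icc (s1 - h) (s1 + h)) := by
    have hc : Continuous fun s => ((T x).γ j s - q, Complex.I * v) :=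
      (((T x).smooth j).continuous.sub continuous_const).prodMk continuous_const
    exact (ip_continuous.comp hc).continuousOn
  obtain ⟨s, hs, hs0⟩ := intermediate_value_Icc (by linarith) hcF
    (show (0 : ℝ) ∈ Icc _ _ from ⟨h5.le, h4.le⟩)
  simp only at hs0
  have hsh : |s - s1| ≤ h := by
    rw [abs_le]
    constructor <;> linarith [hs.1, hs.2]
  obtain ⟨t1, ht1⟩ : ∃ t1, t1 = ip ((T x).γ j s - q) v := ⟨_, rfl⟩
  have hpt : (T x).γ j s = q + t1 * v := by
    have hdec := ip_decomp ((T x).γ j s - q) v hvn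
    rw [hs0, Complex.ofReal_zero, zero_mul, add_zero, ← ht1] at hdec
    rw [← hdec]
    ring
  have ht1τ : |t1 - τ| < ε := by
    have k1 : ((t1 - τ : ℝ) : ℂ) * v = (((T x).γ j s - (T x).γ j s1 -
        ((s - s1 : ℝ) : ℂ) * D1) + ((s - s1 : ℝ) : ℂ) * D1) +
        ((T x).γ j s1 - (T x0).γ j s1) - (q - q0) - (τ : ℂ) * (v - v0) := by
      have k2 : (T x).γ j s - (T x0).γ j s1 = (q + t1 * v) - (q0 + τ * v0) := by
        rw [← hpt, ← hq']
      have k3 : (((T x).γ j s - (T x).γ j s1 -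
        ((s - s1 : ℝ) : ℂ) * D1) + ((s - s1 : ℝ) : ℂ) * D1) +
        ((T x).γ j s1 - (T x0).γ j s1) = (q + t1 * v) - (q0 + τ * v0) := by
        rw [← k2]
        ring
      rw [k3]
      push_cast
      ring
    have k4 : |t1 - τ| = ‖((t1 - τ : ℝ) : ℂ) * v‖ := by
      rw [norm_mul, hvn, mul_one, Complex.norm_real, Real.norm_eq_abs]
    have k5 := h1 s s1 (by linarith) habs0
    have k6 : ‖((s - s1 : ℝ) : ℂ) * D1‖ = |s - s1| := by
      rw [norm_mul, hD1n, mul_one, Complex.norm_real, Real.norm_eq_abs]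
    have k7 : ‖(τ : ℂ) * (v - v0)‖ = |τ| * ‖v - v0‖ := by
      rw [norm_mul, Complex.norm_real, Real.norm_eq_abs]
    have k8 : Real.cos θ1 / 4 * |s - s1| ≤ 1 / 4 * h :=
      mul_le_mul (by linarith) hsh (abs_nonneg _) (by norm_num)
    rw [k4, k1]
    calc _ ≤ ‖(T x).γ j s - (T x).γ j s1 - ((s - s1 : ℝ) : ℂ) * D1‖ +
          ‖((s - s1 : ℝ) : ℂ) * D1‖ + ‖(T x).γ j s1 - (T x0).γ j s1‖ + ‖q - q0‖ +
          ‖(τ : ℂ) * (v - v0)‖ := by
          refine (norm_sub_le _ _).trans (add_le_add ((norm_sub_le _ _).trans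
            (add_le_add ((norm_add_le _ _).trans (add_le_add (norm_add_le _ _) le_rfl))
              le_rfl)) le_rfl)
      _ < ε := by
          rw [k6, k7]
          linarith
  refine ⟨s, t1, by linarith, by linarith, ⟨by linarith [hs.1], by linarith [hs.2]⟩, hpt, ?_⟩
  intro t ht htt1 hfr
  have htτ : |t - τ| ≤ ε := by
    rw [abs_le]
    have := (abs_lt.1 ht1τ).2
    constructor <;> linarith
  rw [(T x).frontier_eq, mem_iUnion] at hfr
  obtain ⟨k, s', hs', hks⟩ := hfr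
  have hdist : ‖(T x).γ k s' - (T x0).γ j s1‖ < d := by
    have k1 : (T x).γ k s' - (T x0).γ j s1 = (q - q0) + ((t - τ : ℝ) : ℂ) * v +
        (τ : ℂ) * (v - v0) := by
      rw [hks, hq']
      push_cast
      ring
    have k4 : ‖((t - τ : ℝ) : ℂ) * v‖ = |t - τ| := by
      rw [norm_mul, hvn, mul_one, Complex.norm_real, Real.norm_eq_abs]
    have k7 : ‖(τ : ℂ) * (v - v0)‖ = |τ| * ‖v - v0‖ := by
      rw [norm_mul, Complex.norm_real, Real.norm_eq_abs]
    rw [k1]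
    calc _ ≤ ‖q - q0‖ + ‖((t - τ : ℝ) : ℂ) * v‖ + ‖(τ : ℂ) * (v - v0)‖ :=
          (norm_add_le _ _).trans (add_le_add (norm_add_le _ _) le_rfl)
      _ < d := by
          rw [k4, k7]
          linarith
  have hkj : k = j := by
    by_contra hne
    exact absurd (h2 k s' hs' (Or.inl hne)) (not_le.2 hdist)
  have hs's1 : |s' - s1| < κ := by
    by_contra hne
    exact absurd (h2 k s' hs' (Or.inr (not_lt.1 hne))) (not_le.2 hdist)
  subst hkj
  have hF' : ip ((T x).γ k s' - q) (Complex.I * v) = 0 := by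
    rw [hks, add_sub_cancel_left, ip_rmul_left, ip_I_self, mul_zero]
  have hsame : s' = s := by
    rcases lt_trichotomy s' s with hlt | heq | hgt
    · have := hmon x v h1 hvn h3.le s' s (by linarith) (by linarith) hlt
      rw [ip_sub_left] at this hF' hs0
      linarith
    · exact heq
    · have := hmon x v h1 hvn h3.le s s' (by linarith) (by linarith) hgt
      rw [ip_sub_left] at this hF' hs0
      linarith
  rw [hsame, hpt] at hks
  have hv' : v ≠ 0 := by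
    rintro rfl
    rw [norm_zero] at hvn
    exact zero_ne_one hvn
  have h10 := mul_right_cancel₀ hv' (add_left_cancel hks)
  have h11 : t1 = t := by exact_mod_cast h10
  linarith

end Table

end

end Pool.Agent.MP2e716c
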