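import Pool.Agent.H.MP_2e716c_an.Gen.NextA2
import Pool.Agent.H.MP_2e716c_an.Gen.NextB

/-!
# Stability of `Next` in a family of tables
-/

open Set MeasureTheory Filter Topology

namespace Pool.Agent.MP2e716c

noncomputable section

namespace Table

variable {n : ℕ} [NeZero n] {X : Type*} [TopologicalSpace X] {T : X → Table n}

/-- A segment which starts in the region and avoids the frontier stays in the region. -/
theorem gen_nextc_segment (S : Table n) {z : Fin n × ℝ × ℝ} (hz : z ∈ S.phase) {t1 : ℝ}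
    (h : ∀ t ∈ Ioo (0 : ℝ) t1, S.pt z + t * S.vel z ∉ frontier S.region) :
    ∀ t ∈ Ioo (0 : ℝ) t1, S.pt z + t * S.vel z ∈ S.region := by
  intro t ht
  obtain ⟨t0, ht0, hin⟩ := S.phase_start hz
  have ht1 : 0 < t1 := ht.1.trans ht.2
  have hc : Continuous fun t : ℝ => S.pt z + t * S.vel z := by fun_prop
  have hpre : IsPreconnected ((fun t : ℝ => S.pt z + t * S.vel z) '' Ioo (0 : ℝ) t1) :=
    isPreconnected_Ioo.image _ hc.continuousOn
  have hdis : Disjoint S.region (closure S.region)ᶜ :=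
    disjoint_compl_right_iff_subset.2 subset_closure
  have hsub : (fun t : ℝ => S.pt z + t * S.vel z) '' Ioo (0 : ℝ) t1 ⊆
      S.region ∪ (closure S.region)ᶜ := by
    rintro _ ⟨u, hu, rfl⟩
    have h1 := h u hu
    rw [S.isOpen.frontier_eq] at h1
    by_cases h2 : S.pt z + u * S.vel z ∈ closure S.region
    · left
      by_contra h3
      exact h1 ⟨h2, h3⟩
    · right
      exact h2
  have hne : ((fun t : ℝ => S.pt z + t * S.vel z) '' Ioo (0 : ℝ) t1 ∩ S.region).Nonempty := by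
    refine ⟨_, ⟨min t0 t1 / 2, ⟨?_, ?_⟩, rfl⟩, hin _ ⟨?_, ?_⟩⟩
    · have := lt_min ht0 ht1; linarith
    · have := lt_min ht0 ht1; have := min_le_right t0 t1; linarith
    · have := lt_min ht0 ht1; linarith
    · have := lt_min ht0 ht1; have := min_le_left t0 t1; linarith
  exact hpre.subset_left_of_subset_union S.isOpen isClosed_closure.isOpen_compl hdis hsub hne
    ⟨t, ht, rfl⟩

/-- Stability of `Next`.
Proof. Let `τ` be the chord length of `Next z z1` in `T x0`, `q0 = pt z`, `v0 = vel z = inc z1`.  `fam_end` (with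
small `η < τ/2`) gives `ε2`, `fam_start` gives `ε1`, `fam_middle` on `[ε1/2, τ - ε2]` (chord points are in the
open region, hence not on the frontier: `IsOpen.frontier_eq`), all transported to
`p = (x, z')` near `(x0, z)` by `fam_pt`, `fam_vel` (continuity of `p ↦ (x, pt, vel)`).  So for such `p` the chord
from `z'` avoids the frontier on `(0, t1)` and ends at `γ_x j s`, `t1 > 0`.  It starts inside:
`phase_start` (`fam_phase`), so by connectedness of `(0, t1)` it lies in `region ∪ (closure region)ᶜ`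
and therefore in the region (`IsPreconnected.subset_left_of_subset_union` or
`isPreconnected_Ioo`, region is clopen in the complement of its frontier).  Then `next_of_hit` with
`ip vel' (I deriv γ_x j s) ≠ 0` (near `ip v0 N1 = -cos θ1 < 0` by `fam_deriv`; choose `η` small), and the new angle
`arcsin (ip vel' (deriv γ_x j s))` is near `arcsin (sin θ1) = θ1`.  So `z1' ∈ U` if `η` and the neighbourhood
are small (continuity of `arcsin`, `ip`). -/
theorem fam_next (hT : ContFam T) {x0 : X} {z z1 : Fin n × ℝ × ℝ} (h : (T x0).Next z z1)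
    {U : Set (Fin n × ℝ × ℝ)} (hU : U ∈ 𝓝 z1) :
    ∀ᶠ p : X × (Fin n × ℝ × ℝ) in 𝓝 (x0, z), ∃ z1' ∈ U, (T p.1).Next p.2 z1' := by
  obtain ⟨hz, hz1, τ, hτ, hin, hp, hv⟩ := h
  -- the new phase point
  have hvel : Tendsto (fun w : (X × (Fin n × ℝ × ℝ)) × ℝ => (T w.1.1).vel w.1.2)
      (𝓝 (x0, z) ×ˢ 𝓝 z1.2.1) (𝓝 ((T x0).vel z)) := (fam_vel hT hz).comp tendsto_fst
  have hder : Tendsto (fun w : (X × (Fin n × ℝ × ℝ)) × ℝ => deriv ((T w.1.1).γ z1.1) w.2)
      (𝓝 (x0, z) ×ˢ 𝓝 z1.2.1) (𝓝 (deriv ((T x0).γ z1.1) z1.2.1)) := by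
    refine (fam_deriv hT z1.1 hz1.1).comp (g := fun q : X × ℝ => deriv ((T q.1).γ z1.1) q.2)
      (f := fun w : (X × (Fin n × ℝ × ℝ)) × ℝ => (w.1.1, w.2)) ?_
    exact ((continuous_fst.tendsto (x0, z)).comp tendsto_fst).prodMk_nhds tendsto_snd
  have hip1 : Tendsto (fun w : (X × (Fin n × ℝ × ℝ)) × ℝ =>
      ip ((T w.1.1).vel w.1.2) (deriv ((T w.1.1).γ z1.1) w.2))
      (𝓝 (x0, z) ×ˢ 𝓝 z1.2.1) (𝓝 (Real.sin z1.2.2)) := by
    have h1 := (ip_continuous.tendsto ((T x0).vel z, deriv ((T x0).γ z1.1) z1.2.1)).comp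
      (hvel.prodMk_nhds hder)
    have h2 : ip ((T x0).vel z) (deriv ((T x0).γ z1.1) z1.2.1) = Real.sin z1.2.2 := by
      rw [← hv]
      exact (T x0).ip_inc_tang hz1
    rw [← h2]
    exact h1
  have hip2 : Tendsto (fun w : (X × (Fin n × ℝ × ℝ)) × ℝ =>
      ip ((T w.1.1).vel w.1.2) (Complex.I * deriv ((T w.1.1).γ z1.1) w.2))
      (𝓝 (x0, z) ×ˢ 𝓝 z1.2.1) (𝓝 (-Real.cos z1.2.2)) := by
    have h1 := (ip_continuous.tendsto ((T x0).vel z,
      Complex.I * deriv ((T x0).γ z1.1) z1.2.1)).comp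
      (hvel.prodMk_nhds (hder.const_mul Complex.I))
    have h2 : ip ((T x0).vel z) (Complex.I * deriv ((T x0).γ z1.1) z1.2.1) =
        -Real.cos z1.2.2 := by
      rw [← hv]
      exact (T x0).ip_inc_nor hz1
    rw [← h2]
    exact h1
  have hnew : Tendsto (fun w : (X × (Fin n × ℝ × ℝ)) × ℝ => (z1.1, w.2,
      Real.arcsin (ip ((T w.1.1).vel w.1.2) (deriv ((T w.1.1).γ z1.1) w.2))))
      (𝓝 (x0, z) ×ˢ 𝓝 z1.2.1) (𝓝 z1) := by
    have h1 : Tendsto (fun w : (X × (Fin n × ℝ × ℝ)) × ℝ =>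
        Real.arcsin (ip ((T w.1.1).vel w.1.2) (deriv ((T w.1.1).γ z1.1) w.2)))
        (𝓝 (x0, z) ×ˢ 𝓝 z1.2.1) (𝓝 z1.2.2) := by
      have h2 := (Real.continuous_arcsin.tendsto (Real.sin z1.2.2)).comp hip1
      rw [Real.arcsin_sin hz1.2.1.le hz1.2.2.le] at h2
      exact h2
    have h3 := (tendsto_const_nhds (x := z1.1)
      (f := (𝓝 (x0, z) ×ˢ 𝓝 z1.2.1 : Filter ((X × (Fin n × ℝ × ℝ)) × ℝ)))).prodMk_nhds
      ((tendsto_snd (f := 𝓝 (x0, z)) (g := 𝓝 z1.2.1)).prodMk_nhds h1)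
    exact h3
  have hcos : -Real.cos z1.2.2 < 0 := by
    have := (T x0).cos_pos hz1
    linarith
  have hev := (hnew.eventually hU).and (hip2.eventually (gt_mem_nhds hcos))
  obtain ⟨pa, hpa, pb, hpb, hab⟩ := Filter.eventually_prod_iff.1 hev
  obtain ⟨η, hη, hηb⟩ := Metric.eventually_nhds_iff.1 hpb
  -- transport
  have htr : Tendsto (fun p : X × (Fin n × ℝ × ℝ) => (p.1, (T p.1).pt p.2, (T p.1).vel p.2))
      (𝓝 (x0, z)) (𝓝 (x0, (T x0).pt z, (T x0).vel z)) :=
    (continuous_fst.tendsto (x0, z)).prodMk_nhds ((fam_pt hT hz).prodMk_nhds (fam_vel hT hz))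
  obtain ⟨ε2, hε2, hend⟩ := fam_end hT hz1 hp hv (η := min η (τ / 2)) (lt_min hη (by linarith))
  obtain ⟨ε1, hε1, hstart⟩ := fam_start hT hz
  have hmid := fam_middle hT (x0 := x0) (a := min ε1 (τ / 2)) (b := τ - ε2)
    (q0 := (T x0).pt z) (v0 := (T x0).vel z) (fun t ht hf =>
      (T x0).frontier_not_mem hf (hin t ⟨(lt_min hε1 (by linarith)).trans_le ht.1, by
        linarith [ht.2]⟩))
  filter_upwards [hpa, htr.eventually hend, hstart, htr.eventually hmid, fam_phase hT hz]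
    with p h1 h2 h3 h4 h5
  obtain ⟨s, t1, hs1, ht1, hs, hpt, havoid⟩ := h2 ((T p.1).vel_norm h5.2)
  have ht1' := abs_lt.1 (ht1.trans_le (min_le_right _ _))
  have ht1pos : 0 < t1 := by linarith [ht1'.1]
  have hreg : ∀ t ∈ Ioo (0 : ℝ) t1, (T p.1).pt p.2 + t * (T p.1).vel p.2 ∈ (T p.1).region := by
    refine gen_nextc_segment (T p.1) h5.2 fun t ht => ?_
    rcases lt_or_ge t ε1 with h6 | h6
    · exact h3 t ⟨ht.1, h6⟩
    · rcases le_or_gt t (τ - ε2) with h7 | h7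
      · exact h4 t ⟨(min_le_left _ _).trans h6, h7⟩
      · exact havoid t h7.le ht.2
  have hb := hab h1 (hηb (show dist s z1.2.1 < η by
    rw [Real.dist_eq]; exact hs1.trans_le (min_le_left _ _)))
  exact ⟨_, hb.1, (T p.1).next_of_hit h5.2 ht1pos hreg hs hpt (ne_of_lt hb.2)⟩

end Table

end

end Pool.Agent.MP2e716c
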