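import Pool.Agent.H.MP_2e716c_an.Gen.Hat

/-!
# Small displacements are diffeomorphisms of the plane
-/

open Set MeasureTheory Filter Topology

namespace Pool.Agent.MP2e716c

noncomputable section

/-- An orientation preserving `C³` diffeomorphism of the plane. -/
structure PDiff where
  /-- the homeomorphism -/
  Φ : ℂ ≃ₜ ℂ
  smooth : ContDiff ℝ 3 Φ
  smooth_symm : ContDiff ℝ 3 Φ.symm
  pos : ∀ x, 0 < ip (fderiv ℝ Φ x Complex.I) (Complex.I * fderiv ℝ Φ x 1)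

variable {n : ℕ} [NeZero n]

/-- the displacement is smooth -/
theorem gen_pdiff_contDiff {h : Fin n → ℂ → ℝ} (hs : ∀ i, ContDiff ℝ (⊤ : ℕ∞) (h i))
    (δ : Fin n → ℂ) : ContDiff ℝ (⊤ : ℕ∞) (fun y => ∑ i, (h i y : ℂ) * δ i) :=
  ContDiff.sum fun i _ => (Complex.ofRealCLM.contDiff.comp (hs i)).mul contDiff_const

/-- Small displacements have small derivative.  The derivative of `∑ h_i δ_i` is `∑ D h_i δ_i`; each `D h_i` is
continuous with compact support, hence bounded. -/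
theorem shift_small {h : Fin n → ℂ → ℝ} (hs : ∀ i, ContDiff ℝ (⊤ : ℕ∞) (h i))
    (hk : ∀ i, HasCompactSupport (h i)) :
    ∃ ρ > 0, ∀ δ : Fin n → ℂ, ‖δ‖ < ρ → ∀ x,
      ‖fderiv ℝ (fun y => ∑ i, (h i y : ℂ) * δ i) x‖ ≤ 1 / 4 := by
  have hdiff : ∀ i, Differentiable ℝ (h i) := fun i => (hs i).differentiable (by simp)
  have hb : ∀ i, ∃ C, ∀ x, ‖fderiv ℝ (h i) x‖ ≤ C := fun i =>
    (HasCompactSupport.fderiv ℝ (hk i)).exists_bound_of_continuous
      ((hs i).continuous_fderiv (by simp))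
  choose C hC using hb
  have hC0 : ∀ i, 0 ≤ C i := fun i => (norm_nonneg _).trans (hC i 0)
  set S : ℝ := ∑ i, C i with hS
  have hS0 : 0 ≤ S := Finset.sum_nonneg fun i _ => hC0 i
  refine ⟨1 / (4 * (S + 1)), by positivity, ?_⟩
  intro δ hδ x
  refine ContinuousLinearMap.opNorm_le_bound _ (by norm_num) fun v => ?_
  have h1 : HasFDerivAt (fun y => ∑ i, (h i y : ℂ) * δ i)
      (∑ i, (ContinuousLinearMap.smulRight (fderiv ℝ (h i) x) (δ i))) x := by
    refine HasFDerivAt.fun_sum fun i _ => ?_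
    have h2 := ((hdiff i) x).hasFDerivAt.smul_const (δ i)
    refine h2.congr_of_eventuallyEq (Eventually.of_forall fun y => ?_)
    show (h i y : ℂ) * δ i = h i y • δ i
    rw [Complex.real_smul]
  rw [h1.fderiv, sum_apply]
  refine (norm_sum_le _ _).trans ?_
  have h3 : ∀ i, ‖(ContinuousLinearMap.smulRight (fderiv ℝ (h i) x) (δ i)) v‖ ≤
      C i * (‖δ‖ * ‖v‖) := by
    intro i
    rw [ContinuousLinearMap.smulRight_apply, norm_smul]
    have h4 : ‖fderiv ℝ (h i) x v‖ ≤ C i * ‖v‖ :=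
      (ContinuousLinearMap.le_opNorm _ _).trans
        (mul_le_mul_of_nonneg_right (hC i x) (norm_nonneg _))
    calc ‖fderiv ℝ (h i) x v‖ * ‖δ i‖ ≤ (C i * ‖v‖) * ‖δ‖ :=
          mul_le_mul h4 (norm_le_pi_norm δ i) (norm_nonneg _)
            (mul_nonneg (hC0 i) (norm_nonneg _))
      _ = C i * (‖δ‖ * ‖v‖) := by ring
  refine (Finset.sum_le_sum fun i _ => h3 i).trans ?_
  rw [← Finset.sum_mul, ← hS, ← mul_assoc]
  refine mul_le_mul_of_nonneg_right ?_ (norm_nonneg _)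
  have h5 : S * ‖δ‖ ≤ S * (1 / (4 * (S + 1))) := mul_le_mul_of_nonneg_left hδ.le hS0
  refine h5.trans ?_
  rw [mul_one_div, div_le_div_iff₀ (by positivity) (by norm_num)]
  nlinarith

/-- `1 + A` is invertible if `‖A‖ ≤ 1 / 4`. -/
theorem gen_pdiff_equiv (A : ℂ →L[ℝ] ℂ) (hA : ‖A‖ ≤ 1 / 4) :
    ∃ e : ℂ ≃L[ℝ] ℂ, (e : ℂ →L[ℝ] ℂ) = ContinuousLinearMap.id ℝ ℂ + A := by
  have hinj : Function.Injective ((ContinuousLinearMap.id ℝ ℂ + A : ℂ →L[ℝ] ℂ) : ℂ →ₗ[ℝ] ℂ) := by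
    rw [← LinearMap.ker_eq_bot, LinearMap.ker_eq_bot']
    intro v hv
    have h1 : v + A v = 0 := hv
    have h2 : ‖v‖ ≤ 1 / 4 * ‖v‖ := by
      have h3 : v = - A v := eq_neg_of_add_eq_zero_left h1
      calc ‖v‖ = ‖A v‖ := by conv_lhs => rw [h3, norm_neg]
        _ ≤ ‖A‖ * ‖v‖ := A.le_opNorm v
        _ ≤ 1 / 4 * ‖v‖ := mul_le_mul_of_nonneg_right hA (norm_nonneg _)
    have h4 : ‖v‖ = 0 := le_antisymm (by linarith) (norm_nonneg _)
    exact norm_eq_zero.1 h4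
  refine ⟨(LinearEquiv.ofInjectiveEndo _ hinj).toContinuousLinearEquiv, ?_⟩
  ext v
  simp

/-- Small displacements are orientation preserving diffeomorphisms.
Proof. `w = ∑ h_i δ_i` is smooth and `1/4`-Lipschitz (mean value inequality), so `id + w` is a
homeomorphism (`ApproximatesLinearOn.toHomeomorph` with `LinearEquiv.refl`, or Banach fixed point),
its derivative `1 + D w` is invertible, so the inverse is `C³`
(`Homeomorph.contDiff_symm` or `OpenPartialHomeomorph.contDiffAt_symm`), and with `a = D w 1`, `b = D w I`: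
`ip (I + b) (I (1 + a)) = 1 + ip b I + ip I (I a) + ip b (I a) ≥ 1 - 1/4 - 1/4 - 1/16 > 0`. -/
theorem shift_pdiff {h : Fin n → ℂ → ℝ} (hs : ∀ i, ContDiff ℝ (⊤ : ℕ∞) (h i)) {δ : Fin n → ℂ}
    (hd : ∀ x, ‖fderiv ℝ (fun y => ∑ i, (h i y : ℂ) * δ i) x‖ ≤ 1 / 4) :
    ∃ F : PDiff, ⇑F.Φ = shift h δ := by
  set w : ℂ → ℂ := fun y => ∑ i, (h i y : ℂ) * δ i with hw
  have hwc : ContDiff ℝ (⊤ : ℕ∞) w := gen_pdiff_contDiff hs δ
  have hwd : Differentiable ℝ w := hwc.differentiable (by simp)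
  have hlip : LipschitzWith (1 / 4) w :=
    lipschitzWith_of_nnnorm_fderiv_le (𝕜 := ℝ) hwd fun x => by
      rw [← NNReal.coe_le_coe]
      simpa using hd x
  have hsh : shift h δ = fun x => x + w x := rfl
  have happ : ApproximatesLinearOn (shift h δ)
      ((ContinuousLinearEquiv.refl ℝ ℂ : ℂ ≃L[ℝ] ℂ) : ℂ →L[ℝ] ℂ) univ (1 / 4) := by
    intro x _ y _
    have h1 : shift h δ x - shift h δ y -
        ((ContinuousLinearEquiv.refl ℝ ℂ : ℂ ≃L[ℝ] ℂ) : ℂ →L[ℝ] ℂ) (x - y) = w x - w y := by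
      show x + w x - (y + w y) - (x - y) = w x - w y
      ring
    rw [h1]
    exact hlip.norm_sub_le x y
  have hN : ‖((ContinuousLinearEquiv.refl ℝ ℂ).symm : ℂ →L[ℝ] ℂ)‖₊ = 1 := by
    have : ((ContinuousLinearEquiv.refl ℝ ℂ).symm : ℂ →L[ℝ] ℂ) = ContinuousLinearMap.id ℝ ℂ := rfl
    rw [this]
    exact ContinuousLinearMap.nnnorm_id
  have hc : Subsingleton ℂ ∨ (1 / 4 : NNReal) <
      ‖((ContinuousLinearEquiv.refl ℝ ℂ).symm : ℂ →L[ℝ] ℂ)‖₊⁻¹ := by
    right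
    rw [hN, inv_one]
    rw [← NNReal.coe_lt_coe]
    norm_num
  let Φ : ℂ ≃ₜ ℂ := happ.toHomeomorph _ hc
  have hΦ : ⇑Φ = shift h δ := rfl
  have hderiv : ∀ x, HasFDerivAt Φ (ContinuousLinearMap.id ℝ ℂ + fderiv ℝ w x) x := by
    intro x
    rw [hΦ, hsh]
    exact (hasFDerivAt_id x).add (hwd x).hasFDerivAt
  choose e he using fun x => gen_pdiff_equiv (fderiv ℝ w x) (hd x)
  have hsm : ContDiff ℝ 3 Φ := by
    rw [hΦ, hsh]
    exact contDiff_id.add (by exact_mod_cast contDiff_infty.1 hwc 3)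
  refine ⟨⟨Φ, hsm, Φ.contDiff_symm (f₀' := e) (fun x => by rw [he]; exact hderiv x) hsm, ?_⟩, hΦ⟩
  intro x
  rw [(hderiv x).fderiv]
  have h1 : ∀ v, (ContinuousLinearMap.id ℝ ℂ + fderiv ℝ w x) v = v + fderiv ℝ w x v := fun v => rfl
  rw [h1, h1]
  set a := fderiv ℝ w x 1 with ha
  set b := fderiv ℝ w x Complex.I with hb
  have ha1 : ‖a‖ ≤ 1 / 4 := by
    have := (fderiv ℝ w x).le_opNorm 1
    rw [norm_one, mul_one] at this
    exact this.trans (hd x)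
  have hb1 : ‖b‖ ≤ 1 / 4 := by
    have := (fderiv ℝ w x).le_opNorm Complex.I
    rw [Complex.norm_I, mul_one] at this
    exact this.trans (hd x)
  have e1 := (Complex.abs_re_le_norm a).trans ha1
  have e2 := (Complex.abs_im_le_norm a).trans ha1
  have e3 := (Complex.abs_re_le_norm b).trans hb1
  have e4 := (Complex.abs_im_le_norm b).trans hb1
  rw [abs_le] at e1 e2 e3 e4
  have h2 : ip (Complex.I + b) (Complex.I * (1 + a)) =
      -(b.re * a.im) + (1 + b.im) * (1 + a.re) := by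
    unfold ip
    simp
  rw [h2]
  nlinarith [mul_nonneg (sub_nonneg.2 e4.1) (sub_nonneg.2 e1.1),
    mul_nonneg (sub_nonneg.2 e3.2) (sub_nonneg.2 e2.2),
    mul_nonneg (sub_nonneg.2 e3.1) (sub_nonneg.2 e2.1)]

end

end Pool.Agent.MP2e716c
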