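import Pool.Agent.H.MP_2e716c_an.Gen.Hits

/-!
# Semicontinuity of the measure of the points that do not hit `D` within `N` steps
-/

open Set MeasureTheory Filter Topology

namespace Pool.Agent.MP2e716c

noncomputable section

/-- Counting measure times Lebesgue measure on `Fin n × ℝ × ℝ`. -/
def lam (n : ℕ) : Measure (Fin n × ℝ × ℝ) :=
  (Measure.count : Measure (Fin n)).prod (volume : Measure (ℝ × ℝ))

namespace Table

variable {n : ℕ} [NeZero n]

/-- Total measure of the phase space: `lam phase = ∑ i, len i * π`.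
`phase = ⋃ i, {i} ×ˢ (Ioo 0 (len i) ×ˢ Ioo (-π/2) (π/2))`. -/
theorem lam_phase (T : Table n) :
    lam n T.phase = ENNReal.ofReal (∑ i, T.len i * Real.pi) := by
  have h0 : ∀ i ∈ Finset.univ, 0 ≤ T.len i * Real.pi := fun i _ =>
    mul_nonneg (T.len_pos i).le Real.pi_pos.le
  rw [lam, Measure.prod_apply T.measurableSet_phase, lintegral_count, tsum_fintype,
    ENNReal.ofReal_sum_of_nonneg h0]
  refine Finset.sum_congr rfl fun i _ => ?_
  have h1 : Prod.mk i ⁻¹' T.phase =
      Ioo 0 (T.len i) ×ˢ Ioo (-(Real.pi / 2)) (Real.pi / 2) := by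
    ext x
    rfl
  rw [h1, Measure.volume_eq_prod, Measure.prod_prod, Real.volume_Ioo, Real.volume_Ioo,
    ← ENNReal.ofReal_mul (by linarith [T.len_pos i])]
  congr 1
  ring

/-- `μ`-null and `lam`-null sets agree inside the phase space.  From the definition of `μ`
(density `cos θ > 0` on `phase`), cf. `ae_mu_iff`. -/
theorem lam_null_iff (T : Table n) {A : Set (Fin n × ℝ × ℝ)} :
    (∀ᵐ z ∂T.μ, z ∉ A) ↔ lam n (A ∩ T.phase) = 0 := by
  have hd : Measurable fun z : Fin n × ℝ × ℝ => ENNReal.ofReal (Real.cos z.2.2) := by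
    fun_prop
  rw [μ, ae_restrict_iff' T.measurableSet_phase, ae_withDensity_iff hd, ae_iff, lam]
  have h1 : {z : Fin n × ℝ × ℝ | ¬ (ENNReal.ofReal (Real.cos z.2.2) ≠ 0 → z ∈ T.phase → z ∉ A)} =
      A ∩ T.phase := by
    ext z
    constructor
    · intro h
      have h2 : ¬ (ENNReal.ofReal (Real.cos z.2.2) ≠ 0 → z ∈ T.phase → z ∉ A) := h
      push Not at h2
      exact ⟨h2.2.2, h2.2.1⟩
    · rintro ⟨h2, h3⟩ h
      exact h (ENNReal.ofReal_pos.2 (T.cos_pos h3)).ne' h3 h2
  rw [h1]

instance gen_semi_fin : IsLocallyFiniteMeasure (lam n) := by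
  unfold lam
  infer_instance

theorem gen_semi_ne_top (T : Table n) : lam n T.phase ≠ ⊤ := by
  rw [lam_phase]
  exact ENNReal.ofReal_ne_top

variable {X : Type*} [TopologicalSpace X] {T : X → Table n}

/-- Upper semicontinuity.
Proof. Let `lam (phase_{x0} \ hits_{x0}) < a` and choose `η > 0` (real) with
`lam (phase_{x0} \ hits_{x0}) + 2 η < a`.  `hits_{x0}` is open (`isOpen_hits`) of finite measure (`lam_phase`), so by
inner regularity (`lam` is a locally finite measure on a Polish space: `IsOpen.exists_lt_isCompact`)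
there is a compact `K ⊆ hits_{x0}` with `lam hits_{x0} < lam K + η`.  For every `z ∈ K`, `fam_hits` gives
`p.2 ∈ hits_{p.1}` near `(x0, z)`, so by compactness (`IsCompact.eventually_forall_of_forall_eventually`)
`K ⊆ hits_x` for `x` near `x0`.  Also `lam phase_x < lam phase_{x0} + η` for `x` near `x0` (`lam_phase`, `fam_len`).
So `lam (phase_x \ hits_x) = lam phase_x - lam hits_x ≤ lam phase_{x0} + η - lam K < a`. -/
theorem fam_semi (hT : ContFam T) (D : Set (Fin n)) {x0 : X} {N : ℕ} {a : ENNReal}
    (h : lam n ((T x0).phase \ (T x0).hits D N) < a) :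
    ∀ᶠ x in 𝓝 x0, lam n ((T x).phase \ (T x).hits D N) < a := by
  obtain ⟨η, hη, hlt⟩ := ENNReal.lt_iff_exists_add_pos_lt.1 h
  have hη2 : (0 : ENNReal) < (η / 2 : NNReal) := by
    rw [ENNReal.coe_pos]
    exact half_pos hη
  have hηη : ((η / 2 : NNReal) : ENNReal) + (η / 2 : NNReal) = η := by
    rw [← ENNReal.coe_add, add_halves]
  have hHm : MeasurableSet ((T x0).hits D N) := ((T x0).isOpen_hits D N).measurableSet
  have hHtop : lam n ((T x0).hits D N) ≠ ⊤ :=
    ne_top_of_le_ne_top (gen_semi_ne_top (T x0)) (measure_mono ((T x0).hits_subset_phase D N))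
  obtain ⟨K, hKH, hK, hKlt⟩ := hHm.exists_isCompact_lt_add hHtop hη2.ne'
  have hKtop : lam n K ≠ ⊤ := ne_top_of_le_ne_top hHtop (measure_mono hKH)
  have hev1 : ∀ᶠ x in 𝓝 x0, ∀ z ∈ K, z ∈ (T x).hits D N :=
    hK.eventually_forall_of_forall_eventually (fun z hz => fam_hits hT D (hKH hz))
  have hev2 : ∀ᶠ x in 𝓝 x0, lam n (T x).phase < lam n (T x0).phase + (η / 2 : NNReal) := by
    have hc : Continuous fun x => lam n (T x).phase := by
      simp only [lam_phase]
      exact ENNReal.continuous_ofReal.comp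
        (continuous_finsetSum _ fun i _ => (fam_len hT i).mul continuous_const)
    exact hc.continuousAt.eventually_lt_const
      (ENNReal.lt_add_right (gen_semi_ne_top (T x0)) hη2.ne')
  filter_upwards [hev1, hev2] with x hx1 hx2
  have hKx : K ⊆ (T x).hits D N := hx1
  have h1 : lam n ((T x).phase \ (T x).hits D N) ≤ lam n ((T x).phase \ K) :=
    measure_mono (sdiff_subset_sdiff_right hKx)
  have h2 : lam n ((T x).phase \ K) + lam n K = lam n (T x).phase := by
    have h3 := measure_sdiff_add_inter (μ := lam n) (T x).phase hK.measurableSet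
    rwa [inter_eq_self_of_subset_right (hKx.trans ((T x).hits_subset_phase D N))] at h3
  have h4 : lam n ((T x0).phase \ (T x0).hits D N) + lam n ((T x0).hits D N) =
      lam n (T x0).phase := by
    have h3 := measure_sdiff_add_inter (μ := lam n) (T x0).phase hHm
    rwa [inter_eq_self_of_subset_right ((T x0).hits_subset_phase D N)] at h3
  have h5 : lam n ((T x).phase \ K) + lam n K <
      (lam n ((T x0).phase \ (T x0).hits D N) + η) + lam n K := by
    calc lam n ((T x).phase \ K) + lam n K = lam n (T x).phase := h2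
      _ < lam n (T x0).phase + (η / 2 : NNReal) := hx2
      _ = lam n ((T x0).phase \ (T x0).hits D N) + lam n ((T x0).hits D N) +
          (η / 2 : NNReal) := by rw [h4]
      _ ≤ lam n ((T x0).phase \ (T x0).hits D N) + (lam n K + (η / 2 : NNReal)) +
          (η / 2 : NNReal) := by gcongr
      _ = (lam n ((T x0).phase \ (T x0).hits D N) + (((η / 2 : NNReal) : ENNReal) +
          (η / 2 : NNReal))) + lam n K := by ring
      _ = (lam n ((T x0).phase \ (T x0).hits D N) + η) + lam n K := by rw [hηη]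
  exact h1.trans_lt ((lt_of_add_lt_add_right h5).trans hlt)

/-- `lam (phase \ ⋃ hits) = 0` if and only if for every `ε > 0` some `N` has
`lam (phase \ hits N) < ε`.  Continuity from above (`tendsto_measure_iInter_atTop`), antitone by
`hits_mono`, finite by `lam_phase`. -/
theorem lam_hits_iff (T : Table n) (D : Set (Fin n)) :
    lam n (T.phase \ ⋃ N, T.hits D N) = 0 ↔
      ∀ m : ℕ, ∃ N, lam n (T.phase \ T.hits D N) < ENNReal.ofReal (1 / ((m : ℝ) + 1)) := by
  have hanti : Antitone fun N => T.phase \ T.hits D N := fun N M hNM =>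
    sdiff_subset_sdiff_right (T.hits_mono D hNM)
  have hlim : Tendsto (fun N => lam n (T.phase \ T.hits D N)) atTop
      (𝓝 (lam n (⋂ N, T.phase \ T.hits D N))) := by
    refine tendsto_measure_iInter_atTop (fun N => ?_) hanti ⟨0, ?_⟩
    · exact (T.measurableSet_phase.diff (T.isOpen_hits D N).measurableSet).nullMeasurableSet
    · exact ne_top_of_le_ne_top (gen_semi_ne_top T) (measure_mono sdiff_subset)
  rw [sdiff_iUnion]
  constructor
  · intro h m
    rw [h] at hlim
    have hpos : (0 : ENNReal) < ENNReal.ofReal (1 / ((m : ℝ) + 1)) :=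
      ENNReal.ofReal_pos.2 (by positivity)
    exact (hlim.eventually_lt_const hpos).exists
  · intro h
    have h1 : ∀ m : ℕ, lam n (⋂ N, T.phase \ T.hits D N) ≤
        ENNReal.ofReal (1 / ((m : ℝ) + 1)) := by
      intro m
      obtain ⟨N, hN⟩ := h m
      exact (measure_mono (iInter_subset _ N)).trans hN.le
    have h2 : Tendsto (fun m : ℕ => ENNReal.ofReal (1 / ((m : ℝ) + 1))) atTop
        (𝓝 (ENNReal.ofReal 0)) :=
      (ENNReal.continuous_ofReal.tendsto 0).comp tendsto_one_div_add_atTop_nhds_zero_nat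
    rw [ENNReal.ofReal_zero] at h2
    exact le_antisymm (ge_of_tendsto' h2 h1) bot_le

end Table

end

end Pool.Agent.MP2e716c
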